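import Mathlib

/-!
# The algebraic closure of the rationals, with the canonical `ℚ`-algebra structure
-/

namespace Pool.Agent.H48.SymDP

theorem isAlgClosure_rat : IsAlgClosure ℚ (AlgebraicClosure ℚ) := by
  have h : (DivisionRing.toRatAlgebra : Algebra ℚ (AlgebraicClosure ℚ)) =
      AlgebraicClosure.instAlgebra ℚ := Subsingleton.elim _ _
  rw [h]
  infer_instance

theorem isGalois_rat : IsGalois ℚ (AlgebraicClosure ℚ) := by
  have := isAlgClosure_rat
  exact IsAlgClosure.isGalois ℚ (AlgebraicClosure ℚ)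

/-- An element fixed by the absolute Galois group is rational. -/
theorem exists_rat_of_fixed {a : AlgebraicClosure ℚ}
    (h : ∀ g : AlgebraicClosure ℚ ≃ₐ[ℚ] AlgebraicClosure ℚ, g a = a) :
    ∃ r : ℚ, algebraMap ℚ (AlgebraicClosure ℚ) r = a := by
  have := isGalois_rat
  have h1 := (InfiniteGalois.mem_bot_iff_fixed a).2 h
  exact IntermediateField.mem_bot.1 h1

end Pool.Agent.H48.SymDP
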