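import Mathlib

/-!
# Irrationality of a conic bundle: basic notions

Polynomials in two variables over a field `k` are elements of `k[X][X]`; the inner variable is `x`
(the parameter of the conic bundle), the outer variable is the fibre coordinate.
-/

open Polynomial

namespace Pool.Agent.H48.SymDP

section Basic

variable {k : Type*} [Field k] {L : Type*} [Field L] [Algebra k L]

/-- The value at `(x, w)` of a polynomial in two variables (inner variable `x`, outer `w`). -/
noncomputable def ev (x w : L) : k[X][X] →+* L :=
  eval₂RingHom ((aeval x : k[X] →ₐ[k] L) : k[X] →+* L) w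

@[simp] lemma ev_C (x w : L) (a : k[X]) : ev x w (C a) = aeval x a := by simp [ev]

@[simp] lemma ev_X (x w : L) : ev x w (X : k[X][X]) = w := by simp [ev]

/-- The Taylor shift: `sh x₀ c B = B (x₀ + x, c + w)`. -/
noncomputable def sh (x₀ c : k) (B : k[X][X]) : k[X][X] :=
  (B.map (compRingHom (X + C x₀))).comp (X + C (C c))

/-- The pair `B 0, B 1` of forms of degree `2 m` in the fibre coordinate has a good fibre at
`x = x₀`: it is not divisible by `x - x₀` and it has no point of multiplicity greater than `m` on
the fibre `x = x₀` (the point at infinity of the fibre included). -/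
structure GoodFibre (B : Fin 2 → k[X][X]) (m : ℕ) (x₀ : k) : Prop where
  natDegree_le : ∀ i, (B i).natDegree ≤ 2 * m
  content : ∃ i, (B i).map (evalRingHom x₀) ≠ 0
  point : ∀ c : k, ∃ i a b, a + b ≤ m ∧ ((sh x₀ c (B i)).coeff b).coeff a ≠ 0
  point_inf : ∃ i a b, a + b ≤ m ∧ ((sh x₀ 0 ((B i).reflect (2 * m))).coeff b).coeff a ≠ 0

end Basic

/-- A discrete valuation of the field `L`, trivial on the subfield `F` (the value at `0` is
irrelevant; the trivial valuation is allowed). -/
structure PL (F L : Type*) [Field F] [Field L] [Algebra F L] where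
  ord : L → ℤ
  ord_mul : ∀ {a b : L}, a ≠ 0 → b ≠ 0 → ord (a * b) = ord a + ord b
  ord_add : ∀ {a b : L}, a ≠ 0 → b ≠ 0 → a + b ≠ 0 → min (ord a) (ord b) ≤ ord (a + b)
  ord_base : ∀ c : F, c ≠ 0 → ord (algebraMap F L c) = 0

/-- `a` has order at least `n` at the place `E`. -/
def PL.ge {F L : Type*} [Field F] [Field L] [Algebra F L] (E : PL F L) (n : ℤ) (a : L) : Prop :=
  a = 0 ∨ n ≤ E.ord a

end Pool.Agent.H48.SymDP
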