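import Mathlib

/-!
# Bezout relation for relatively prime polynomials in two variables
-/

open Polynomial

namespace Pool.Agent.H48.SymDP

section

variable {R : Type*} [CommRing R] [IsDomain R] [UniqueFactorizationMonoid R]

lemma isCoprime_map_of_isRelPrime (K : Type*) [Field K] [Algebra R K] [IsFractionRing R K]
    {A B : R[X]} (hA : A ≠ 0) (h : IsRelPrime A B) :
    IsCoprime (A.map (algebraMap R K)) (B.map (algebraMap R K)) := by
  classical
  let _ : StrongNormalizationMonoid R := UniqueFactorizationMonoid.strongNormalizationMonoid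
  let _ : NormalizedGCDMonoid R := UniqueFactorizationMonoid.toNormalizedGCDMonoid R
  have hinj : Function.Injective (algebraMap R K) := IsFractionRing.injective R K
  have hA' : A.map (algebraMap R K) ≠ 0 := (Polynomial.map_ne_zero_iff hinj).2 hA
  apply IsRelPrime.isCoprime
  intro d hdA hdB
  have hd0 : d ≠ 0 := by
    rintro rfl
    exact hA' (zero_dvd_iff.1 hdA)
  obtain ⟨b, hb, hbd⟩ := IsLocalization.integerNormalization_spec (nonZeroDivisors R) d
  set d₀ := IsLocalization.integerNormalization (nonZeroDivisors R) d with hd₀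
  have hbK : algebraMap R K b ≠ 0 := by
    rw [ne_eq, map_eq_zero_iff _ hinj]
    exact nonZeroDivisors.ne_zero hb
  have hbd' : d₀.map (algebraMap R K) = C (algebraMap R K b) * d := by
    rw [hbd, algebra_compatible_smul K b d, smul_eq_C_mul]
  have hd₀0 : d₀ ≠ 0 := by
    intro h0
    rw [h0, Polynomial.map_zero] at hbd'
    exact mul_ne_zero (C_ne_zero.2 hbK) hd0 hbd'.symm
  have hc0 : d₀.content ≠ 0 := by rwa [ne_eq, content_eq_zero_iff]
  have hprim : d₀.map (algebraMap R K) =
      C (algebraMap R K d₀.content) * d₀.primPart.map (algebraMap R K) := by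
    conv_lhs => rw [d₀.eq_C_content_mul_primPart]
    rw [Polynomial.map_mul, map_C]
  have hdvd : ∀ D : R[X], d ∣ D.map (algebraMap R K) → d₀.primPart ∣ D := by
    intro D hD
    apply (isPrimitive_primPart d₀).dvd_of_fraction_map_dvd_fraction_map (K := K)
    have hu : IsUnit (C (algebraMap R K b)) := isUnit_C.2 hbK.isUnit
    have h1 : d₀.primPart.map (algebraMap R K) ∣ C (algebraMap R K b) * D.map (algebraMap R K) := by
      refine dvd_trans ?_ (mul_dvd_mul_left _ hD)
      rw [← hbd', hprim]
      exact dvd_mul_left _ _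
    exact (hu.dvd_mul_left).1 h1
  have hunit : IsUnit d₀.primPart := h (hdvd A hdA) (hdvd B hdB)
  have h2 : IsUnit (d₀.map (algebraMap R K)) := by
    rw [hprim]
    refine (isUnit_C.2 ?_).mul (hunit.map (mapRingHom (algebraMap R K)))
    exact ((map_ne_zero_iff _ hinj).2 hc0).isUnit
  rw [hbd'] at h2
  exact isUnit_of_mul_isUnit_right h2

lemma exists_bezout {A B : R[X]} (hA : A ≠ 0) (h : IsRelPrime A B) :
    ∃ (C₀ C₁ : R[X]) (r : R), r ≠ 0 ∧ C₀ * A + C₁ * B = C r := by
  set K := FractionRing R
  have hinj : Function.Injective (algebraMap R K) := IsFractionRing.injective R K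
  obtain ⟨a, b, hab⟩ := isCoprime_map_of_isRelPrime K hA h
  obtain ⟨r₁, hr₁, h1⟩ := IsLocalization.integerNormalization_spec (nonZeroDivisors R) a
  obtain ⟨r₂, hr₂, h2⟩ := IsLocalization.integerNormalization_spec (nonZeroDivisors R) b
  set a' := IsLocalization.integerNormalization (nonZeroDivisors R) a
  set b' := IsLocalization.integerNormalization (nonZeroDivisors R) b
  rw [algebra_compatible_smul K, smul_eq_C_mul] at h1 h2
  refine ⟨C r₂ * a', C r₁ * b', r₁ * r₂,
    mul_ne_zero (nonZeroDivisors.ne_zero hr₁) (nonZeroDivisors.ne_zero hr₂), ?_⟩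
  apply Polynomial.map_injective (algebraMap R K) hinj
  simp only [Polynomial.map_add, Polynomial.map_mul, map_C, h1, h2, map_mul]
  calc _ = C (algebraMap R K r₁) * C (algebraMap R K r₂) *
      (a * A.map (algebraMap R K) + b * B.map (algebraMap R K)) := by ring
    _ = _ := by rw [hab, mul_one]

end

end Pool.Agent.H48.SymDP
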