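import Pool.Agent.H48.SymDP.Irr.Red

/-!
# The local charts
-/

open Polynomial

namespace Pool.Agent.H48.SymDP

section

variable {k L : Type*} [Field k] [Field L] [Algebra k L]

/-- The value of the form in the chart. -/
lemma ev_chart {x w : L} {m : ℕ} {A B : k[X][X]} {lam : k} {p σ q : k[X]}
    (hA : A.natDegree ≤ 2 * m)
    (hrel : hev (2 * m) A (C (C lam) * (C σ + C p * X) + 1 : k[X][X]) (C σ + C p * X) = C q * B)
    (hp : aeval x p ≠ 0) (hw : w - algebraMap k L lam ≠ 0) :
    ev x w A = (w - algebraMap k L lam) ^ (2 * m) * aeval x q *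
      ev x (((w - algebraMap k L lam)⁻¹ - aeval x σ) / aeval x p) B := by
  set w' := ((w - algebraMap k L lam)⁻¹ - aeval x σ) / aeval x p with hw'
  have hW : aeval x σ + aeval x p * w' = (w - algebraMap k L lam)⁻¹ := by
    rw [hw']; field_simp; ring
  have h1 := congrArg (ev x w') hrel
  rw [hev_eq, show (algebraMap k[X] k[X][X]) = C from rfl, ev_hevr, map_mul] at h1
  simp only [map_add, map_mul, ev_C, ev_X, map_one, aeval_C] at h1
  rw [hW, hevr_aeval_eq x hA _ (inv_ne_zero hw)] at h1
  have h2 : (algebraMap k L lam * (w - algebraMap k L lam)⁻¹ + 1) / (w - algebraMap k L lam)⁻¹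
      = w := by
    field_simp; ring
  rw [h2] at h1
  rw [mul_assoc, ← h1, inv_pow]
  field_simp

lemma der_aeval_zero {x : L} (D : Derivation k L L) (hD : D x = 0) (a : k[X]) :
    D (aeval x a) = 0 := by
  rw [Derivation.map_aeval, hD, smul_zero]

/-- The derivation in the chart. -/
lemma der_chart {x w : L} {lam : k} {p σ : k[X]} (D : Derivation k L L) (hD : D x = 0)
    (hp : aeval x p ≠ 0) (hw : w - algebraMap k L lam ≠ 0) :
    D (((w - algebraMap k L lam)⁻¹ - aeval x σ) / aeval x p) *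
      ((w - algebraMap k L lam) ^ 2 * aeval x p) = - D w := by
  set w' := ((w - algebraMap k L lam)⁻¹ - aeval x σ) / aeval x p with hw'
  have h1 : w' * aeval x p = (w - algebraMap k L lam)⁻¹ - aeval x σ := by
    rw [hw']; field_simp
  have h2 := congrArg D h1
  rw [D.leibniz, der_aeval_zero D hD, smul_zero, zero_add, map_sub, der_aeval_zero D hD, sub_zero,
    D.leibniz_inv, map_sub, D.map_algebraMap, sub_zero, smul_eq_mul, smul_eq_mul] at h2
  have h3 : D w' = - (w - algebraMap k L lam)⁻¹ ^ 2 * D w / aeval x p := by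
    rw [eq_div_iff hp, mul_comm, h2]
  rw [h3]
  field_simp

/-- The relation needed for the inequality, at a point which is not a root of `P`. -/
lemma chart_rel {x w : L} {m : ℕ} {A B : k[X][X]} {lam : k} {p σ q Q Θ Q' Θ' : k[X]}
    (hA : A.natDegree ≤ 2 * m)
    (hrel : hev (2 * m) A (C (C lam) * (C σ + C p * X) + 1 : k[X][X]) (C σ + C p * X) = C q * B)
    (hp : aeval x p ≠ 0) (hw : w - algebraMap k L lam ≠ 0) (hQ : Q = p * Q') (hΘ : Θ = q * Θ')
    (D : Derivation k L L) (hD : D x = 0) :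
    ev x w A * (D (((w - algebraMap k L lam)⁻¹ - aeval x σ) / aeval x p)) ^ m *
        aeval x (Q ^ m * Θ') =
      ev x (((w - algebraMap k L lam)⁻¹ - aeval x σ) / aeval x p) B * (D w) ^ m *
        aeval x (Θ * (C ((-1) ^ m) * Q' ^ m)) := by
  have h1 := der_chart (σ := σ) D hD hp hw
  have h3 : D (((w - algebraMap k L lam)⁻¹ - aeval x σ) / aeval x p) =
      - D w / ((w - algebraMap k L lam) ^ 2 * aeval x p) := by
    rw [eq_div_iff (mul_ne_zero (pow_ne_zero _ hw) hp), h1]
  rw [ev_chart hA hrel hp hw, h3, hQ, hΘ]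
  simp only [map_mul, map_pow, mul_pow, div_pow, aeval_C, map_neg, map_one]
  rw [neg_pow (D w) m, pow_mul]
  have h4 : (w - algebraMap k L lam) ^ 2 ≠ 0 := pow_ne_zero _ hw
  field_simp

end

end Pool.Agent.H48.SymDP
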