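import Pool.Agent.H48.SymDP.Irr.Orders
import Pool.Agent.H48.SymDP.Irr.AlgCl

/-!
# The cubic polynomial `κ₁ (x ^ 3 + 2)`
-/

open Polynomial

namespace Pool.Agent.H48.SymDP

lemma no_cbrt (b : ℚ) : b ^ 3 ≠ -2 := by
  intro h
  have hb : b ≠ 0 := by rintro rfl; norm_num at h
  have h1 := congrArg (padicValRat 2) h
  rw [padicValRat.pow, padicValRat.neg] at h1
  have h2 : padicValRat 2 (2 : ℚ) = 1 := by
    have := padicValRat.self (p := 2) (by norm_num)
    exact_mod_cast this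
  rw [h2] at h1
  push_cast at h1
  omega

lemma irreducible_cubic : Irreducible (X ^ 3 + 2 : ℚ[X]) := by
  have h := X_pow_sub_C_irreducible_of_prime (K := ℚ) Nat.prime_three (a := -2) no_cbrt
  have e : (X ^ 3 - C (-2 : ℚ) : ℚ[X]) = X ^ 3 + 2 := by
    rw [C_neg, sub_neg_eq_add]; rfl
  rwa [e] at h

/-- The polynomial `κ₁ (x ^ 3 + 2)`. -/
noncomputable def PP (κ₁ : ℚ) : ℚ[X] := C κ₁ * (X ^ 3 + 2)

lemma natDegree_PP {κ₁ : ℚ} (h : κ₁ ≠ 0) : (PP κ₁).natDegree = 3 := by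
  unfold PP; compute_degree!

lemma PP_ne {κ₁ : ℚ} (h : κ₁ ≠ 0) : PP κ₁ ≠ 0 := by
  intro h0
  have := natDegree_PP h
  rw [h0] at this; simp at this

lemma separable_PP {κ₁ : ℚ} (h : κ₁ ≠ 0) : (PP κ₁).Separable := by
  have h1 : Irreducible (PP κ₁) := by
    unfold PP
    rw [irreducible_isUnit_mul (isUnit_C.2 h.isUnit)]
    exact irreducible_cubic
  exact h1.separable

/-- `PP` over an extension field. -/
noncomputable def PK (k : Type*) [Field k] [Algebra ℚ k] (κ₁ : ℚ) : k[X] :=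
  (PP κ₁).map (algebraMap ℚ k)

section

variable {k : Type*} [Field k] [Algebra ℚ k] {κ₁ : ℚ}

lemma PK_eq : PK k κ₁ = C (algebraMap ℚ k κ₁) * (X ^ 3 + 2) := by
  simp [PK, PP, Polynomial.map_ofNat]

lemma natDegree_PK (h : κ₁ ≠ 0) : (PK k κ₁).natDegree = 3 := by
  rw [PK, natDegree_map, natDegree_PP h]

lemma PK_ne (h : κ₁ ≠ 0) : PK k κ₁ ≠ 0 := by
  intro h0
  have := natDegree_PK (k := k) h
  rw [h0] at this; simp at this

lemma eval_PK (h : κ₁ ≠ 0) (x₀ : k) : (PK k κ₁).eval x₀ = 0 ↔ x₀ ^ 3 = -2 := by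
  rw [PK_eq]
  simp only [eval_mul, eval_C, eval_add, eval_pow, eval_X, eval_ofNat, mul_eq_zero,
    map_eq_zero, h, false_or]
  exact ⟨fun h => by linear_combination h, fun h => by linear_combination h⟩

lemma em_PK (h : κ₁ ≠ 0) {x₀ : k} (hx : (PK k κ₁).eval x₀ = 0) : em x₀ (PK k κ₁) = 1 := by
  have hs : (PK k κ₁).Separable := (separable_PP h).map
  rw [em]
  have : emultiplicity (X - C x₀) (PK k κ₁) = (1 : ℕ) := by
    apply emultiplicity_eq_of_dvd_of_not_dvd
    · rw [pow_one]; exact dvd_iff_isRoot.2 hx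
    · intro h2
      have h3 := hs.squarefree (X - C x₀) (by rw [← sq]; exact h2)
      exact (prime_X_sub_C x₀).not_isUnit h3
  simpa using this

lemma pow_dvd_of_roots [IsAlgClosed k] (h : κ₁ ≠ 0) {n : ℕ} {a : k[X]}
    (ha : ∀ x₀, (PK k κ₁).eval x₀ = 0 → (X - C x₀) ^ n ∣ a) : (PK k κ₁) ^ n ∣ a := by
  classical
  have hs : (PK k κ₁).Separable := (separable_PP h).map
  have hn := nodup_roots hs
  have h1 := (IsAlgClosed.splits (PK k κ₁)).eq_prod_roots
  have h2 : (Multiset.map (fun x => X - C x) (PK k κ₁).roots).prod =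
      ∏ x ∈ (PK k κ₁).roots.toFinset, (X - C x) := by
    rw [Finset.prod_eq_multiset_prod, Multiset.toFinset_val, Multiset.dedup_eq_self.2 hn]
  rw [h2] at h1
  rw [h1, mul_pow, ← Finset.prod_pow, ← C_pow]
  have h3 : IsUnit (C ((PK k κ₁).leadingCoeff ^ n)) :=
    isUnit_C.2 ((pow_ne_zero n (leadingCoeff_ne_zero.2 (PK_ne h))).isUnit)
  rw [h3.mul_left_dvd]
  apply Finset.prod_dvd_of_coprime
  · intro x _ y _ hxy
    apply IsCoprime.pow
    exact isCoprime_X_sub_C_of_isUnit_sub (sub_ne_zero.2 hxy).isUnit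
  · intro x hx
    rw [Multiset.mem_toFinset, mem_roots (PK_ne h)] at hx
    exact ha x hx

end

section Theta

attribute [-instance] DivisionRing.toRatAlgebra

lemma theta_not_mem {k : Type*} [Field k] [Algebra ℚ k] {θ x₀ : k} (hθ : θ ^ 2 = -3)
    (hx : x₀ ^ 3 = -2) : θ ∉ IntermediateField.adjoin ℚ {x₀} := by
  intro hmem
  have hint : IsIntegral ℚ x₀ := ⟨X ^ 3 + 2, by monicity!, by simp [hx]⟩
  have hmin : minpoly ℚ x₀ = X ^ 3 + 2 := by
    refine (minpoly.eq_of_irreducible_of_monic irreducible_cubic ?_ (by monicity!)).symm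
    simp [hx, map_ofNat]
  have h3 : Module.finrank ℚ (IntermediateField.adjoin ℚ {x₀}) = 3 := by
    rw [IntermediateField.adjoin.finrank hint, hmin]; compute_degree!
  have hintθ : IsIntegral ℚ θ := ⟨X ^ 2 + 3, by monicity!, by simp [hθ]⟩
  have hirr : Irreducible (X ^ 2 + 3 : ℚ[X]) := by
    have h := X_pow_sub_C_irreducible_of_prime (K := ℚ) Nat.prime_two (a := -3)
      (fun b hb => by nlinarith [sq_nonneg b])
    have e : (X ^ 2 - C (-3 : ℚ) : ℚ[X]) = X ^ 2 + 3 := by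
      rw [C_neg, sub_neg_eq_add]; rfl
    rwa [e] at h
  have hminθ : minpoly ℚ θ = X ^ 2 + 3 := by
    refine (minpoly.eq_of_irreducible_of_monic hirr ?_ (by monicity!)).symm
    simp [hθ, map_ofNat]
  have hdvd : (minpoly ℚ θ).natDegree ∣
      Module.finrank ℚ (IntermediateField.adjoin ℚ {x₀}) := by
    have : FiniteDimensional ℚ (IntermediateField.adjoin ℚ {x₀}) :=
      IntermediateField.adjoin.finiteDimensional hint
    have h5 : minpoly ℚ (⟨θ, hmem⟩ : IntermediateField.adjoin ℚ {x₀}) = minpoly ℚ θ :=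
      (minpoly.algebraMap_eq (algebraMap (IntermediateField.adjoin ℚ {x₀}) k).injective
        (⟨θ, hmem⟩ : IntermediateField.adjoin ℚ {x₀})).symm
    rw [← h5]
    exact minpoly.degree_dvd (IsIntegral.of_finite ℚ (⟨θ, hmem⟩ : IntermediateField.adjoin ℚ {x₀}))
  rw [hminθ, h3, show (X ^ 2 + 3 : ℚ[X]).natDegree = 2 by compute_degree!] at hdvd
  omega

end Theta

/-- For each root of the cubic there is an automorphism fixing it and changing the sign of
`θ = √-3`. -/
lemma exists_flip {θ x₀ : AlgebraicClosure ℚ} (hθ : θ ^ 2 = -3) (hx : x₀ ^ 3 = -2) :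
    ∃ g : AlgebraicClosure ℚ ≃ₐ[ℚ] AlgebraicClosure ℚ, g θ = - θ ∧ g x₀ = x₀ := by
  have hnot := theta_not_mem hθ hx
  set E := IntermediateField.adjoin ℚ {x₀} with hE
  have hirr : Irreducible (X ^ 2 - C (-3 : E) : E[X]) := by
    apply X_pow_sub_C_irreducible_of_prime Nat.prime_two
    intro b hb
    have hb' : (b : AlgebraicClosure ℚ) ^ 2 = -3 := by
      have := congrArg (algebraMap E (AlgebraicClosure ℚ)) hb
      rw [map_pow, map_neg, map_ofNat] at this
      exact this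
    have h0 : ((b : AlgebraicClosure ℚ) - θ) * (b + θ) = 0 := by
      linear_combination hb' - hθ
    rcases mul_eq_zero.1 h0 with h | h
    · exact hnot (by rw [← sub_eq_zero.1 h]; exact b.2)
    · exact hnot (by
        rw [show θ = -(b : AlgebraicClosure ℚ) by linear_combination h]
        exact neg_mem b.2)
  have h3 : ∀ y : AlgebraicClosure ℚ, y ^ 2 = -3 → aeval y (X ^ 2 - C (-3 : E) : E[X]) = 0 := by
    intro y hy
    rw [map_sub, map_pow, aeval_X, hy, aeval_C, map_neg, map_ofNat, sub_self]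
  have hmin : minpoly E θ = X ^ 2 - C (-3 : E) := by
    refine (minpoly.eq_of_irreducible_of_monic hirr ?_ (by monicity!)).symm
    exact h3 θ hθ
  have halg : IsAlgebraic E θ := ⟨X ^ 2 - C (-3 : E), hirr.ne_zero, h3 θ hθ⟩
  have := isGalois_rat
  have : Normal E (AlgebraicClosure ℚ) := Normal.tower_top_of_normal ℚ E (AlgebraicClosure ℚ)
  obtain ⟨σ, hσ⟩ := minpoly.exists_algEquiv_of_root (K := E) (x := -θ) (y := θ)
    halg (by rw [hmin]; exact h3 _ (by rw [neg_sq, hθ]))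
  rw [map_neg, neg_eq_iff_eq_neg] at hσ
  refine ⟨σ.restrictScalars ℚ, hσ, ?_⟩
  have := σ.commutes (⟨x₀, IntermediateField.mem_adjoin_simple_self ℚ x₀⟩ : E)
  exact this

end Pool.Agent.H48.SymDP
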