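import Pool.Agent.H48.SymDP.Irr.Sstruct

/-!
# The field `ℚ̄(u, v)` with its Galois action and conic structures on it
-/

open Polynomial

namespace Pool.Agent.H48.SymDP

section General

variable {F F' : Type*} [Field F] [Field F']

/-- The map on rational functions given by a homomorphism of the fields of coefficients. -/
noncomputable def rfMap (φ : F →+* F') : RatFunc F →+* RatFunc F' :=
  RatFunc.mapRingHom (mapRingHom φ) (nonZeroDivisors_le_comap_nonZeroDivisors_of_injective _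
    (Polynomial.map_injective φ φ.injective))

lemma rfMap_algebraMap (φ : F →+* F') (p : F[X]) :
    rfMap φ (algebraMap F[X] (RatFunc F) p) = algebraMap F'[X] (RatFunc F') (p.map φ) := by
  have h := RatFunc.map_apply_div (mapRingHom φ)
    (nonZeroDivisors_le_comap_nonZeroDivisors_of_injective _
      (Polynomial.map_injective φ φ.injective)) p 1
  rw [map_one, map_one, map_one, div_one, div_one] at h
  rw [rfMap, RatFunc.coe_mapRingHom_eq_coe_map]
  exact h

lemma rfMap_C (φ : F →+* F') (a : F) : rfMap φ (RatFunc.C a) = RatFunc.C (φ a) := by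
  rw [← RatFunc.algebraMap_C, rfMap_algebraMap, map_C, RatFunc.algebraMap_C]

lemma rfMap_X (φ : F →+* F') : rfMap φ RatFunc.X = RatFunc.X := by
  rw [← RatFunc.algebraMap_X, rfMap_algebraMap, map_X, RatFunc.algebraMap_X]

end General

/-- The Galois action on `ℚ̄(u)`. -/
noncomputable def gF (g : AlgebraicClosure ℚ ≃ₐ[ℚ] AlgebraicClosure ℚ) :
    RatFunc (AlgebraicClosure ℚ) →+* RatFunc (AlgebraicClosure ℚ) :=
  rfMap (g : AlgebraicClosure ℚ →+* AlgebraicClosure ℚ)

/-- The Galois action on `ℚ̄(u)(v)`. -/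
noncomputable def gL (g : AlgebraicClosure ℚ ≃ₐ[ℚ] AlgebraicClosure ℚ) :
    RatFunc (RatFunc (AlgebraicClosure ℚ)) →+* RatFunc (RatFunc (AlgebraicClosure ℚ)) :=
  rfMap (gF g)

lemma gL_algebraMap (g : AlgebraicClosure ℚ ≃ₐ[ℚ] AlgebraicClosure ℚ) (c : AlgebraicClosure ℚ) :
    gL g (algebraMap (AlgebraicClosure ℚ) _ c) = algebraMap (AlgebraicClosure ℚ) _ (g c) := by
  rw [IsScalarTower.algebraMap_apply (AlgebraicClosure ℚ) (RatFunc (AlgebraicClosure ℚ))
    (RatFunc (RatFunc (AlgebraicClosure ℚ))) c,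
    IsScalarTower.algebraMap_apply (AlgebraicClosure ℚ) (RatFunc (AlgebraicClosure ℚ))
    (RatFunc (RatFunc (AlgebraicClosure ℚ))) (g c)]
  rw [RatFunc.algebraMap_eq_C, RatFunc.algebraMap_eq_C, gL, rfMap_C, gF, rfMap_C]
  rfl

lemma gL_u (g : AlgebraicClosure ℚ ≃ₐ[ℚ] AlgebraicClosure ℚ) :
    gL g (RatFunc.C (RatFunc.X : RatFunc (AlgebraicClosure ℚ))) =
      RatFunc.C (RatFunc.X : RatFunc (AlgebraicClosure ℚ)) := by
  rw [gL, rfMap_C, gF, rfMap_X]

lemma gL_v (g : AlgebraicClosure ℚ ≃ₐ[ℚ] AlgebraicClosure ℚ) :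
    gL g (RatFunc.X : RatFunc (RatFunc (AlgebraicClosure ℚ))) = RatFunc.X := by
  rw [gL, rfMap_X]

/-- A conic structure `y ^ 2 + 3 z ^ 2 = κ₁ (x ^ 3 + 2)` on the field `ℚ̄(u, v)`, defined over
`ℚ(u, v)` (the elements `x, y, z` are fixed by the Galois group). -/
structure Conic (θ : AlgebraicClosure ℚ) (κ₁ : ℚ)
    (x y z : RatFunc (RatFunc (AlgebraicClosure ℚ))) : Prop where
  theta : θ ^ 2 = -3
  kappa : κ₁ ≠ 0
  x_fix : ∀ g, gL g x = x
  y_fix : ∀ g, gL g y = y
  z_fix : ∀ g, gL g z = z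
  rel : y ^ 2 + 3 * z ^ 2 =
    algebraMap (AlgebraicClosure ℚ) _ (algebraMap ℚ (AlgebraicClosure ℚ) κ₁) * (x ^ 3 + 2)
  gen : IntermediateField.adjoin (AlgebraicClosure ℚ)
    {x, y + algebraMap (AlgebraicClosure ℚ) _ θ * z} = ⊤

end Pool.Agent.H48.SymDP
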