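import Pool.Agent.H48.SymDP.Irr.Model

/-!
# Homogeneous evaluation
-/

open Polynomial

namespace Pool.Agent.H48.SymDP

section

variable {R S T : Type*} [CommRing R] [CommRing S] [CommRing T]

/-- Homogeneous evaluation along a ring homomorphism. -/
noncomputable def hevr (φ : R →+* S) (N : ℕ) (A : R[X]) (p q : S) : S :=
  ∑ j ∈ Finset.range (N + 1), φ (A.coeff j) * p ^ j * q ^ (N - j)

lemma hev_eq [Algebra R S] (N : ℕ) (A : R[X]) (p q : S) :
    hev N A p q = hevr (algebraMap R S) N A p q := rfl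

lemma map_hevr (ψ : S →+* T) (φ : R →+* S) (N : ℕ) (A : R[X]) (p q : S) :
    ψ (hevr φ N A p q) = hevr (ψ.comp φ) N A (ψ p) (ψ q) := by
  simp [hevr]

lemma hevr_map {R' : Type*} [CommRing R'] (f : R' →+* R) (φ : R →+* S) (N : ℕ) (A : R'[X])
    (p q : S) : hevr φ N (A.map f) p q = hevr (φ.comp f) N A p q := by
  simp [hevr]

lemma hevr_eq_homogenize (φ : R →+* S) (N : ℕ) (A : R[X]) (p q : S) :
    hevr φ N A p q = MvPolynomial.eval₂ φ ![p, q] (A.homogenize N) := by
  rw [hevr, homogenize, MvPolynomial.eval₂_sum,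
    Finset.Nat.sum_antidiagonal_eq_sum_range_succ_mk]
  refine Finset.sum_congr rfl fun j _ => ?_
  rw [MvPolynomial.eval₂_monomial, Finsupp.update_eq_add_single (by simp),
    Finsupp.prod_add_index' (by simp) (by intros; rw [pow_add]),
    Finsupp.prod_single_index (by simp), Finsupp.prod_single_index (by simp)]
  simp [mul_assoc]

lemma hevr_mul (φ : R →+* S) {M N : ℕ} {A B : R[X]} (hA : A.natDegree ≤ M)
    (hB : B.natDegree ≤ N) (p q : S) :
    hevr φ (M + N) (A * B) p q = hevr φ M A p q * hevr φ N B p q := by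
  rw [hevr_eq_homogenize, hevr_eq_homogenize, hevr_eq_homogenize, homogenize_mul _ _ hA hB,
    MvPolynomial.eval₂_mul]

lemma hevr_add (φ : R →+* S) (N : ℕ) (A B : R[X]) (p q : S) :
    hevr φ N (A + B) p q = hevr φ N A p q + hevr φ N B p q := by
  simp [hevr, add_mul, Finset.sum_add_distrib]

lemma hevr_C_mul (φ : R →+* S) (N : ℕ) (c : R) (A : R[X]) (p q : S) :
    hevr φ N (C c * A) p q = φ c * hevr φ N A p q := by
  simp [hevr, Finset.mul_sum, mul_assoc]

lemma hevr_C (φ : R →+* S) (N : ℕ) (c : R) (p q : S) :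
    hevr φ N (C c) p q = φ c * q ^ N := by
  rw [hevr, Finset.sum_eq_single 0]
  · simp
  · intro j _ hj; simp [coeff_C, hj]
  · simp

lemma hevr_one_right (φ : R →+* S) {N : ℕ} {A : R[X]} (hA : A.natDegree ≤ N) (p : S) :
    hevr φ N A p 1 = A.eval₂ φ p := by
  rw [eval₂_eq_sum_range' φ (Nat.lt_succ_iff.2 hA)]
  simp [hevr]

/-- Composition of homogeneous evaluations. -/
lemma homogenize_hevr (N : ℕ) (A : R[X]) (a b c d : R) :
    (hevr C N A (C a * X + C b) (C c * X + C d)).homogenize N =
      MvPolynomial.eval₂ (MvPolynomial.C : R →+* MvPolynomial (Fin 2) R)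
        ![MvPolynomial.C a * MvPolynomial.X 0 + MvPolynomial.C b * MvPolynomial.X 1,
          MvPolynomial.C c * MvPolynomial.X 0 + MvPolynomial.C d * MvPolynomial.X 1]
        (A.homogenize N) := by
  apply homogenize_eq_of_isHomogeneous
  · rw [← hevr_eq_homogenize, hevr]
    refine MvPolynomial.IsHomogeneous.sum _ _ _ fun j hj => ?_
    have hj' : j ≤ N := Nat.lt_succ_iff.1 (Finset.mem_range.1 hj)
    have h1 : (MvPolynomial.C a * MvPolynomial.X 0 + MvPolynomial.C b * MvPolynomial.X 1 :
        MvPolynomial (Fin 2) R).IsHomogeneous 1 := by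
      apply MvPolynomial.IsHomogeneous.add
      · simpa using (MvPolynomial.isHomogeneous_C (Fin 2) a).mul
          (MvPolynomial.isHomogeneous_X R (0 : Fin 2))
      · simpa using (MvPolynomial.isHomogeneous_C (Fin 2) b).mul
          (MvPolynomial.isHomogeneous_X R (1 : Fin 2))
    have h2 : (MvPolynomial.C c * MvPolynomial.X 0 + MvPolynomial.C d * MvPolynomial.X 1 :
        MvPolynomial (Fin 2) R).IsHomogeneous 1 := by
      apply MvPolynomial.IsHomogeneous.add
      · simpa using (MvPolynomial.isHomogeneous_C (Fin 2) c).mul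
          (MvPolynomial.isHomogeneous_X R (0 : Fin 2))
      · simpa using (MvPolynomial.isHomogeneous_C (Fin 2) d).mul
          (MvPolynomial.isHomogeneous_X R (1 : Fin 2))
    have := ((MvPolynomial.isHomogeneous_C (Fin 2) (A.coeff j)).mul (h1.pow j)).mul
      (h2.pow (N - j))
    convert this using 1
    omega
  · rw [← hevr_eq_homogenize]
    have := map_hevr ((MvPolynomial.aeval (R := R) (![X, 1] : Fin 2 → R[X])) :
      MvPolynomial (Fin 2) R →ₐ[R] R[X]).toRingHom MvPolynomial.C N A
      (MvPolynomial.C a * MvPolynomial.X 0 + MvPolynomial.C b * MvPolynomial.X 1)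
      (MvPolynomial.C c * MvPolynomial.X 0 + MvPolynomial.C d * MvPolynomial.X 1)
    refine (this.trans ?_)
    congr 1
    · ext r; simp
    · simp
    · simp

lemma hevr_hevr (φ : R →+* S) (N : ℕ) (A : R[X]) (a b c d : R) (p q : S) :
    hevr φ N (hevr C N A (C a * X + C b) (C c * X + C d)) p q =
      hevr φ N A (φ a * p + φ b * q) (φ c * p + φ d * q) := by
  rw [hevr_eq_homogenize φ, homogenize_hevr, ← hevr_eq_homogenize]
  have := map_hevr (MvPolynomial.eval₂Hom φ ![p, q]) MvPolynomial.C N A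
    (MvPolynomial.C a * MvPolynomial.X 0 + MvPolynomial.C b * MvPolynomial.X 1)
    (MvPolynomial.C c * MvPolynomial.X 0 + MvPolynomial.C d * MvPolynomial.X 1)
  refine (this.trans ?_)
  congr 1
  · ext r; simp
  · simp
  · simp

lemma natDegree_hevr_le (N : ℕ) (A : R[X]) (a b c d : R) :
    (hevr C N A (C a * X + C b) (C c * X + C d)).natDegree ≤ N := by
  rw [hevr]
  refine natDegree_sum_le_of_forall_le _ _ fun j hj => ?_
  have hj' : j ≤ N := Nat.lt_succ_iff.1 (Finset.mem_range.1 hj)
  have h1 : ∀ a b : R, (C a * X + C b).natDegree ≤ 1 := fun a b =>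
    natDegree_linear_le
  calc _ ≤ (C (A.coeff j)).natDegree + ((C a * X + C b) ^ j).natDegree +
        ((C c * X + C d) ^ (N - j)).natDegree :=
        (natDegree_mul_le.trans (Nat.add_le_add_right natDegree_mul_le _))
    _ ≤ 0 + j + (N - j) := by
        refine add_le_add (add_le_add (by simp) ?_) ?_
        · exact (natDegree_pow_le.trans (Nat.mul_le_mul_left _ (h1 a b))).trans (by simp)
        · exact (natDegree_pow_le.trans (Nat.mul_le_mul_left _ (h1 c d))).trans (by simp)
    _ = N := by omega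

/-- The substitution `A ↦ A (σ + Q Y)` as a homogeneous evaluation. -/
lemma comp_eq_hevr {N : ℕ} {A : R[X]} (hA : A.natDegree ≤ N) (Q σ : R) :
    A.comp (C Q * X + C σ) = hevr C N A (C Q * X + C σ) (C 0 * X + C 1) := by
  rw [show (C (0 : R) * X + C 1 : R[X]) = 1 by simp, hevr_one_right C hA, comp]

lemma hevr_comp (φ : R →+* S) {N : ℕ} {A : R[X]} (hA : A.natDegree ≤ N) (Q σ : R) (p q : S) :
    hevr φ N (A.comp (C Q * X + C σ)) p q = hevr φ N A (φ Q * p + φ σ * q) q := by
  rw [comp_eq_hevr hA, hevr_hevr]; simp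

end

section

variable {R L : Type*} [CommRing R] [Field L]

lemma hevr_eq_div (φ : R →+* L) {N : ℕ} {A : R[X]} (hA : A.natDegree ≤ N) (p : L) {q : L}
    (hq : q ≠ 0) : hevr φ N A p q = q ^ N * A.eval₂ φ (p / q) := by
  rw [eval₂_eq_sum_range' φ (Nat.lt_succ_iff.2 hA), hevr, Finset.mul_sum]
  refine Finset.sum_congr rfl fun j hj => ?_
  have hj' : j ≤ N := Nat.lt_succ_iff.1 (Finset.mem_range.1 hj)
  rw [div_pow]
  have : q ^ N = q ^ (N - j) * q ^ j := by rw [← pow_add]; congr 1; omega
  rw [this]; field_simp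

end

end Pool.Agent.H48.SymDP
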