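import Pool.Agent.H48.SymDP.Irr.Orders

/-!
# The choice of `lam`, and representations by pairs of polynomials
-/

open Polynomial

namespace Pool.Agent.H48.SymDP

section

variable {k : Type*} [Field k]

lemma exists_content {A : Fin 2 → k[X][X]} (h : IsRelPrime (A 0) (A 1)) (x₀ : k) :
    ∃ i, (A i).map (evalRingHom x₀) ≠ 0 := by
  by_contra hcon
  push Not at hcon
  have hd : ∀ i, C (X - C x₀) ∣ A i := by
    intro i
    rw [C_dvd_iff_dvd_coeff]
    intro j
    have := congrArg (fun q => coeff q j) (hcon i)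
    simp only [coeff_map, coe_evalRingHom, coeff_zero] at this
    exact dvd_iff_isRoot.2 this
  have hu := h (hd 0) (hd 1)
  rw [Polynomial.isUnit_C] at hu
  exact (prime_X_sub_C x₀).not_isUnit hu

lemma exists_lam [CharZero k] [Algebra ℚ k] {A : Fin 2 → k[X][X]} (hrel : IsRelPrime (A 0) (A 1))
    {C₀ C₁ : k[X][X]} {R : k[X]} (hR : R ≠ 0) (h : C₀ * A 0 + C₁ * A 1 = C R) :
    ∃ lam : ℚ, lam ≠ 0 ∧ ∀ x₀ : k, ∃ i, ((A i).eval (C (algebraMap ℚ k lam))).eval x₀ ≠ 0 := by
  classical
  choose i hi using exists_content hrel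
  set S : Finset k := R.roots.toFinset.biUnion
    (fun x₀ => ((A (i x₀)).map (evalRingHom x₀)).roots.toFinset) with hS
  have hinf : (Set.range (algebraMap ℚ k) \ ((insert 0 S : Finset k) : Set k)).Nonempty := by
    apply Set.Infinite.nonempty
    apply Set.Infinite.diff
    · exact Set.infinite_range_of_injective (algebraMap ℚ k).injective
    · exact Finset.finite_toSet _
  obtain ⟨_, ⟨lam, rfl⟩, hlam⟩ := hinf
  simp only [Finset.coe_insert, Set.mem_insert_iff, Finset.mem_coe, not_or] at hlam
  refine ⟨lam, ?_, fun x₀ => ?_⟩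
  · rintro rfl; exact hlam.1 (map_zero _)
  · have hev : ∀ B : k[X][X], (B.eval (C (algebraMap ℚ k lam))).eval x₀ =
        (B.map (evalRingHom x₀)).eval (algebraMap ℚ k lam) := by
      intro B
      rw [map_evalRingHom_eval]
    by_cases hx : R.eval x₀ = 0
    · refine ⟨i x₀, ?_⟩
      rw [hev]
      intro h0
      apply hlam.2
      rw [hS, Finset.mem_biUnion]
      refine ⟨x₀, ?_, ?_⟩
      · rw [Multiset.mem_toFinset, mem_roots hR]; exact hx
      · rw [Multiset.mem_toFinset, mem_roots (hi x₀)]; exact h0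
    · by_contra hcon
      push Not at hcon
      apply hx
      have := congrArg (fun B : k[X][X] => (B.eval (C (algebraMap ℚ k lam))).eval x₀) h
      simp only [eval_add, eval_mul, hcon 0, hcon 1, mul_zero, add_zero, eval_C] at this
      exact this.symm

end

section

variable {k L : Type*} [Field k] [Field L] [Algebra k L]

/-- The subfield of values of rational functions at `(x, w)`. -/
noncomputable def repField (x w : L) : IntermediateField k L where
  carrier := {f | ∃ a b : k[X][X], ev x w b ≠ 0 ∧ f * ev x w b = ev x w a}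
  mul_mem' := by
    rintro f g ⟨a, b, hb, h⟩ ⟨a', b', hb', h'⟩
    refine ⟨a * a', b * b', by rw [map_mul]; exact mul_ne_zero hb hb', ?_⟩
    rw [map_mul, map_mul, ← h, ← h']; ring
  add_mem' := by
    rintro f g ⟨a, b, hb, h⟩ ⟨a', b', hb', h'⟩
    refine ⟨a * b' + a' * b, b * b', by rw [map_mul]; exact mul_ne_zero hb hb', ?_⟩
    rw [map_mul, map_add, map_mul, map_mul, ← h, ← h']; ring
  algebraMap_mem' := by
    intro c
    refine ⟨C (C c), 1, by simp, by simp⟩
  inv_mem' := by
    rintro f ⟨a, b, hb, h⟩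
    by_cases hf : f = 0
    · refine ⟨0, 1, by simp, by simp [hf]⟩
    · refine ⟨b, a, ?_, ?_⟩
      · rw [← h]; exact mul_ne_zero hf hb
      · rw [← h]; field_simp

lemma exists_rep {x w : L} (hgen : IntermediateField.adjoin k {x, w} = ⊤) (f : L) :
    ∃ a b : k[X][X], ev x w b ≠ 0 ∧ f * ev x w b = ev x w a := by
  have h1 : IntermediateField.adjoin k {x, w} ≤ repField (k := k) x w := by
    rw [IntermediateField.adjoin_le_iff]
    intro g hg
    simp only [Set.mem_insert_iff, Set.mem_singleton_iff] at hg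
    rcases hg with rfl | rfl
    · exact ⟨C X, 1, by simp, by simp⟩
    · exact ⟨X, 1, by simp, by simp⟩
  have h2 : f ∈ (⊤ : IntermediateField k L) := trivial
  rw [← hgen] at h2
  exact h1 h2

end

end Pool.Agent.H48.SymDP
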