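import Pool.Agent.H48.SymDP.Irr.Basic

/-!
# The lattice of anticanonical sections of an elementary modification of the conic bundle

Over a ring `R` (in the application `R = k[X]`) with `P ∈ R` consider the triples
`s = (β, α, γ) = (s 0, s 1, s 2)`, standing for the Laurent polynomial `β + α w + γ P / w`.
-/

open Polynomial

namespace Pool.Agent.H48.SymDP

section Lattice

variable {R : Type*} [CommRing R]

/-- The polar form of the discriminant `β ^ 2 - 4 P α γ` of `s`. -/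
def dsc (P : R) (s t : Fin 3 → R) : R := s 0 * t 0 - 2 * P * (s 1 * t 2 + s 2 * t 1)

/-- The cross product. -/
def crs (s t : Fin 3 → R) : Fin 3 → R :=
  ![s 1 * t 2 - s 2 * t 1, s 2 * t 0 - s 0 * t 2, s 0 * t 1 - s 1 * t 0]

/-- The (Poisson) bracket. -/
def brk (P : R) (s t : Fin 3 → R) : Fin 3 → R :=
  ![2 * P * (s 1 * t 2 - s 2 * t 1), - (s 0 * t 1 - s 1 * t 0), - (s 2 * t 0 - s 0 * t 2)]

/-- The determinant of three triples. -/
def dt (s t r : Fin 3 → R) : R :=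
  (s 1 * t 2 - s 2 * t 1) * r 0 + (s 2 * t 0 - s 0 * t 2) * r 1 + (s 0 * t 1 - s 1 * t 0) * r 2

/-- In the coordinate `W = 1 / (w - lam)` we have
`β + α w + γ P / w = F0 P lam s W * (w - lam) ^ 2 / w`. -/
def F0 (P lam : R) (s : Fin 3 → R) (W : R) : R :=
  s 1 * (lam * W + 1) ^ 2 + s 0 * W * (lam * W + 1) + s 2 * P * W ^ 2

/-- The derivative of `F0` with respect to `W`. -/
def F1 (P lam : R) (s : Fin 3 → R) (W : R) : R :=
  2 * lam * s 1 * (lam * W + 1) + s 0 * (2 * lam * W + 1) + 2 * s 2 * P * W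

/-- The leading coefficient of `F0` with respect to `W`. -/
def F2 (P lam : R) (s : Fin 3 → R) : R := lam ^ 2 * s 1 + lam * s 0 + s 2 * P

lemma F0_add (P lam : R) (s : Fin 3 → R) (W T : R) :
    F0 P lam s (W + T) = F0 P lam s W + F1 P lam s W * T + F2 P lam s * T ^ 2 := by
  simp only [F0, F1, F2]; ring

/-- The lattice of sections: `s / Q` is a section of the anticanonical sheaf of the modification
given by the denominators `Q` and the centres `σ`. -/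
def InT (P lam Q σ : R) (s : Fin 3 → R) : Prop := Q ^ 2 ∣ F0 P lam s σ ∧ Q ∣ F1 P lam s σ

variable {P lam Q σ : R} {s t r : Fin 3 → R}

lemma dsc_eq (P lam σ : R) (s t : Fin 3 → R) :
    dsc P s t = F1 P lam s σ * F1 P lam t σ -
      2 * (F0 P lam s σ * F2 P lam t + F2 P lam s * F0 P lam t σ) := by
  simp only [dsc, F0, F1, F2]; ring

lemma InT.dsc_dvd (hs : InT P lam Q σ s) (ht : InT P lam Q σ t) : Q ^ 2 ∣ dsc P s t := by
  obtain ⟨⟨a, ha⟩, ⟨b, hb⟩⟩ := hs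
  obtain ⟨⟨a', ha'⟩, ⟨b', hb'⟩⟩ := ht
  rw [dsc_eq P lam σ, ha, hb, ha', hb']
  exact ⟨b * b' - 2 * (a * F2 P lam t + F2 P lam s * a'), by ring⟩

lemma dt_eq (P lam σ : R) (s t r : Fin 3 → R) :
    P * dt s t r =
      -(F0 P lam s σ * (F1 P lam t σ * F2 P lam r - F2 P lam t * F1 P lam r σ) +
      F1 P lam s σ * (F2 P lam t * F0 P lam r σ - F0 P lam t σ * F2 P lam r) +
      F2 P lam s * (F0 P lam t σ * F1 P lam r σ - F1 P lam t σ * F0 P lam r σ)) := by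
  simp only [dt, F0, F1, F2]; ring

lemma InT.dt_dvd (hPQ : IsCoprime P Q) (hs : InT P lam Q σ s) (ht : InT P lam Q σ t)
    (hr : InT P lam Q σ r) : Q ^ 3 ∣ dt s t r := by
  obtain ⟨⟨a, ha⟩, ⟨b, hb⟩⟩ := hs
  obtain ⟨⟨a', ha'⟩, ⟨b', hb'⟩⟩ := ht
  obtain ⟨⟨a'', ha''⟩, ⟨b'', hb''⟩⟩ := hr
  have h : Q ^ 3 ∣ P * dt s t r := by
    rw [dt_eq P lam σ, ha, hb, ha', hb', ha'', hb'']
    exact ⟨-(a * (b' * F2 P lam r - F2 P lam t * b'') + b * (F2 P lam t * a'' - a' * F2 P lam r)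
      + F2 P lam s * (a' * b'' - b' * a'')), by ring⟩
  exact (hPQ.symm.pow_left).dvd_of_dvd_mul_left h

lemma crs_eq (P lam σ : R) (s t : Fin 3 → R) (j : Fin 3) :
    P * crs s t j = -(
      (![σ * (lam * σ + 1), (lam * σ + 1) ^ 2, P * σ ^ 2] : Fin 3 → R) j *
        (F1 P lam s σ * F2 P lam t - F2 P lam s * F1 P lam t σ) +
      (![2 * lam * σ + 1, 2 * lam * (lam * σ + 1), 2 * P * σ] : Fin 3 → R) j *
        (F2 P lam s * F0 P lam t σ - F0 P lam s σ * F2 P lam t) +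
      (![lam, lam ^ 2, P] : Fin 3 → R) j *
        (F0 P lam s σ * F1 P lam t σ - F1 P lam s σ * F0 P lam t σ)) := by
  fin_cases j <;> simp [crs, F0, F1, F2] <;> ring

lemma InT.crs_dvd (hPQ : IsCoprime P Q) (hs : InT P lam Q σ s) (ht : InT P lam Q σ t)
    (j : Fin 3) : Q ∣ crs s t j := by
  obtain ⟨⟨a, ha⟩, ⟨b, hb⟩⟩ := hs
  obtain ⟨⟨a', ha'⟩, ⟨b', hb'⟩⟩ := ht
  have h : Q ∣ P * crs s t j := by
    rw [crs_eq P lam σ, ha, hb, ha', hb']
    refine dvd_neg.2 (dvd_add (dvd_add ?_ ?_) ?_) <;> refine dvd_mul_of_dvd_right ?_ _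
    · exact ⟨b * F2 P lam t - F2 P lam s * b', by ring⟩
    · exact ⟨Q * (F2 P lam s * a' - a * F2 P lam t), by ring⟩
    · exact ⟨Q ^ 2 * (a * b' - b * a'), by ring⟩
  exact hPQ.symm.dvd_of_dvd_mul_left h

lemma F0_brk (P lam σ : R) (s t : Fin 3 → R) :
    F0 P lam (brk P s t) σ = F0 P lam s σ * F1 P lam t σ - F1 P lam s σ * F0 P lam t σ := by
  simp [brk, F0, F1]; ring

lemma F1_brk (P lam σ : R) (s t : Fin 3 → R) :
    F1 P lam (brk P s t) σ = 2 * (F0 P lam s σ * F2 P lam t - F2 P lam s * F0 P lam t σ) := by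
  simp [brk, F0, F1, F2]; ring

lemma InT.exists_brk [IsDomain R] (hQ : Q ≠ 0) (hPQ : IsCoprime P Q) (hs : InT P lam Q σ s)
    (ht : InT P lam Q σ t) : ∃ r, brk P s t = Q • r ∧ InT P lam Q σ r := by
  have h0 := hs.crs_dvd hPQ ht
  obtain ⟨c0, hc0⟩ := h0 0
  obtain ⟨c1, hc1⟩ := h0 1
  obtain ⟨c2, hc2⟩ := h0 2
  simp only [crs, Matrix.cons_val_zero, Matrix.cons_val_one, Matrix.cons_val] at hc0 hc1 hc2
  have hb : brk P s t = Q • ![2 * P * c0, - c2, - c1] := by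
    ext j; fin_cases j <;> simp [brk, hc0, hc1, hc2]
    ring
  refine ⟨_, hb, ?_, ?_⟩
  · have h := F0_brk P lam σ s t
    rw [hb] at h
    have h' : F0 P lam (Q • ![2 * P * c0, - c2, - c1]) σ =
        Q * F0 P lam ![2 * P * c0, - c2, - c1] σ := by simp [F0]; ring
    rw [h'] at h
    obtain ⟨⟨a, ha⟩, ⟨b, hb⟩⟩ := hs
    obtain ⟨⟨a', ha'⟩, ⟨b', hb'⟩⟩ := ht
    refine ⟨a * b' - b * a', mul_left_cancel₀ hQ ?_⟩
    rw [h, ha, hb, ha', hb']; ring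
  · have h := F1_brk P lam σ s t
    rw [hb] at h
    have h' : F1 P lam (Q • ![2 * P * c0, - c2, - c1]) σ =
        Q * F1 P lam ![2 * P * c0, - c2, - c1] σ := by simp [F1]; ring
    rw [h'] at h
    obtain ⟨⟨a, ha⟩, ⟨b, hb⟩⟩ := hs
    obtain ⟨⟨a', ha'⟩, ⟨b', hb'⟩⟩ := ht
    refine ⟨2 * (a * F2 P lam t - F2 P lam s * a'), mul_left_cancel₀ hQ ?_⟩
    rw [h, ha, ha']; ring

lemma InT.add (hs : InT P lam Q σ s) (ht : InT P lam Q σ t) : InT P lam Q σ (s + t) := by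
  obtain ⟨⟨a, ha⟩, ⟨b, hb⟩⟩ := hs
  obtain ⟨⟨a', ha'⟩, ⟨b', hb'⟩⟩ := ht
  refine ⟨⟨a + a', ?_⟩, ⟨b + b', ?_⟩⟩
  · rw [mul_add, ← ha, ← ha']; simp [F0]; ring
  · rw [mul_add, ← hb, ← hb']; simp [F1]; ring

lemma InT.smul (c : R) (hs : InT P lam Q σ s) : InT P lam Q σ (c • s) := by
  obtain ⟨⟨a, ha⟩, ⟨b, hb⟩⟩ := hs
  refine ⟨⟨c * a, ?_⟩, ⟨c * b, ?_⟩⟩
  · rw [mul_left_comm, ← ha]; simp [F0]; ring
  · rw [mul_left_comm, ← hb]; simp [F1]; ring

lemma InT_smul_sq (s : Fin 3 → R) : InT P lam Q σ (Q ^ 2 • s) := by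
  refine ⟨⟨F0 P lam s σ, ?_⟩, ⟨Q * F1 P lam s σ, ?_⟩⟩
  · simp [F0]; ring
  · simp [F1]; ring

/-- The three sections `P e_l`, `e_l = Q (w - lam) ^ 2 w' ^ l / w`, `w' = (W - σ) / Q`. -/
def Pe (P lam Q σ : R) : Fin 3 → Fin 3 → R :=
  ![Q ^ 2 • ![-2 * lam * P, P, lam ^ 2],
    Q • ![P + 2 * lam * σ * P, - σ * P, - lam - σ * lam ^ 2],
    ![-2 * σ * (1 + σ * lam) * P, σ ^ 2 * P, (1 + σ * lam) ^ 2]]

lemma InT_Pe (P lam Q σ : R) (l : Fin 3) : InT P lam Q σ (Pe P lam Q σ l) := by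
  fin_cases l
  · exact InT_smul_sq _
  · refine ⟨⟨0, ?_⟩, ⟨P, ?_⟩⟩
    · simp [Pe, F0]; ring
    · simp [Pe, F1]; ring
  · refine ⟨⟨0, ?_⟩, ⟨0, ?_⟩⟩
    · simp [Pe, F0]; ring
    · simp [Pe, F1]; ring

/-- The relation between the discriminants of two forms and the determinant. -/
lemma dsc_sq_sub (P : R) (s t : Fin 3 → R) :
    dsc P s t ^ 2 - dsc P s s * dsc P t t = 2 * P * dt s t (brk P s t) := by
  simp [dsc, dt, brk]; ring

/-- Cramer's rule. -/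
lemma cramer (s t r q : Fin 3 → R) (j : Fin 3) :
    dt s t r * q j = dt q t r * s j + dt s q r * t j + dt s t q * r j := by
  fin_cases j <;> simp [dt] <;> ring

end Lattice

end Pool.Agent.H48.SymDP
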