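import Pool.Agent.H48.SymDP.Irr.Orders

/-!
# Optimal elementary modifications at a point of the base
-/

open Polynomial

namespace Pool.Agent.H48.SymDP

section Local

variable {k : Type*} [Field k]

/-- The elementary modification `W = s + (x - x₀) ^ r Y` makes both `A i` divisible by
`(x - x₀) ^ n`. -/
def VV (A : Fin 2 → k[X][X]) (x₀ : k) (r : ℕ) (s : k[X]) (n : ℕ) : Prop :=
  ∀ i, C ((X - C x₀) ^ n) ∣ (A i).comp (C ((X - C x₀) ^ r) * X + C s)

/-- The standing assumptions on the pair `A`. -/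
structure WData (m : ℕ) (A : Fin 2 → k[X][X]) (R : k[X]) : Prop where
  natDegree_le : ∀ i, (A i).natDegree ≤ 2 * m
  top : ∀ x₀ : k, ∃ i, ((A i).coeff (2 * m)).eval x₀ ≠ 0
  ne : R ≠ 0
  bez : ∃ c₀ c₁, c₀ * A 0 + c₁ * A 1 = C R

/-- The modification is optimal: `(m r - n, r)` is minimal for the lexicographic order. -/
def Loc (m : ℕ) (A : Fin 2 → k[X][X]) (x₀ : k) (r : ℕ) (s : k[X]) (n : ℕ) : Prop :=
  VV A x₀ r s n ∧ ∀ r' s' n', VV A x₀ r' s' n' →
    m * r + n' < m * r' + n ∨ (m * r + n' = m * r' + n ∧ r ≤ r')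

lemma dvd_comp_of_dvd {D : k[X]} {A W : k[X][X]} (h : C D ∣ A) : C D ∣ A.comp W := by
  obtain ⟨B, rfl⟩ := h
  rw [mul_comp, C_comp]
  exact dvd_mul_right _ _

lemma pi_ne (x₀ : k) (n : ℕ) : (X - C x₀) ^ n ≠ 0 := pow_ne_zero _ (X_sub_C_ne_zero x₀)

lemma Cpi_ne (x₀ : k) (n : ℕ) : (C ((X - C x₀) ^ n) : k[X][X]) ≠ 0 := by
  rw [Ne, C_eq_zero]; exact pi_ne x₀ n

lemma comp_lin (A : k[X][X]) (a b s t : k[X]) :
    A.comp (C (a * b) * X + C (s + a * t)) = (A.comp (C a * X + C s)).comp (C b * X + C t) := by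
  rw [comp_assoc]
  congr 1
  simp only [add_comp, mul_comp, C_comp, X_comp, C_mul, C_add]
  ring

lemma VV.congr {A : Fin 2 → k[X][X]} {x₀ : k} {r : ℕ} {s s' : k[X]} {n : ℕ}
    (h : VV A x₀ r s n) (hs : (X - C x₀) ^ r ∣ s' - s) : VV A x₀ r s' n := by
  obtain ⟨t, ht⟩ := hs
  intro i
  have := comp_lin (A i) ((X - C x₀) ^ r) 1 s t
  rw [mul_one, ← ht, add_sub_cancel] at this
  rw [this]
  exact dvd_comp_of_dvd (h i)

lemma VV_zero (A : Fin 2 → k[X][X]) (x₀ : k) (s : k[X]) (r : ℕ) : VV A x₀ r s 0 := by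
  intro i; simp

lemma C_dvd_C' {a b : k[X]} : (C a : k[X][X]) ∣ C b ↔ a ∣ b := by
  constructor
  · intro h
    have := (C_dvd_iff_dvd_coeff a (C b)).1 h 0
    rwa [coeff_C_zero] at this
  · rintro ⟨c, rfl⟩
    exact ⟨C c, C_mul⟩

lemma VV.bound {m : ℕ} {A : Fin 2 → k[X][X]} {R : k[X]} (hA : WData m A R) {x₀ : k} {r : ℕ}
    {s : k[X]} {n : ℕ} (h : VV A x₀ r s n) : (X - C x₀) ^ n ∣ R := by
  obtain ⟨c₀, c₁, hc⟩ := hA.bez
  have h1 := congrArg (fun q => q.comp (C ((X - C x₀) ^ r) * X + C s)) hc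
  simp only [add_comp, mul_comp, C_comp] at h1
  rw [← C_dvd_C', ← h1]
  exact dvd_add (dvd_mul_of_dvd_right (by simpa using h 0) _)
    (dvd_mul_of_dvd_right (by simpa using h 1) _)

lemma natDegree_comp_lin_le {A : k[X][X]} {N : ℕ} (hA : A.natDegree ≤ N) (a s : k[X]) :
    (A.comp (C a * X + C s)).natDegree ≤ N := by
  refine natDegree_comp_le.trans ?_
  calc A.natDegree * (C a * X + C s).natDegree ≤ N * 1 :=
        Nat.mul_le_mul hA natDegree_linear_le
    _ = N := mul_one N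

lemma coeff_comp_lin {A : k[X][X]} {N : ℕ} (hA : A.natDegree ≤ N) (a s : k[X]) :
    (A.comp (C a * X + C s)).coeff N = A.coeff N * a ^ N := by
  have h0 : A.comp (C a * X + C s) = (A.comp (X + C s)).comp (C a * X) := by
    rw [comp_assoc]; simp
  rw [h0, comp_C_mul_X_coeff]
  congr 1
  rw [← taylor_apply]
  rcases hA.lt_or_eq with h | h
  · rw [coeff_eq_zero_of_natDegree_lt h, coeff_eq_zero_of_natDegree_lt (by
      rwa [natDegree_taylor])]
  · rw [← h, coeff_natDegree]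
    conv_lhs => rw [← natDegree_taylor A s]
    rw [coeff_natDegree, leadingCoeff_taylor]

/-- The order in `x - x₀` of the pair after the modification is bounded. -/
lemma VV.le {m : ℕ} {A : Fin 2 → k[X][X]} {R : k[X]} (hA : WData m A R) {x₀ : k} {r : ℕ}
    {s : k[X]} {n : ℕ} (h : VV A x₀ r s n) : n ≤ R.natDegree := by
  have := natDegree_le_of_dvd (h.bound hA) hA.ne
  rwa [natDegree_pow, natDegree_X_sub_C, mul_one] at this

lemma exists_Loc {m : ℕ} {A : Fin 2 → k[X][X]} {R : k[X]} (hA : WData m A R) (x₀ : k) :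
    ∃ r s n, Loc m A x₀ r s n := by
  classical
  set K := R.natDegree
  have h1 : ∃ μ, ∃ r s n, VV A x₀ r s n ∧ m * r + (K - n) = μ :=
    ⟨_, 0, 0, 0, VV_zero A x₀ 0 0, rfl⟩
  obtain ⟨μ, hμ, hmin⟩ : ∃ μ, (∃ r s n, VV A x₀ r s n ∧ m * r + (K - n) = μ) ∧
      ∀ μ', (∃ r s n, VV A x₀ r s n ∧ m * r + (K - n) = μ') → μ ≤ μ' :=
    ⟨Nat.find h1, Nat.find_spec h1, fun μ' h => Nat.find_min' h1 h⟩
  have h2 : ∃ r, ∃ s n, VV A x₀ r s n ∧ m * r + (K - n) = μ := hμ
  obtain ⟨r, hr, hminr⟩ : ∃ r, (∃ s n, VV A x₀ r s n ∧ m * r + (K - n) = μ) ∧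
      ∀ r', (∃ s n, VV A x₀ r' s n ∧ m * r' + (K - n) = μ) → r ≤ r' :=
    ⟨Nat.find h2, Nat.find_spec h2, fun μ' h => Nat.find_min' h2 h⟩
  obtain ⟨s, n, hV, he⟩ := hr
  refine ⟨r, s, n, hV, fun r' s' n' h' => ?_⟩
  have h3 := h'.le hA
  have h4 := hV.le hA
  have h5 := hmin _ ⟨r', s', n', h', rfl⟩
  have h6 := fun h => hminr r' ⟨s', n', h', h⟩
  by_cases h7 : m * r' + (K - n') = μ
  · right
    refine ⟨?_, h6 h7⟩
    omega
  · left
    omega

lemma Loc.congr {m : ℕ} {A : Fin 2 → k[X][X]} {x₀ : k} {r : ℕ} {s s' : k[X]} {n : ℕ}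
    (h : Loc m A x₀ r s n) (hs : (X - C x₀) ^ r ∣ s' - s) : Loc m A x₀ r s' n :=
  ⟨h.1.congr hs, h.2⟩

/-- A polynomial `B` with `B (π ^ e Y)` divisible by `π ^ N`, `N > m e`, has, modulo `π`, the root
`0` with multiplicity greater than `m`. -/
lemma X_pow_dvd_of {B : k[X][X]} {x₀ : k} {e N m : ℕ} (hN : m * e < N)
    (h : C ((X - C x₀) ^ N) ∣ B.comp (C ((X - C x₀) ^ e) * X)) :
    X ^ (m + 1) ∣ B.map (evalRingHom x₀) := by
  rw [X_pow_dvd_iff]
  intro d hd
  have h1 := (C_dvd_iff_dvd_coeff _ _).1 h d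
  rw [comp_C_mul_X_coeff, ← pow_mul] at h1
  have hd' : e * d < N := by
    calc e * d ≤ e * m := Nat.mul_le_mul_left _ (by omega)
      _ = m * e := mul_comm _ _
      _ < N := hN
  have h2 : (X - C x₀) ∣ B.coeff d := by
    have h3 : (X - C x₀) ^ (e * d) * (X - C x₀) ∣ (X - C x₀) ^ (e * d) * B.coeff d := by
      rw [← pow_succ, mul_comm _ (B.coeff d)]
      exact (pow_dvd_pow _ hd').trans h1
    exact (mul_dvd_mul_iff_left (pi_ne x₀ _)).1 h3
  rw [coeff_map, coe_evalRingHom]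
  exact (dvd_iff_isRoot.1 h2)

lemma map_comp_lin (B : k[X][X]) (x₀ : k) (a s : k[X]) :
    (B.comp (C a * X + C s)).map (evalRingHom x₀) =
      (B.map (evalRingHom x₀)).comp (C (a.eval x₀) * X + C (s.eval x₀)) := by
  rw [Polynomial.map_comp]; simp

/-- A polynomial of degree at most `2 m` vanishing at two points with multiplicities greater than
`m` is zero. -/
lemma eq_zero_of_two {b : k[X]} {m : ℕ} {c : k} (hc : c ≠ 0) (hdeg : b.natDegree ≤ 2 * m)
    (h1 : X ^ (m + 1) ∣ b) (h2 : X ^ (m + 1) ∣ b.comp (X + C c)) : b = 0 := by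
  have h3 : (X - C c) ^ (m + 1) ∣ b := by
    obtain ⟨q, hq⟩ := h2
    refine ⟨q.comp (X - C c), ?_⟩
    have := congrArg (fun q => q.comp (X - C c)) hq
    simp only [comp_assoc, add_comp, X_comp, C_comp, mul_comp, pow_comp] at this
    rw [sub_add_cancel, comp_X] at this
    exact this
  have h4 : IsCoprime (X ^ (m + 1)) ((X - C c) ^ (m + 1)) := by
    apply IsCoprime.pow
    have := isCoprime_X_sub_C_of_isUnit_sub (R := k) (a := 0) (b := c) (by
      rw [zero_sub]; exact (neg_ne_zero.2 hc).isUnit)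
    simpa using this
  have h5 := h4.mul_dvd h1 h3
  by_contra h0
  have h6 := natDegree_le_of_dvd h5 h0
  rw [natDegree_mul (pow_ne_zero _ X_ne_zero) (pi_ne c _), natDegree_pow, natDegree_pow,
    natDegree_X, natDegree_X_sub_C] at h6
  omega

/-- Uniqueness of the optimal modification. -/
lemma Loc.unique {m : ℕ} {A : Fin 2 → k[X][X]} {R : k[X]} (hA : WData m A R) {x₀ : k}
    {r₁ r₂ n₁ n₂ : ℕ} {s₁ s₂ : k[X]} (h₁ : Loc m A x₀ r₁ s₁ n₁) (h₂ : Loc m A x₀ r₂ s₂ n₂) :
    r₁ = r₂ ∧ n₁ = n₂ ∧ (X - C x₀) ^ r₁ ∣ s₂ - s₁ := by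
  classical
  have e1 := h₁.2 _ _ _ h₂.1
  have e2 := h₂.2 _ _ _ h₁.1
  have hr : r₁ = r₂ := by omega
  have hn : n₁ = n₂ := by subst hr; omega
  subst hr hn
  refine ⟨rfl, rfl, ?_⟩
  by_contra hnd
  -- the order of `s₂ - s₁`
  have hne : s₂ - s₁ ≠ 0 := by rintro h0; rw [h0] at hnd; exact hnd (dvd_zero _)
  obtain ⟨c, hc, hc0⟩ := exists_eq_pow_rootMultiplicity_mul_and_not_dvd (s₂ - s₁) hne x₀
  set r₀ := rootMultiplicity x₀ (s₂ - s₁)
  have hc0' : c.eval x₀ ≠ 0 := fun h => hc0 (dvd_iff_isRoot.2 h)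
  have hr₀ : r₀ < r₁ := by
    by_contra hle
    exact hnd (hc ▸ dvd_mul_of_dvd_left (pow_dvd_pow _ (not_lt.1 hle)) _)
  -- the maximal order of the modification `(r₀, s₁)`
  obtain ⟨n₀, hV₀, hV₁⟩ : ∃ n₀, VV A x₀ r₀ s₁ n₀ ∧ ¬ VV A x₀ r₀ s₁ (n₀ + 1) := by
    by_contra hcon
    push Not at hcon
    have : ∀ n, VV A x₀ r₀ s₁ n := by
      intro n
      induction n with
      | zero => exact VV_zero _ _ _ _
      | succ n ih => exact hcon n ih
    have := (this (R.natDegree + 1)).le hA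
    omega
  have hV₀' := hV₀
  choose B hB using hV₀'
  have e3 := h₁.2 _ _ _ hV₀
  have hlt : m * (r₁ - r₀) < n₁ - n₀ := by
    obtain ⟨d, rfl⟩ := Nat.exists_eq_add_of_lt hr₀
    rw [show r₀ + d + 1 - r₀ = d + 1 by omega]
    rw [show m * (r₀ + d + 1) = m * r₀ + m * (d + 1) by ring] at e3
    omega
  have hn₀ : n₀ + (n₁ - n₀) = n₁ := by omega
  have hr₁ : r₀ + (r₁ - r₀) = r₁ := by omega
  have key : ∀ s t : k[X], s = s₁ + (X - C x₀) ^ r₀ * t → VV A x₀ r₁ s n₁ → ∀ i,
      C ((X - C x₀) ^ (n₁ - n₀)) ∣ (B i).comp (C ((X - C x₀) ^ (r₁ - r₀)) * X + C t) := by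
    intro s t hs hV i
    have h := hV i
    rw [hs, ← hr₁, pow_add, comp_lin, hB i, mul_comp, C_comp, ← hn₀, pow_add, C_mul] at h
    exact (mul_dvd_mul_iff_left (Cpi_ne x₀ _)).1 h
  have k1 := key s₁ 0 (by ring) h₁.1
  have k2 := key s₂ c (by rw [← hc]; ring) h₂.1
  have hdegB : ∀ i, (B i).natDegree ≤ 2 * m := by
    intro i
    have := natDegree_comp_lin_le (hA.natDegree_le i) ((X - C x₀) ^ r₀) s₁
    rw [hB i, natDegree_C_mul (pi_ne x₀ _)] at this
    exact this
  apply hV₁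
  intro i
  have hz : (B i).map (evalRingHom x₀) = 0 := by
    refine eq_zero_of_two hc0' (natDegree_map_le.trans (hdegB i)) ?_ ?_
    · have := k1 i
      rw [C_0, add_zero] at this
      exact X_pow_dvd_of hlt this
    · have h := k2 i
      have h' : C ((X - C x₀) ^ (n₁ - n₀)) ∣ ((B i).comp (X + C c)).comp
          (C ((X - C x₀) ^ (r₁ - r₀)) * X) := by
        rw [comp_assoc]; simpa using h
      have := X_pow_dvd_of hlt h'
      have h2 := map_comp_lin (B i) x₀ 1 c
      simp only [C_1, one_mul, eval_one] at h2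
      rwa [h2] at this
  rw [hB i, pow_succ, C_mul]
  refine mul_dvd_mul_left _ ((C_dvd_iff_dvd_coeff _ _).2 fun d => ?_)
  have := congrArg (fun q => coeff q d) hz
  simp only [coeff_map, coe_evalRingHom, coeff_zero] at this
  exact dvd_iff_isRoot.2 this

lemma pow_dvd_of_comp {a : k[X]} {x₀ : k} {d : ℕ}
    (h : ∀ i < d, (a.comp (X + C x₀)).coeff i = 0) : (X - C x₀) ^ d ∣ a := by
  obtain ⟨q, hq⟩ := X_pow_dvd_iff.2 h
  have h1 := congrArg (fun q => q.comp (X - C x₀)) hq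
  simp only [comp_assoc, add_comp, X_comp, C_comp, mul_comp, pow_comp, sub_add_cancel,
    comp_X] at h1
  exact ⟨_, h1⟩

lemma sh_eq (x₀ c : k) (B : k[X][X]) :
    sh x₀ c B = (B.comp (X + C (C c))).map (compRingHom (X + C x₀)) := by
  rw [sh, Polynomial.map_comp]
  simp

/-- A point of multiplicity greater than `m`: the vanishing of the Taylor coefficients. -/
lemma pow_dvd_coeff_of_sh {x₀ c : k} {B : k[X][X]} {m : ℕ}
    (h : ∀ a b, a + b ≤ m → ((sh x₀ c B).coeff b).coeff a = 0) {b : ℕ} (hb : b ≤ m) :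
    (X - C x₀) ^ (m - b + 1) ∣ (B.comp (X + C (C c))).coeff b := by
  apply pow_dvd_of_comp
  intro i hi
  have := h i b (by omega)
  rw [sh_eq, coeff_map, coe_compRingHom_apply] at this
  exact this

lemma comp_dvd_of_sh {x₀ c : k} {B : k[X][X]} {m : ℕ}
    (h : ∀ a b, a + b ≤ m → ((sh x₀ c B).coeff b).coeff a = 0) :
    C ((X - C x₀) ^ (m + 1)) ∣ B.comp (C (X - C x₀) * X + C (C c)) := by
  have h0 : B.comp (C (X - C x₀) * X + C (C c)) =
      (B.comp (X + C (C c))).comp (C (X - C x₀) * X) := by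
    rw [comp_assoc]; simp
  rw [h0, C_dvd_iff_dvd_coeff]
  intro b
  rw [comp_C_mul_X_coeff]
  by_cases hb : b ≤ m
  · have h1 := pow_dvd_coeff_of_sh h hb
    calc (X - C x₀) ^ (m + 1) = (X - C x₀) ^ (m - b + 1) * (X - C x₀) ^ b := by
          rw [← pow_add]; congr 1; omega
      _ ∣ _ := mul_dvd_mul_right h1 _
  · exact dvd_mul_of_dvd_right (pow_dvd_pow _ (by omega)) _

lemma Loc.good {m : ℕ} {A : Fin 2 → k[X][X]} {R : k[X]} (hA : WData m A R) {x₀ : k}
    {r n : ℕ} {s : k[X]} (h : Loc m A x₀ r s n) {B : Fin 2 → k[X][X]}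
    (hB : ∀ i, (A i).comp (C ((X - C x₀) ^ r) * X + C s) = C ((X - C x₀) ^ n) * B i) :
    GoodFibre B m x₀ := by
  refine ⟨fun i => ?_, ?_, fun c => ?_, ?_⟩
  · have := natDegree_comp_lin_le (hA.natDegree_le i) ((X - C x₀) ^ r) s
    rw [hB i, natDegree_C_mul (pi_ne x₀ _)] at this
    exact this
  · by_contra hcon
    push Not at hcon
    have hV : VV A x₀ r s (n + 1) := by
      intro i
      rw [hB i, pow_succ, C_mul]
      refine mul_dvd_mul_left _ ((C_dvd_iff_dvd_coeff _ _).2 fun d => ?_)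
      have := congrArg (fun q => coeff q d) (hcon i)
      simp only [coeff_map, coe_evalRingHom, coeff_zero] at this
      exact dvd_iff_isRoot.2 this
    have := h.2 _ _ _ hV
    omega
  · by_contra hcon
    push Not at hcon
    have hV : VV A x₀ (r + 1) (s + (X - C x₀) ^ r * C c) (n + (m + 1)) := by
      intro i
      rw [pow_succ, comp_lin, hB i, mul_comp, C_comp, pow_add, C_mul]
      exact mul_dvd_mul_left _ (comp_dvd_of_sh fun a b hab => hcon i a b hab)
    have := h.2 _ _ _ hV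
    rw [mul_add] at this
    omega
  · by_contra hcon
    push Not at hcon
    rcases Nat.eq_zero_or_pos r with hr | hr
    · subst hr
      obtain ⟨i, hi⟩ := hA.top x₀
      apply hi
      have h1 := congrArg (fun q => (coeff q (2 * m)).eval x₀) (hB i)
      simp only [coeff_C_mul] at h1
      rw [coeff_comp_lin (hA.natDegree_le i), pow_zero, one_pow, mul_one, eval_mul] at h1
      have h2 := hcon i 0 0 (by omega)
      rw [sh_coeff, coeff_reflect, revAt_le (by omega), Nat.sub_zero,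
        coeff_zero_eq_eval_zero, eval_comp] at h2
      simp only [eval_add, eval_X, eval_C, zero_add] at h2
      rw [h1, h2, mul_zero]
    · obtain ⟨r', rfl⟩ := Nat.exists_eq_add_of_lt hr
      rw [zero_add] at *
      have hV : VV A x₀ r' s (n + 1 - m) := by
        rcases Nat.lt_or_ge n m with hnm | hnm
        · rw [show n + 1 - m = 0 by omega]
          exact VV_zero _ _ _ _
        intro i
        rw [C_dvd_iff_dvd_coeff]
        intro l
        have h0 : (A i).comp (C ((X - C x₀) ^ (r' + 1)) * X + C s) =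
            ((A i).comp (C ((X - C x₀) ^ r') * X + C s)).comp (C (X - C x₀) * X) := by
          rw [comp_assoc]
          congr 1
          simp only [add_comp, mul_comp, C_comp, X_comp, pow_succ, C_mul]
          ring
        have h1 := congrArg (fun q => coeff q l) (hB i)
        simp only [coeff_C_mul] at h1
        rw [h0, comp_C_mul_X_coeff] at h1
        -- `h1 : D_l π ^ l = π ^ n b_l`
        by_cases hl : l ≤ 2 * m
        · have h2 : m ≤ l → (X - C x₀) ^ (l - m + 1) ∣ (B i).coeff l := by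
            intro hml
            have h4 : (X - C x₀) ^ (m - (2 * m - l) + 1) ∣
                (((B i).reflect (2 * m)).comp (X + C (C 0))).coeff (2 * m - l) :=
              pow_dvd_coeff_of_sh (fun a b hab => hcon i a b hab) (by omega)
            rw [C_0, C_0, add_zero, comp_X, coeff_reflect, revAt_le (by omega),
              show 2 * m - (2 * m - l) = l by omega,
              show m - (2 * m - l) + 1 = l - m + 1 by omega] at h4
            exact h4
          have h5 : (X - C x₀) ^ l * (X - C x₀) ^ (n + 1 - m) ∣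
              (X - C x₀) ^ l * ((A i).comp (C ((X - C x₀) ^ r') * X + C s)).coeff l := by
            rw [mul_comm _ (coeff _ l), h1, ← pow_add]
            by_cases hml : m ≤ l
            · refine dvd_trans (pow_dvd_pow _ ?_ : _ ∣ (X - C x₀) ^ (n + (l - m + 1))) ?_
              · omega
              · rw [pow_add]; exact mul_dvd_mul_left _ (h2 hml)
            · exact dvd_mul_of_dvd_left (pow_dvd_pow _ (by omega)) _
          exact (mul_dvd_mul_iff_left (pi_ne x₀ _)).1 h5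
        · rw [coeff_eq_zero_of_natDegree_lt]
          · exact dvd_zero _
          · have := natDegree_comp_lin_le (hA.natDegree_le i) ((X - C x₀) ^ r') s
            omega
      have := h.2 _ _ _ hV
      rw [mul_add] at this
      omega

end Local

end Pool.Agent.H48.SymDP
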