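import Pool.Agent.H48.SymDP.Irr.Transport
import Pool.Agent.H48.SymDP.Irr.AlgCl

/-!
# The optimal model of the conic bundle
-/

open Polynomial

namespace Pool.Agent.H48.SymDP

section Generic

variable {k : Type*} [Field k]

lemma isCoprime_pi {x y : k} (h : x ≠ y) (a b : ℕ) :
    IsCoprime ((X - C x) ^ a) ((X - C y) ^ b) :=
  IsCoprime.pow (isCoprime_X_sub_C_of_isUnit_sub (sub_ne_zero.2 h).isUnit)

lemma prod_pi_dvd {S : Finset k} {e : k → ℕ} {F : k[X]}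
    (h : ∀ x ∈ S, (X - C x) ^ e x ∣ F) : ∏ x ∈ S, (X - C x) ^ e x ∣ F :=
  Finset.prod_dvd_of_coprime (fun _ _ _ _ hxy => isCoprime_pi hxy _ _) h

lemma C_prod_pi_dvd {S : Finset k} {e : k → ℕ} {F : k[X][X]}
    (h : ∀ x ∈ S, C ((X - C x) ^ e x) ∣ F) : C (∏ x ∈ S, (X - C x) ^ e x) ∣ F := by
  rw [C_dvd_iff_dvd_coeff]
  intro j
  exact prod_pi_dvd fun x hx => (C_dvd_iff_dvd_coeff _ _).1 (h x hx) j

lemma prod_pi_ne {S : Finset k} {e : k → ℕ} : ∏ x ∈ S, (X - C x) ^ e x ≠ 0 :=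
  Finset.prod_ne_zero_iff.2 fun x _ => pi_ne x _

lemma prod_pi_coprime {S : Finset k} {e : k → ℕ} {P : k[X]} (h : ∀ x ∈ S, P.eval x ≠ 0) :
    IsCoprime P (∏ x ∈ S, (X - C x) ^ e x) := by
  refine IsCoprime.prod_right fun x hx => IsCoprime.pow_right ?_
  refine IsCoprime.symm ?_
  rw [(irreducible_X_sub_C x).coprime_iff_not_dvd]
  intro h'; exact h x hx (dvd_iff_isRoot.1 h')

lemma exists_split [DecidableEq k] (S : Finset k) (e : k → ℕ) (x₀ : k) (h : x₀ ∉ S → e x₀ = 0) :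
    ∃ Q' : k[X], ∏ x ∈ S, (X - C x) ^ e x = (X - C x₀) ^ e x₀ * Q' ∧ Q'.eval x₀ ≠ 0 := by
  have hne : ∀ T : Finset k, x₀ ∉ T → (∏ x ∈ T, (X - C x) ^ e x).eval x₀ ≠ 0 := by
    intro T hT
    rw [eval_prod, Finset.prod_ne_zero_iff]
    intro x hx
    rw [eval_pow, eval_sub, eval_X, eval_C]
    refine pow_ne_zero _ (sub_ne_zero.2 ?_)
    rintro rfl; exact hT hx
  by_cases hx : x₀ ∈ S
  · exact ⟨∏ x ∈ S.erase x₀, (X - C x) ^ e x, (Finset.mul_prod_erase S _ hx).symm,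
      hne _ (Finset.notMem_erase _ _)⟩
  · exact ⟨_, by rw [h hx, pow_zero, one_mul], hne _ hx⟩

lemma prod_pi_map {S : Finset k} {e : k → ℕ} (g : k ≃+* k) (hS : ∀ x, x ∈ S ↔ g x ∈ S)
    (he : ∀ x ∈ S, e (g x) = e x) :
    (∏ x ∈ S, (X - C x) ^ e x).map (g : k →+* k) = ∏ x ∈ S, (X - C x) ^ e x := by
  rw [Polynomial.map_prod]
  refine Finset.prod_equiv g.toEquiv hS fun x hx => ?_
  have : g.toEquiv x = g x := rfl
  rw [this, he x hx]
  simp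

lemma exists_crt (S : Finset k) (e : k → ℕ) (s : k → k[X]) :
    ∃ σ : k[X], ∀ x ∈ S, (X - C x) ^ e x ∣ σ - s x := by
  obtain ⟨σ, hσ⟩ := Ideal.exists_forall_sub_mem_ideal
    (I := fun x : S => Ideal.span {(X - C (x : k)) ^ e x}) (fun x y hxy => by
      show IsCoprime (Ideal.span {(X - C (x : k)) ^ e x}) (Ideal.span {(X - C (y : k)) ^ e y})
      rw [Ideal.isCoprime_span_singleton_iff]
      exact isCoprime_pi (fun h => hxy (Subtype.ext h)) _ _) (fun x => s x)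
  exact ⟨σ, fun x hx => Ideal.mem_span_singleton.1 (hσ ⟨x, hx⟩)⟩

end Generic

lemma exists_rat_poly {q : (AlgebraicClosure ℚ)[X]}
    (h : ∀ g : AlgebraicClosure ℚ ≃ₐ[ℚ] AlgebraicClosure ℚ,
      q.map ((g : AlgebraicClosure ℚ ≃+* AlgebraicClosure ℚ) :
        AlgebraicClosure ℚ →+* AlgebraicClosure ℚ) = q) :
    ∃ p : ℚ[X], p.map (algebraMap ℚ (AlgebraicClosure ℚ)) = q := by
  rw [← mem_lifts, lifts_iff_coeff_lifts]
  intro n
  refine exists_rat_of_fixed fun g => ?_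
  have := congrArg (fun q => coeff q n) (h g)
  simp only [coeff_map] at this
  exact this

lemma hev_eq_comp {m : ℕ} {lam : AlgebraicClosure ℚ}
    {A : Fin 2 → (AlgebraicClosure ℚ)[X][X]} (i : Fin 2) (σ Q : (AlgebraicClosure ℚ)[X]) :
    hev (2 * m) (A i) (C (C lam) * (C σ + C Q * X) + 1 : (AlgebraicClosure ℚ)[X][X])
      (C σ + C Q * X) = (AW m lam A i).comp (C Q * X + C σ) := by
  rw [AW_comp, hev_eq, algebraMap_eq, add_comm (C σ)]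

/-- The existence of the optimal elementary modification, defined over `ℚ` up to the
two-valued centre. -/
theorem exists_model (θ : AlgebraicClosure ℚ) (hθ : θ ^ 2 = -3) (P : ℚ[X]) (hP : P ≠ 0)
    (lam : ℚ) (hlam : lam ≠ 0) (m : ℕ) (hm : 1 ≤ m) (A : Fin 2 → (AlgebraicClosure ℚ)[X][X])
    (hdeg : ∀ i, (A i).natDegree ≤ 2 * m) (htop : ∃ i, (A i).coeff (2 * m) ≠ 0)
    (hbez : ∃ (C₀ C₁ : (AlgebraicClosure ℚ)[X][X]) (R : (AlgebraicClosure ℚ)[X]),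
      R ≠ 0 ∧ C₀ * A 0 + C₁ * A 1 = C R)
    (hlamA : ∀ x₀ : AlgebraicClosure ℚ, ∃ i,
      ((A i).eval (C (algebraMap ℚ (AlgebraicClosure ℚ) lam))).eval x₀ ≠ 0)
    (hfix : ∀ g : AlgebraicClosure ℚ ≃ₐ[ℚ] AlgebraicClosure ℚ, g θ = θ →
      ∃ c : AlgebraicClosure ℚ, c ≠ 0 ∧ ∀ i,
        mg (g : AlgebraicClosure ℚ →+* AlgebraicClosure ℚ) (A i) = C (C c) * A i)
    (hflip : ∀ g : AlgebraicClosure ℚ ≃ₐ[ℚ] AlgebraicClosure ℚ, g θ = - θ →
      ∃ ρ : (AlgebraicClosure ℚ)[X],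
        (∀ x₀, (P.map (algebraMap ℚ (AlgebraicClosure ℚ))).eval x₀ ≠ 0 → ρ.eval x₀ ≠ 0) ∧
        ∀ i, ∀ j ≤ 2 * m,
          ((A i).coeff (2 * m - j)).map (g : AlgebraicClosure ℚ →+* AlgebraicClosure ℚ) *
            (P.map (algebraMap ℚ (AlgebraicClosure ℚ))) ^ (2 * m - j) = ρ * (A i).coeff j) :
    ∃ (Q Θ : ℚ[X]) (σ : (AlgebraicClosure ℚ)[X]), Q ≠ 0 ∧ Θ ≠ 0 ∧ IsCoprime P Q ∧ IsCoprime P Θ ∧
      (∀ i, C (Θ.map (algebraMap ℚ (AlgebraicClosure ℚ))) ∣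
        hev (2 * m) (A i)
          (C (C (algebraMap ℚ (AlgebraicClosure ℚ) lam)) *
            (C σ + C (Q.map (algebraMap ℚ (AlgebraicClosure ℚ))) * X) + 1 :
            (AlgebraicClosure ℚ)[X][X])
          (C σ + C (Q.map (algebraMap ℚ (AlgebraicClosure ℚ))) * X)) ∧
      (∀ g : AlgebraicClosure ℚ ≃ₐ[ℚ] AlgebraicClosure ℚ, g θ = θ →
        Q.map (algebraMap ℚ (AlgebraicClosure ℚ)) ∣
          σ.map (g : AlgebraicClosure ℚ →+* AlgebraicClosure ℚ) - σ) ∧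
      (∀ g : AlgebraicClosure ℚ ≃ₐ[ℚ] AlgebraicClosure ℚ, g θ = - θ →
        Q.map (algebraMap ℚ (AlgebraicClosure ℚ)) ∣
          (P.map (algebraMap ℚ (AlgebraicClosure ℚ)) -
            C (algebraMap ℚ (AlgebraicClosure ℚ) lam) ^ 2) * σ *
            σ.map (g : AlgebraicClosure ℚ →+* AlgebraicClosure ℚ) -
          C (algebraMap ℚ (AlgebraicClosure ℚ) lam) *
            (σ + σ.map (g : AlgebraicClosure ℚ →+* AlgebraicClosure ℚ)) - 1) ∧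
      (∀ x₀ : AlgebraicClosure ℚ, (P.map (algebraMap ℚ (AlgebraicClosure ℚ))).eval x₀ ≠ 0 →
        ∃ (B : Fin 2 → (AlgebraicClosure ℚ)[X][X]) (r n : ℕ) (Q' Θ' : (AlgebraicClosure ℚ)[X]),
          Q.map (algebraMap ℚ (AlgebraicClosure ℚ)) = (X - C x₀) ^ r * Q' ∧ Q'.eval x₀ ≠ 0 ∧
          Θ.map (algebraMap ℚ (AlgebraicClosure ℚ)) = (X - C x₀) ^ n * Θ' ∧ Θ'.eval x₀ ≠ 0 ∧
          GoodFibre B m x₀ ∧
          ∀ i, hev (2 * m) (A i)
            (C (C (algebraMap ℚ (AlgebraicClosure ℚ) lam)) *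
              (C σ + C ((X - C x₀) ^ r) * X) + 1 : (AlgebraicClosure ℚ)[X][X])
            (C σ + C ((X - C x₀) ^ r) * X) = C ((X - C x₀) ^ n) * B i) := by
  classical
  set Pb := P.map (algebraMap ℚ (AlgebraicClosure ℚ)) with hPb
  set lb := algebraMap ℚ (AlgebraicClosure ℚ) lam with hlb
  obtain ⟨R, hR⟩ := AW_wdata (lam := lb) hdeg htop hbez hlamA
  choose r s n hL using exists_Loc hR
  -- Galois facts
  have hgP : ∀ g : AlgebraicClosure ℚ ≃ₐ[ℚ] AlgebraicClosure ℚ,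
      Pb.map ((g : AlgebraicClosure ℚ ≃+* AlgebraicClosure ℚ) :
        AlgebraicClosure ℚ →+* AlgebraicClosure ℚ) = Pb := by
    intro g
    rw [hPb, Polynomial.map_map]
    congr 1
    ext q
    simp
  have hgl : ∀ g : AlgebraicClosure ℚ ≃ₐ[ℚ] AlgebraicClosure ℚ,
      (g : AlgebraicClosure ℚ ≃+* AlgebraicClosure ℚ) lb = lb := fun g => g.commutes lam
  have hgPx : ∀ (g : AlgebraicClosure ℚ ≃ₐ[ℚ] AlgebraicClosure ℚ) (x₀ : AlgebraicClosure ℚ),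
      Pb.eval ((g : AlgebraicClosure ℚ ≃+* AlgebraicClosure ℚ) x₀) = g (Pb.eval x₀) := by
    intro g x₀
    have := eval₂_at_apply (p := Pb) ((g : AlgebraicClosure ℚ ≃+* AlgebraicClosure ℚ) :
      AlgebraicClosure ℚ →+* AlgebraicClosure ℚ) x₀
    rw [← eval_map, hgP] at this
    exact this
  have hgfix : ∀ (g : AlgebraicClosure ℚ ≃ₐ[ℚ] AlgebraicClosure ℚ), g θ = θ → ∀ x₀ r s n,
      Loc m (AW m lb A) x₀ r s n →
      Loc m (AW m lb A) ((g : AlgebraicClosure ℚ ≃+* AlgebraicClosure ℚ) x₀) r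
        (s.map ((g : AlgebraicClosure ℚ ≃+* AlgebraicClosure ℚ) :
        AlgebraicClosure ℚ →+* AlgebraicClosure ℚ)) n := by
    intro g hg x₀ r s n h
    obtain ⟨c, hc, hcA⟩ := hfix g hg
    exact h.fix hc (mg_AW_of_fix (hgl g) hcA)
  have hgflip : ∀ (g : AlgebraicClosure ℚ ≃ₐ[ℚ] AlgebraicClosure ℚ), g θ = - θ →
      ∃ ρ, Flip Pb lb m A (g : AlgebraicClosure ℚ ≃+* AlgebraicClosure ℚ) ρ := by
    intro g hg
    obtain ⟨ρ, h1, h2⟩ := hflip g hg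
    exact ⟨ρ, hgl g, hgP g, h1, h2⟩
  have hpm : ∀ g : AlgebraicClosure ℚ ≃ₐ[ℚ] AlgebraicClosure ℚ, g θ = θ ∨ g θ = - θ := by
    intro g
    have h1 : (g θ) ^ 2 = θ ^ 2 := by rw [← map_pow, hθ, map_neg, map_ofNat]
    exact sq_eq_sq_iff_eq_or_eq_neg.1 h1
  have hsymm : ∀ g : AlgebraicClosure ℚ ≃ₐ[ℚ] AlgebraicClosure ℚ, g θ = - θ →
      g.symm θ = - θ := by
    intro g hg
    have := congrArg g.symm hg
    rw [AlgEquiv.symm_apply_apply, map_neg] at this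
    exact neg_eq_iff_eq_neg.1 this.symm
  -- transport by all flips
  have hloc : ∀ (g : AlgebraicClosure ℚ ≃ₐ[ℚ] AlgebraicClosure ℚ), g θ = - θ → ∀ x₀ r s n,
      Pb.eval x₀ ≠ 0 → Loc m (AW m lb A) x₀ r s n → 0 < r →
      ∃ s', (X - C (g x₀)) ^ r ∣ ((Pb - C lb ^ 2) * s.map
        (g : AlgebraicClosure ℚ →+* AlgebraicClosure ℚ) - C lb) * s' -
        (C lb * s.map (g : AlgebraicClosure ℚ →+* AlgebraicClosure ℚ) + 1) ∧
        Loc m (AW m lb A) (g x₀) r s' n := by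
    intro g hg x₀ r s n hx h hr
    obtain ⟨ρ, hρ⟩ := hgflip g hg
    obtain ⟨ρ', hρ'⟩ := hgflip g.symm (hsymm g hg)
    exact hρ.loc hρ' hdeg hlamA hx h hr
  have hPg : ∀ (g : AlgebraicClosure ℚ ≃ₐ[ℚ] AlgebraicClosure ℚ) (x₀ : AlgebraicClosure ℚ),
      Pb.eval x₀ ≠ 0 → Pb.eval (g x₀) ≠ 0 := by
    intro g x₀ h
    have := hgPx g x₀
    have h1 : (g : AlgebraicClosure ℚ ≃+* AlgebraicClosure ℚ) x₀ = g x₀ := rfl
    rw [h1] at this
    rw [this]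
    exact (map_ne_zero g).2 h
  have hle : ∀ (g : AlgebraicClosure ℚ ≃ₐ[ℚ] AlgebraicClosure ℚ), g θ = - θ → ∀ x₀,
      Pb.eval x₀ ≠ 0 → 0 < r x₀ → r (g x₀) = r x₀ ∧ n (g x₀) = n x₀ := by
    intro g hg x₀ hx hr
    obtain ⟨s', -, hs'⟩ := hloc g hg x₀ _ _ _ hx (hL x₀) hr
    have := (hL (g x₀)).unique hR hs'
    exact ⟨this.1, this.2.1⟩
  have hinv : ∀ (g : AlgebraicClosure ℚ ≃ₐ[ℚ] AlgebraicClosure ℚ) (x₀ : AlgebraicClosure ℚ),
      Pb.eval x₀ ≠ 0 → r (g x₀) = r x₀ ∧ n (g x₀) = n x₀ := by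
    intro g x₀ hx
    rcases hpm g with hg | hg
    · have := (hL (g x₀)).unique hR (hgfix g hg x₀ _ _ _ (hL x₀))
      exact ⟨this.1, this.2.1⟩
    · rcases Nat.eq_zero_or_pos (r x₀) with h0 | h0
      · rcases Nat.eq_zero_or_pos (r (g x₀)) with h1 | h1
        · have h2 := (hL x₀).1
          have h3 := (hL (g x₀)).1
          rw [h0] at h2
          rw [h1] at h3
          rw [h0, h1, h2.n_eq_zero hR, h3.n_eq_zero hR]
          exact ⟨rfl, rfl⟩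
        · have := hle g.symm (hsymm g hg) (g x₀) (hPg g x₀ hx) h1
          rw [AlgEquiv.symm_apply_apply] at this
          omega
      · exact hle g hg x₀ hx h0
  -- the finite set of the centres
  set S : Finset (AlgebraicClosure ℚ) :=
    R.roots.toFinset.filter (fun x₀ => Pb.eval x₀ ≠ 0 ∧ 0 < r x₀) with hSdef
  have hS : ∀ x₀, x₀ ∈ S ↔ Pb.eval x₀ ≠ 0 ∧ 0 < r x₀ := by
    intro x₀
    rw [hSdef, Finset.mem_filter, Multiset.mem_toFinset, mem_roots hR.ne]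
    refine ⟨fun h => h.2, fun h => ⟨?_, h⟩⟩
    have h1 := (hL x₀).pos h.2
    exact dvd_iff_isRoot.1 (dvd_trans (dvd_pow_self _ (by omega)) ((hL x₀).1.bound hR))
  obtain ⟨σ, hσ⟩ := exists_crt S r s
  have hLσ : ∀ x₀, Pb.eval x₀ ≠ 0 → Loc m (AW m lb A) x₀ (r x₀) σ (n x₀) := by
    intro x₀ hx
    refine (hL x₀).congr ?_
    by_cases h : x₀ ∈ S
    · exact hσ x₀ h
    · have : r x₀ = 0 := by
        by_contra h0
        exact h ((hS x₀).2 ⟨hx, Nat.pos_of_ne_zero h0⟩)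
      rw [this, pow_zero]; exact one_dvd _
  have hSg : ∀ (g : AlgebraicClosure ℚ ≃ₐ[ℚ] AlgebraicClosure ℚ) (x₀ : AlgebraicClosure ℚ),
      x₀ ∈ S → g x₀ ∈ S := by
    intro g x₀ h
    rw [hS] at h ⊢
    exact ⟨hPg g x₀ h.1, by rw [(hinv g x₀ h.1).1]; exact h.2⟩
  have hSg' : ∀ (g : AlgebraicClosure ℚ ≃ₐ[ℚ] AlgebraicClosure ℚ) (x₀ : AlgebraicClosure ℚ),
      x₀ ∈ S ↔ (g : AlgebraicClosure ℚ ≃+* AlgebraicClosure ℚ) x₀ ∈ S := by
    intro g x₀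
    refine ⟨hSg g x₀, fun h => ?_⟩
    have := hSg g.symm _ h
    have h1 : g.symm ((g : AlgebraicClosure ℚ ≃+* AlgebraicClosure ℚ) x₀) = x₀ :=
      g.symm_apply_apply x₀
    rwa [h1] at this
  obtain ⟨Q, hQ⟩ := exists_rat_poly (q := ∏ x ∈ S, (X - C x) ^ r x) fun g =>
    prod_pi_map _ (hSg' g) fun x hx => (hinv g x ((hS x).1 hx).1).1
  obtain ⟨Θ, hΘ⟩ := exists_rat_poly (q := ∏ x ∈ S, (X - C x) ^ n x) fun g =>
    prod_pi_map _ (hSg' g) fun x hx => (hinv g x ((hS x).1 hx).1).2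
  have hmapne : ∀ (a : ℚ[X]) (e : AlgebraicClosure ℚ → ℕ),
      a.map (algebraMap ℚ (AlgebraicClosure ℚ)) = ∏ x ∈ S, (X - C x) ^ e x →
      a ≠ 0 ∧ IsCoprime P a := by
    intro a e ha
    constructor
    · rintro rfl
      rw [Polynomial.map_zero] at ha
      exact prod_pi_ne ha.symm
    · rw [← isCoprime_map (algebraMap ℚ (AlgebraicClosure ℚ)), ha]
      exact prod_pi_coprime fun x hx => ((hS x).1 hx).1
  refine ⟨Q, Θ, σ, (hmapne Q _ hQ).1, (hmapne Θ _ hΘ).1, (hmapne Q _ hQ).2, (hmapne Θ _ hΘ).2,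
    ?_, ?_, ?_, ?_⟩
  · intro i
    rw [hev_eq_comp, hΘ]
    refine C_prod_pi_dvd fun x hx => ?_
    obtain ⟨Q', hQ', -⟩ := exists_split S r x (fun h => absurd hx h)
    have h1 := (hLσ x ((hS x).1 hx).1).1 i
    have h2 := comp_lin (AW m lb A i) ((X - C x) ^ r x) Q' σ 0
    rw [mul_zero, add_zero] at h2
    rw [hQ, hQ', h2]
    exact dvd_comp_of_dvd h1
  · intro g hg
    rw [hQ]
    refine prod_pi_dvd fun x hx => ?_
    have hx' := hSg g.symm x hx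
    have h1 := hgfix g hg _ _ _ _ (hLσ (g.symm x) ((hS _).1 hx').1)
    have hgg : (g : AlgebraicClosure ℚ ≃+* AlgebraicClosure ℚ) (g.symm x) = x :=
      g.apply_symm_apply x
    rw [hgg] at h1
    exact ((hLσ x ((hS x).1 hx).1).unique hR h1).2.2
  · intro g hg
    rw [hQ]
    refine prod_pi_dvd fun x hx => ?_
    have hx' := hSg g.symm x hx
    obtain ⟨s', hs', hL'⟩ := hloc g hg _ _ _ _ ((hS _).1 hx').1
      (hLσ (g.symm x) ((hS _).1 hx').1) ((hS _).1 hx').2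
    rw [g.apply_symm_apply] at hs' hL'
    have h1 := hL'.unique hR (hLσ x ((hS x).1 hx).1)
    rw [h1.1] at hs' h1
    obtain ⟨a, ha⟩ := hs'
    obtain ⟨b, hb⟩ := h1.2.2
    set D := ((Pb - C lb ^ 2) * σ.map
        (g : AlgebraicClosure ℚ →+* AlgebraicClosure ℚ) - C lb) with hD
    refine ⟨D * b + a, ?_⟩
    linear_combination D * hb + ha
  · intro x₀ hx
    have hLx := hLσ x₀ hx
    choose B hB using hLx.1
    have hzero : x₀ ∉ S → r x₀ = 0 := by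
      intro h
      by_contra h0
      exact h ((hS x₀).2 ⟨hx, Nat.pos_of_ne_zero h0⟩)
    have hzero' : x₀ ∉ S → n x₀ = 0 := by
      intro h
      have h2 := (hL x₀).1
      rw [hzero h] at h2
      exact h2.n_eq_zero hR
    obtain ⟨Q', hQ', hQ'0⟩ := exists_split S r x₀ hzero
    obtain ⟨Θ', hΘ', hΘ'0⟩ := exists_split S n x₀ hzero'
    refine ⟨B, r x₀, n x₀, Q', Θ', by rw [hQ, hQ'], hQ'0, by rw [hΘ, hΘ'], hΘ'0,
      hLx.good hR hB, fun i => ?_⟩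
    rw [hev_eq_comp, hB i]

end Pool.Agent.H48.SymDP
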