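import Pool.Agent.H48.SymDP.Irr.Red
import Pool.Agent.H54.NF

/-!
# The representation with respect to the second structure
-/

open Polynomial

namespace Pool.Agent.H48.SymDP

section

variable {k L : Type} [Field k] [Field L] [Algebra k L]

/-- The map `k[X] → k(x)`. -/
noncomputable def toAdj (x : L) : k[X] →+* IntermediateField.adjoin k {x} :=
  ((aeval (⟨x, IntermediateField.mem_adjoin_simple_self k x⟩ : IntermediateField.adjoin k {x}) :
    k[X] →ₐ[k] IntermediateField.adjoin k {x}) : k[X] →+* IntermediateField.adjoin k {x})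

lemma coe_toAdj (x : L) (a : k[X]) : ((toAdj x a : IntermediateField.adjoin k {x}) : L) =
    aeval x a := by
  have := aeval_algebraMap_apply L
    (⟨x, IntermediateField.mem_adjoin_simple_self k x⟩ : IntermediateField.adjoin k {x}) a
  exact this.symm

lemma exists_denom (x : L) (B : (IntermediateField.adjoin k {x})[X]) :
    ∃ (c : k[X]) (A : k[X][X]), toAdj x c ≠ 0 ∧ A.map (toAdj x) = C (toAdj x c) * B := by
  induction B using Polynomial.induction_on' with
  | add p q hp hq =>
    obtain ⟨c, A, hc, hA⟩ := hp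
    obtain ⟨c', A', hc', hA'⟩ := hq
    refine ⟨c * c', C c' * A + C c * A', by rw [map_mul]; exact mul_ne_zero hc hc', ?_⟩
    rw [Polynomial.map_add, Polynomial.map_mul, Polynomial.map_mul, hA, hA', map_C, map_C,
      map_mul, C_mul]
    ring
  | monomial n a =>
    obtain ⟨r, s, hrs⟩ := (IntermediateField.mem_adjoin_simple_iff k _).1 a.2
    by_cases hs : aeval x s = 0
    · refine ⟨1, 0, by simp, ?_⟩
      rw [hs, div_zero] at hrs
      have : a = 0 := Subtype.ext hrs
      simp [this]
    · refine ⟨s, monomial n r, ?_, ?_⟩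
      · intro h0
        apply hs
        rw [← coe_toAdj, h0]; rfl
      · rw [Polynomial.map_monomial, C_mul_monomial]
        congr 1
        apply Subtype.ext
        rw [coe_toAdj]
        have : ((toAdj x s * a : IntermediateField.adjoin k {x}) : L) = aeval x s * (a : L) := by
          rw [← coe_toAdj]; rfl
        rw [this, hrs]
        field_simp

lemma ev_eq_aeval_map (x w : L) (A : k[X][X]) : ev x w A = aeval w (A.map (toAdj x)) := by
  rw [aeval_def, eval₂_map, ev, coe_eval₂RingHom]
  congr 1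
  ext a
  · simp [toAdj]
  · simp [toAdj]

lemma toAdj_injective {x w : L} (hinj : Function.Injective (ev x w : k[X][X] →+* L)) :
    Function.Injective (toAdj x : k[X] →+* IntermediateField.adjoin k {x}) := by
  intro a b hab
  have : ev x w (C a) = ev x w (C b) := by
    rw [ev_C, ev_C, ← coe_toAdj, ← coe_toAdj, hab]
  exact C_injective (hinj this)

theorem new_rep {x' w' u : L}
    (hgen : IntermediateField.adjoin k {x', w'} = ⊤)
    (hinj : Function.Injective (ev x' w' : k[X][X] →+* L)) {x : L} (hx0 : x ≠ 0)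
    (a₀ a₁ a₂ a₃ : k[X]) (ha₃ : aeval x' a₃ ≠ 0)
    (hrel : aeval x' a₃ * x * w' = aeval x' a₀ + aeval x' a₁ * w' + aeval x' a₂ * w' ^ 2)
    (b : Fin 2 → L) (n : ℕ) (hb0 : b 0 ≠ 0) (hb1 : b 1 = u * b 0)
    (hE : ∀ E : PL k L, (∀ c ∈ IntermediateField.adjoin k {x'}, c ≠ 0 → E.ord c = 0) →
      ∀ i, (0 ≤ E.ord x → E.ge 0 (b i)) ∧ (E.ord x = -1 → E.ge (-n) (b i))) :
    ∃ A : Fin 2 → k[X][X], ev x' w' (A 0) ≠ 0 ∧ ev x' w' (A 1) = u * ev x' w' (A 0) ∧
      ∀ i, (A i).natDegree ≤ 2 * n := by
  have htinj := toAdj_injective hinj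
  have hw' : w' ≠ 0 := by
    intro h0
    have : ev x' w' (X : k[X][X]) = ev x' w' (0 : k[X][X]) := by simp [h0]
    exact X_ne_zero (hinj this)
  have htr : Transcendental (IntermediateField.adjoin k {x'}) w' := by
    rintro ⟨B, hB0, hB⟩
    obtain ⟨c, A, hc, hA⟩ := exists_denom x' B
    have h1 : ev x' w' A = ev x' w' (0 : k[X][X]) := by
      rw [ev_eq_aeval_map, hA, map_mul, hB, mul_zero, map_zero]
    have h2 := hinj h1
    rw [h2, Polynomial.map_zero] at hA
    exact mul_ne_zero (C_ne_zero.2 hc) hB0 hA.symm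
  have hgen' : IntermediateField.adjoin (IntermediateField.adjoin k {x'}) {w'} = ⊤ := by
    have h1 := IntermediateField.adjoin_adjoin_left k {x'} {w'}
    rw [show ({x'} ∪ {w'} : Set L) = {x', w'} from rfl, hgen] at h1
    exact IntermediateField.restrictScalars_eq_top_iff.1 h1
  have hdeg : ∀ i, ∃ B : (IntermediateField.adjoin k {x'})[X], B.natDegree ≤ 2 * n ∧
      b i * w' ^ n = aeval w' B := by
    intro i
    refine deg_lemma w' htr hgen' x (b i) n
      (C ((toAdj x' a₃)⁻¹) * (C (toAdj x' a₀) + C (toAdj x' a₁) * X + C (toAdj x' a₂) * X ^ 2))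
      ?_ hx0 ?_ ?_
    · refine (natDegree_C_mul_le _ _).trans ?_
      compute_degree
    · have h3 : ((toAdj x' a₃)⁻¹ : IntermediateField.adjoin k {x'}) • (1 : L) =
          (aeval x' a₃)⁻¹ := by
        rw [Algebra.smul_def, mul_one, map_inv₀]
        congr 1
        exact coe_toAdj x' a₃
      have h4 : ∀ a : k[X], algebraMap (IntermediateField.adjoin k {x'}) L (toAdj x' a) =
          aeval x' a := fun a => coe_toAdj x' a
      simp only [map_mul, map_add, map_pow, aeval_C, aeval_X, map_inv₀, h4]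
      rw [← hrel]
      field_simp
    · intro E
      set E' : PL k L :=
        { ord := E.ord
          ord_mul := E.ord_mul
          ord_add := E.ord_add
          ord_base := fun c hc => by
            have := E.ord_base (algebraMap k (IntermediateField.adjoin k {x'}) c)
              ((map_ne_zero_iff _ (FaithfulSMul.algebraMap_injective _ _)).2 hc)
            rwa [← IsScalarTower.algebraMap_apply] at this } with hE'
      have h5 := hE E' (fun c hc hc0 => by
        have := E.ord_base ⟨c, hc⟩ (fun h => hc0 (congrArg Subtype.val h))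
        exact this) i
      exact h5
  choose B hB hB' using hdeg
  obtain ⟨c₀, A₀, hc₀, hA₀⟩ := exists_denom x' (B 0)
  obtain ⟨c₁, A₁, hc₁, hA₁⟩ := exists_denom x' (B 1)
  have hev : ∀ a : k[X], algebraMap (IntermediateField.adjoin k {x'}) L (toAdj x' a) =
      aeval x' a := fun a => coe_toAdj x' a
  have hne : ∀ a : k[X], toAdj x' a ≠ 0 → aeval x' a ≠ 0 := by
    intro a ha h0
    apply ha
    apply Subtype.ext
    rw [coe_toAdj, h0]; rfl
  have e0 : ev x' w' A₀ = aeval x' c₀ * (b 0 * w' ^ n) := by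
    rw [ev_eq_aeval_map, hA₀, map_mul, aeval_C, hev, hB' 0]
  have e1 : ev x' w' A₁ = aeval x' c₁ * (b 1 * w' ^ n) := by
    rw [ev_eq_aeval_map, hA₁, map_mul, aeval_C, hev, hB' 1]
  refine ⟨![C c₁ * A₀, C c₀ * A₁], ?_, ?_, ?_⟩
  · simp only [Matrix.cons_val_zero, map_mul, ev_C, e0]
    exact mul_ne_zero (hne _ hc₁) (mul_ne_zero (hne _ hc₀) (mul_ne_zero hb0 (pow_ne_zero _ hw')))
  · simp only [Matrix.cons_val_zero, Matrix.cons_val_one, map_mul, ev_C, e0, e1, hb1]
    ring
  · have hd : ∀ (c : k[X]) (A : k[X][X]) (D : (IntermediateField.adjoin k {x'})[X])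
        (c' : k[X]), A.map (toAdj x') = C (toAdj x' c') * D → D.natDegree ≤ 2 * n →
        (C c * A).natDegree ≤ 2 * n := by
      intro c A D c' h1 h2
      refine (natDegree_C_mul_le _ _).trans ?_
      rw [← natDegree_map_eq_of_injective htinj A, h1]
      exact (natDegree_C_mul_le _ _).trans h2
    intro i
    fin_cases i
    · exact hd c₁ A₀ (B 0) c₀ hA₀ (hB 0)
    · exact hd c₀ A₁ (B 1) c₁ hA₁ (hB 1)

end

end Pool.Agent.H48.SymDP
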