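import Pool.Agent.H48.SymDP.Irr.Field
import Pool.Agent.H48.SymDP.Irr.Bezout
import Pool.Agent.H48.SymDP.Irr.Lambda
import Pool.Agent.H48.SymDP.Irr.Chart
import Pool.Agent.H48.SymDP.Irr.NewRep
import Pool.Agent.H54.NF
import Pool.Agent.H38.SymDP.CaseI
import Pool.Agent.H60.PlaceBound
import Pool.Agent.H88.SymDP.Sections
import Pool.Agent.H54.F12
import Pool.Agent.H13.SymDP.NotConst
import Pool.Agent.H95.SymDP.Normalize
import Pool.Agent.H33.SymDP.Prop
import Pool.Agent.H60.ConicNextMain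
import Pool.Agent.H48.SymDP.Irr.ModelExists

/-!
# There is no conic structure on `ℚ̄(u, v)`
-/

open Polynomial

namespace Pool.Agent.H48.SymDP

section

variable {θ : AlgebraicClosure ℚ} {κ₁ : ℚ} {x y z : RatFunc (RatFunc (AlgebraicClosure ℚ))}

lemma aeval_PK (κ₁ : ℚ) (x : RatFunc (RatFunc (AlgebraicClosure ℚ))) :
    aeval x (PK (AlgebraicClosure ℚ) κ₁) =
      algebraMap (AlgebraicClosure ℚ) _ (algebraMap ℚ (AlgebraicClosure ℚ) κ₁) *
        (x ^ 3 + 2) := by
  rw [PK_eq]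
  simp [map_ofNat]

lemma Conic.mul_eq (h : Conic θ κ₁ x y z) :
    (y + algebraMap (AlgebraicClosure ℚ) _ θ * z) *
      (y - algebraMap (AlgebraicClosure ℚ) _ θ * z) =
      aeval x (PK (AlgebraicClosure ℚ) κ₁) := by
  have hθ : (algebraMap (AlgebraicClosure ℚ) (RatFunc (RatFunc (AlgebraicClosure ℚ))) θ) ^ 2
      = -3 := by
    rw [← map_pow, h.theta, map_neg, map_ofNat]
  rw [aeval_PK, ← h.rel]
  linear_combination (- z ^ 2) * hθ

lemma Conic.inj (h : Conic θ κ₁ x y z) :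
    Function.Injective (ev x (y + algebraMap (AlgebraicClosure ℚ) _ θ * z) :
      (AlgebraicClosure ℚ)[X][X] →+* _) :=
  ev_injective x _ h.gen

lemma Conic.ctx (h : Conic θ κ₁ x y z) :
    Ctx θ gL κ₁ x (y + algebraMap (AlgebraicClosure ℚ) _ θ * z) where
  theta := h.theta
  kappa := h.kappa
  tau := gL_algebraMap
  x_fix := h.x_fix
  w_fix := fun g hg => by
    rw [map_add, map_mul, h.y_fix, h.z_fix, gL_algebraMap, hg]
  w_flip := fun g hg => by
    have hw : (y + algebraMap (AlgebraicClosure ℚ) _ θ * z) ≠ 0 := by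
      intro h0
      have : ev x (y + algebraMap (AlgebraicClosure ℚ) _ θ * z)
          (X : (AlgebraicClosure ℚ)[X][X]) =
          ev x (y + algebraMap (AlgebraicClosure ℚ) _ θ * z)
            (0 : (AlgebraicClosure ℚ)[X][X]) := by
        rw [ev_X, h0, map_zero]
      exact X_ne_zero (h.inj this)
    rw [map_add, map_mul, h.y_fix, h.z_fix, gL_algebraMap, hg, ← h.mul_eq, map_neg]
    refine (eq_div_iff (G₀ := RatFunc (RatFunc (AlgebraicClosure ℚ))) hw).2 ?_
    ring
  inj := h.inj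

end

lemma val_ne_zero {k L : Type*} [Field k] [Field L] [Algebra k L] {P : k[X]} (hP : P ≠ 0)
    {x w : L} (hinj : Function.Injective (ev x w : k[X][X] →+* L)) {s : Fin 3 → k[X]}
    (hs : s ≠ 0) : val P x w s ≠ 0 := by
  intro h0
  have hw : w ≠ 0 := by
    intro h1
    have : ev x w (X : k[X][X]) = ev x w (0 : k[X][X]) := by simp [h1]
    exact X_ne_zero (hinj this)
  have h1 : ev x w (C (s 1) * X ^ 2 + C (s 0) * X + C (s 2 * P) : k[X][X]) =
      ev x w (0 : k[X][X]) := by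
    simp only [map_add, map_mul, map_pow, ev_C, ev_X, map_zero]
    have h2 := congrArg (fun a => a * w) h0
    simp only [val, zero_mul] at h2
    rw [← h2]
    field_simp
    ring
  have h2 := hinj h1
  apply hs
  have e0 := congrArg (fun q => coeff q 0) h2
  have e1 := congrArg (fun q => coeff q 1) h2
  have e2 := congrArg (fun q => coeff q 2) h2
  simp only [coeff_add, coeff_C_mul, coeff_X_pow, coeff_X, coeff_C, coeff_zero] at e0 e1 e2
  norm_num at e0 e1 e2
  ext j : 1
  fin_cases j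
  · exact e1
  · exact e2
  · exact e0.resolve_right hP

lemma frac_ne {L : Type*} [Field L] {a b c d e : L} {m : ℕ} (ha : a ≠ 0) (hb : b ≠ 0)
    (hc : c ≠ 0) (hd : d ≠ 0) (he : e ≠ 0) : a ^ m * b / (c * d ^ m * (e / a) ^ m) ≠ 0 :=
  div_ne_zero (mul_ne_zero (pow_ne_zero _ ha) hb)
    (mul_ne_zero (mul_ne_zero hc (pow_ne_zero _ hd)) (pow_ne_zero _ (div_ne_zero he ha)))

/-- The descent. -/
theorem no_conic_aux (θ : AlgebraicClosure ℚ) : ∀ (n : ℕ) (κ₁ : ℚ)
    (x y z : RatFunc (RatFunc (AlgebraicClosure ℚ))), Conic θ κ₁ x y z →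
    ∀ A₀ : Fin 2 → (AlgebraicClosure ℚ)[X][X],
      ev x (y + algebraMap (AlgebraicClosure ℚ) _ θ * z) (A₀ 0) ≠ 0 →
      ev x (y + algebraMap (AlgebraicClosure ℚ) _ θ * z) (A₀ 1) =
        RatFunc.C (RatFunc.X : RatFunc (AlgebraicClosure ℚ)) *
          ev x (y + algebraMap (AlgebraicClosure ℚ) _ θ * z) (A₀ 0) →
      (∀ i, (A₀ i).natDegree ≤ n) → False := by
  intro n
  induction n using Nat.strong_induction_on with
  | _ n ih =>
  intro κ₁ x y z h A₀ hA₀0 hA₀1 hA₀n
  set w := y + algebraMap (AlgebraicClosure ℚ) _ θ * z with hw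
  set P := PK (AlgebraicClosure ℚ) κ₁ with hP
  have hctx : Ctx θ gL κ₁ x w := h.ctx
  have hinj := hctx.inj
  have hu : ∀ g, gL g (RatFunc.C (RatFunc.X : RatFunc (AlgebraicClosure ℚ))) =
      RatFunc.C (RatFunc.X : RatFunc (AlgebraicClosure ℚ)) := gL_u
  obtain ⟨A, N, hNn, hA⟩ := exists_red x w _ h.gen A₀ n hA₀0 hA₀1 hA₀n
  obtain ⟨m, rfl, ho⟩ := hctx.even hu hA
  have hA0 : ev x w (A 0) ≠ 0 := by
    intro h0
    exact hA.ne (hinj (by rw [h0, map_zero]))
  -- the case `m = 0`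
  rcases Nat.eq_zero_or_pos m with rfl | hm
  · have hC : ∀ i, A i = C ((A i).coeff 0) := fun i =>
      eq_C_of_natDegree_eq_zero (Nat.le_zero.1 (hA.natDegree_le i))
    have h1 := hA.rel
    rw [hC 0, hC 1, ev_C, ev_C] at h1
    refine h.not_const ((A 1).coeff 0) ((A 0).coeff 0) ?_ h1.symm
    rw [hC 0, ev_C] at hA0
    exact hA0
  obtain ⟨δ, hδ, hgoodinf, hinf⟩ := hctx.infinity hu hA ho
  obtain ⟨C₀, C₁, R, hR, hbez⟩ := exists_bezout hA.ne hA.relPrime
  obtain ⟨lam, hlam, hlamA⟩ := exists_lam hA.relPrime hR hbez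
  obtain ⟨Q, Θ, σ, hQ, hΘ, hPQ, hPΘ, hdiv, hfix, hflip, hchart⟩ :=
    exists_model θ h.theta (PP κ₁) (PP_ne h.kappa) lam hlam m hm A hA.natDegree_le hA.top
      ⟨C₀, C₁, R, hR, hbez⟩ hlamA
      (fun g hg => hA.fix hinj (g := (g : AlgebraicClosure ℚ →+* AlgebraicClosure ℚ))
        (hctx.tau g) (hctx.x_fix g) (hu g) (hctx.w_fix g hg))
      (fun g hg => by
        obtain ⟨ρ, -, hρ1, -, hρ2⟩ := hctx.flip' hu hA ho g hg
        exact ⟨ρ, hρ1, hρ2⟩)
  set lam' := algebraMap ℚ (AlgebraicClosure ℚ) lam with hlam'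
  set Q' := Q.map (algebraMap ℚ (AlgebraicClosure ℚ)) with hQ'
  set Θ' := Θ.map (algebraMap ℚ (AlgebraicClosure ℚ)) with hΘ'
  have hQ'0 : Q' ≠ 0 := (Polynomial.map_ne_zero_iff (algebraMap ℚ _).injective).2 hQ
  have hΘ'0 : Θ' ≠ 0 := (Polynomial.map_ne_zero_iff (algebraMap ℚ _).injective).2 hΘ
  have hPQ' : IsCoprime P Q' := hPQ.map (mapRingHom (algebraMap ℚ (AlgebraicClosure ℚ)))
  have hPΘ' : IsCoprime P Θ' := hPΘ.map (mapRingHom (algebraMap ℚ (AlgebraicClosure ℚ)))
  choose B hB using hdiv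
  have hBdeg : ∀ i, (B i).natDegree ≤ 2 * m := by
    intro i
    have h1 : (hev (2 * m) (A i) (C (C lam') * (C σ + C Q' * X) + 1 :
        (AlgebraicClosure ℚ)[X][X]) (C σ + C Q' * X)).natDegree ≤ 2 * m := by
      have h2 := natDegree_hevr_le (2 * m) (A i) (C lam' * Q') (C lam' * σ + 1) Q' σ
      have h3 : (C (C lam' * Q') * X + C (C lam' * σ + 1) : (AlgebraicClosure ℚ)[X][X]) =
          C (C lam') * (C σ + C Q' * X) + 1 := by
        simp only [map_mul, map_add, map_one]; ring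
      have h4 : (C Q' * X + C σ : (AlgebraicClosure ℚ)[X][X]) = C σ + C Q' * X := by ring
      rw [h3, h4] at h2
      exact h2
    rw [hB i] at h1
    by_cases hBi : B i = 0
    · simp [hBi]
    · rw [natDegree_mul (C_ne_zero.2 hΘ'0) hBi, natDegree_C, zero_add] at h1
      exact h1
  have M : Model P m A lam' Q' σ Θ' B :=
    { natDegree_le := hA.natDegree_le
      dvd_coeff := fun i j hj => dvd_of_orders h.kappa ho i hj
      Q_ne := hQ'0
      Th_ne := hΘ'0
      coprime_Q := hPQ'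
      coprime_Th := hPΘ'
      natDegree_B_le := hBdeg
      rel := hB }
  have hP3 : P.natDegree = 3 := natDegree_PK h.kappa
  have hQdeg : Q'.natDegree = Q.natDegree := natDegree_map _
  -- the case of nonnegative `b'`
  by_cases hb : 4 * m + Θ'.natDegree ≤ δ + m * Q'.natDegree
  · refine nf x w h.gen m hm A hA0 hA.rel hA.natDegree_le hA.top ⟨C₀, C₁, R, hR, hbez⟩
      (Q' ^ m) Θ' (pow_ne_zero _ hQ'0) hΘ'0 ?_ δ (atInf m δ A) hgoodinf hinf
      (by rw [natDegree_pow]; exact hb)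
    intro x₀
    have hunit : ∀ D : (AlgebraicClosure ℚ)[X], IsCoprime P D → P.eval x₀ = 0 →
        D.eval x₀ ≠ 0 := by
      rintro D ⟨a, b, hab⟩ h0 h1
      have := congrArg (eval x₀) hab
      simp [h0, h1] at this
    by_cases hx₀ : P.eval x₀ = 0
    · refine ⟨A, w, Θ', Q' ^ m, hunit _ hPΘ' hx₀, ?_, ?_, ?_⟩
      · rw [eval_pow]; exact pow_ne_zero _ (hunit _ hPQ' hx₀)
      · exact good_root hA.natDegree_le hA.relPrime (ho x₀ hx₀)
      · intro D _
        refine ⟨id, fun i => ?_⟩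
        rw [mul_comm Θ' (Q' ^ m)]
    · obtain ⟨B', r, n', Q₁, Θ₁, hQ₁, hQ₁0, hΘ₁, hΘ₁0, hgood, hrel⟩ := hchart x₀ hx₀
      have hwl : w - algebraMap (AlgebraicClosure ℚ) _ lam' ≠ 0 := by
        intro h0
        have : ev x w (X - C (C lam') : (AlgebraicClosure ℚ)[X][X]) =
            ev x w (0 : (AlgebraicClosure ℚ)[X][X]) := by
          simp [h0]
        exact X_sub_C_ne_zero _ (hinj this)
      have hp : aeval x ((X - C x₀) ^ r : (AlgebraicClosure ℚ)[X]) ≠ 0 := by
        intro h0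
        have : ev x w (C ((X - C x₀) ^ r) : (AlgebraicClosure ℚ)[X][X]) =
            ev x w (0 : (AlgebraicClosure ℚ)[X][X]) := by
          rw [ev_C, h0, map_zero]
        exact C_ne_zero.2 (pow_ne_zero _ (X_sub_C_ne_zero _)) (hinj this)
      refine ⟨B', ((w - algebraMap (AlgebraicClosure ℚ) _ lam')⁻¹ - aeval x σ) /
        aeval x ((X - C x₀) ^ r : (AlgebraicClosure ℚ)[X]), Θ₁, C ((-1) ^ m) * Q₁ ^ m,
        hΘ₁0, ?_, hgood, ?_⟩
      · rw [eval_mul, eval_C, eval_pow]
        exact mul_ne_zero (pow_ne_zero _ (by norm_num)) (pow_ne_zero _ hQ₁0)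
      · intro D hD
        refine ⟨fun hDw hDw' => ?_, fun i => ?_⟩
        · have := der_chart (σ := σ) D hD hp hwl
          rw [hDw', zero_mul] at this
          exact hDw (neg_eq_zero.1 this.symm)
        · exact chart_rel (hA.natDegree_le i) (hrel i) hp hwl hQ₁ hΘ₁ D hD
  -- the case of negative `b'`
  · obtain ⟨s, t, hli, hst⟩ := exists_sections θ h.theta (PP κ₁) Q lam σ hQ hPQ hfix hflip
    have hs := hst s (by simp)
    have ht := hst t (by simp)
    by_cases hcr : crs (rf θ s) (rf θ t) = 0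
    · obtain ⟨s₀, e, he, hs₀, hd0, hd1, hd2, hdsc⟩ :=
        proportional θ h.theta κ₁ h.kappa Q hQ hPQ lam σ s t hli hs ht hcr
      apply hb
      exact caseI hP3 M hδ hA.top ⟨C₀, C₁, R, hR, hbez⟩ s₀ hs₀ (by rw [hQdeg]; exact hd0)
        (by rw [hQdeg]; exact hd1) (by rw [hQdeg]; exact hd2) e he hdsc
    · obtain ⟨s', t', Δ, l₀, l₁, μ₀, μ₁, c, d, hΔ, hl, hc, hcμ, hst', hdt, h11, h12, h22⟩ :=
        normalize θ h.theta κ₁ h.kappa Q hQ hPQ lam σ s t hs ht hcr
      obtain ⟨κ₂, x', y', z', h', hval, a₀, a₁, a₂, a₃, ha₃, hx'⟩ :=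
        h.next Q hQ s' t' Δ l₀ l₁ μ₀ μ₁ c d hΔ hl hc hcμ hdt h11 h12 h22
      obtain ⟨hs1, hs2, hs3, hs4⟩ := hst' s' (by simp)
      obtain ⟨ht1, ht2, ht3, ht4⟩ := hst' t' (by simp)
      have hrfdeg : ∀ r : Fin 3 → ℚ[X], (r 0).degree < ((Q.natDegree + 2 : ℕ) : WithBot ℕ) →
          (r 1).degree < (Q.natDegree : WithBot ℕ) → (r 2).degree < (Q.natDegree : WithBot ℕ) →
          (rf θ r 0).degree < ((Q'.natDegree + 2 : ℕ) : WithBot ℕ) ∧
          (rf θ r 1).degree < (Q'.natDegree : WithBot ℕ) ∧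
          (rf θ r 2).degree < (Q'.natDegree : WithBot ℕ) := by
        intro r h0 h1 h2
        rw [hQdeg]
        have h2' : (C θ * (r 2).map (algebraMap ℚ (AlgebraicClosure ℚ))).degree <
            (Q.natDegree : WithBot ℕ) := by
          refine lt_of_le_of_lt ?_ h2
          rw [← smul_eq_C_mul]
          exact (degree_smul_le _ _).trans degree_map_le
        refine ⟨?_, ?_, ?_⟩
        · have : (rf θ r 0) = (r 0).map (algebraMap ℚ (AlgebraicClosure ℚ)) := by simp [rf]
          rw [this]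
          exact lt_of_le_of_lt degree_map_le h0
        · have : (rf θ r 1) = (r 1).map (algebraMap ℚ (AlgebraicClosure ℚ)) +
            C θ * (r 2).map (algebraMap ℚ (AlgebraicClosure ℚ)) := by simp [rf]
          rw [this]
          exact lt_of_le_of_lt (degree_add_le _ _)
            (max_lt (lt_of_le_of_lt degree_map_le h1) h2')
        · have : (rf θ r 2) = (r 1).map (algebraMap ℚ (AlgebraicClosure ℚ)) -
            C θ * (r 2).map (algebraMap ℚ (AlgebraicClosure ℚ)) := by simp [rf]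
          rw [this]
          exact lt_of_le_of_lt (degree_sub_le _ _)
            (max_lt (lt_of_le_of_lt degree_map_le h1) h2')
      obtain ⟨ds0, ds1, ds2⟩ := hrfdeg s' hs2 hs3 hs4
      obtain ⟨dt0, dt1, dt2⟩ := hrfdeg t' ht2 ht3 ht4
      have hΔ' : algebraMap ℚ (AlgebraicClosure ℚ) Δ ≠ 0 :=
        (map_ne_zero_iff _ (algebraMap ℚ _).injective).2 hΔ
      set b : Fin 2 → RatFunc (RatFunc (AlgebraicClosure ℚ)) := fun i =>
        (aeval x Q') ^ m * ev x w (A i) /
          (aeval x Θ' * w ^ m * (val P x w (rf θ s') / aeval x Q') ^ m) with hbdef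
      have hne : ∀ a : (AlgebraicClosure ℚ)[X], a ≠ 0 → aeval x a ≠ 0 := by
        intro a ha h0
        have : ev x w (C a) = ev x w (0 : (AlgebraicClosure ℚ)[X][X]) := by
          rw [ev_C, h0, map_zero]
        exact C_ne_zero.2 ha (hinj this)
      have hvs : val P x w (rf θ s') ≠ 0 := by
        apply val_ne_zero (PK_ne h.kappa) hinj
        intro h0
        rw [h0] at hdt
        have h1 : dt (0 : Fin 3 → (AlgebraicClosure ℚ)[X]) (rf θ t')
            (brk (PK (AlgebraicClosure ℚ) κ₁) 0 (rf θ t')) = 0 := by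
          simp [dt]
        rw [h1] at hdt
        exact mul_ne_zero (C_ne_zero.2 hΔ') (pow_ne_zero 4 hQ'0) hdt.symm
      have hb0 : b 0 ≠ 0 := by
        exact frac_ne (hne _ hQ'0) hA0 (hne _ hΘ'0) hctx.w_ne hvs
      have hb1 : b 1 = RatFunc.C (RatFunc.X : RatFunc (AlgebraicClosure ℚ)) * b 0 := by
        simp only [hbdef]
        rw [hA.rel]; ring
      set N : ℤ := (m : ℤ) + (δ - 4 * m + m * Q'.natDegree - Θ'.natDegree) with hN
      have hNm : N < m := by
        have : (δ : ℤ) + m * Q'.natDegree < 4 * m + Θ'.natDegree := by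
          exact_mod_cast not_le.1 hb
        omega
      obtain ⟨A', hA'0, hA'1, hA'deg⟩ := new_rep h'.gen h'.inj hctx.x_ne a₀ a₁ a₂ a₃ ha₃ hx'
        b N.toNat hb0 hb1 (by
          intro E hE i
          have hτ : E.ge 0 (val P x w (rf θ t') / val P x w (rf θ s')) := by
            have h1 : val P x w (rf θ t') / val P x w (rf θ s') =
                aeval x' ((C l₁ * X + C l₀ : ℚ[X]).map (algebraMap ℚ (AlgebraicClosure ℚ))) := by
              refine (div_eq_iff (G₀ := RatFunc (RatFunc (AlgebraicClosure ℚ))) hvs).2 ?_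
              rw [mul_comm]; exact hval
            rw [h1]
            by_cases h2 : aeval x' ((C l₁ * X + C l₀ : ℚ[X]).map
                (algebraMap ℚ (AlgebraicClosure ℚ))) = 0
            · exact Or.inl h2
            · refine Or.inr (le_of_eq (hE _ ?_ h2).symm)
              rw [← coe_toAdj]
              exact (toAdj x' _).2
          have h3 := place_bound hP3 M hδ x w hinj (rf θ s') (rf θ t') hs1 ht1 ds0 ds1 ds2
            dt0 dt1 dt2 _ hΔ' hdt E hτ i
          refine ⟨h3.1, fun h4 => ?_⟩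
          rcases h3.2 (by rw [h4]; norm_num) with h5 | h5
          · exact Or.inl h5
          · refine Or.inr (le_trans ?_ h5)
            rw [h4, ← hN]
            have := Int.self_le_toNat N
            linarith)
      exact ih (2 * N.toNat) (by omega) κ₂ x' y' z' h' A' hA'0 hA'1 hA'deg

theorem no_conic {θ : AlgebraicClosure ℚ} {κ₁ : ℚ}
    {x y z : RatFunc (RatFunc (AlgebraicClosure ℚ))} (h : Conic θ κ₁ x y z) : False := by
  obtain ⟨a, b, hb, hab⟩ := exists_rep h.gen (RatFunc.C (RatFunc.X : RatFunc (AlgebraicClosure ℚ)))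
  refine no_conic_aux θ (max a.natDegree b.natDegree) κ₁ x y z h ![b, a] ?_ ?_ ?_
  · simpa using hb
  · simpa using hab.symm
  · intro i; fin_cases i <;> simp

end Pool.Agent.H48.SymDP
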