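import Pool.Agent.H48.SymDP.Irr.Lattice

/-!
# Models of the conic bundle
-/

open Polynomial

namespace Pool.Agent.H48.SymDP

/-- The value at `(p, q)` of the homogenization of degree `N` of the polynomial `A`. -/
noncomputable def hev {R S : Type*} [CommSemiring R] [CommSemiring S] [Algebra R S] (N : ℕ)
    (A : R[X]) (p q : S) : S :=
  ∑ j ∈ Finset.range (N + 1), algebraMap R S (A.coeff j) * p ^ j * q ^ (N - j)

/-- The value at `(x, w)` of the Laurent polynomial `β + α w + γ P / w`. -/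
noncomputable def val {k L : Type*} [Field k] [Field L] [Algebra k L] (P : k[X]) (x w : L)
    (s : Fin 3 → k[X]) : L :=
  aeval x (s 0) + aeval x (s 1) * w + aeval x (s 2) * (aeval x P / w)

/-- The pair of forms `A 0, A 1` of degree `2 m` in `w` on the conic bundle `w w̄ = P(x)`, and
its transform `B` on the modification given by `(Q, σ)` in the coordinate
`Y = (W - σ) / Q`, `W = 1 / (w - lam)`. -/
structure Model {k : Type*} [Field k] (P : k[X]) (m : ℕ) (A : Fin 2 → k[X][X]) (lam : k)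
    (Q σ Θ : k[X]) (B : Fin 2 → k[X][X]) : Prop where
  natDegree_le : ∀ i, (A i).natDegree ≤ 2 * m
  dvd_coeff : ∀ i j, j ≤ m → P ^ (m - j) ∣ (A i).coeff j
  Q_ne : Q ≠ 0
  Th_ne : Θ ≠ 0
  coprime_Q : IsCoprime P Q
  coprime_Th : IsCoprime P Θ
  natDegree_B_le : ∀ i, (B i).natDegree ≤ 2 * m
  rel : ∀ i, hev (2 * m) (A i) (C (C lam) * (C σ + C Q * X) + 1 : k[X][X]) (C σ + C Q * X) =
    C Θ * B i

/-- The pair of forms has degree at most `δ` (`w` and `w̄` having degree two in `x`). -/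
def DegLE {k : Type*} [Field k] (m : ℕ) (A : Fin 2 → k[X][X]) (δ : ℕ) : Prop :=
  ∀ i j, (A i).coeff j ≠ 0 → ((A i).coeff j).natDegree + 2 * j ≤ δ ∧
    ((A i).coeff j).natDegree + j + m ≤ δ

end Pool.Agent.H48.SymDP
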