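import Pool.Agent.H48.SymDP.Irr.Red

/-!
# Orders of the coefficients at the roots of `P`
-/

open Polynomial

namespace Pool.Agent.H48.SymDP

section Arith

lemma arith_self {N : ℕ} {n : ℕ∞} {e : ℕ → ℕ∞}
    (h : ∀ j ≤ N, e (N - j) + ((N - j : ℕ) : ℕ∞) = n + e j) (h0 : ∃ j ≤ N, e j = 0) :
    ∃ m : ℕ, N = 2 * m ∧ n = m ∧ ∀ j ≤ N, e j + j = m + e (N - j) := by
  have h' : ∀ j ≤ N, e j + j = n + e (N - j) := by
    intro j hj
    have := h (N - j) (by omega)
    rwa [show N - (N - j) = j by omega] at this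
  obtain ⟨j, hj, hj0⟩ := h0
  have h1 := h j hj
  have h2 := h' j hj
  rw [hj0, add_zero] at h1
  rw [hj0, zero_add] at h2
  have hn : n ≠ ⊤ := by
    rintro rfl
    rw [top_add] at h2
    exact absurd h2 (ENat.natCast_ne_top j)
  have he : e (N - j) ≠ ⊤ := by
    intro ht
    rw [ht, add_top] at h2
    exact absurd h2 (ENat.natCast_ne_top j)
  obtain ⟨ν, rfl⟩ := ENat.ne_top_iff_exists.1 hn
  obtain ⟨ε, hε⟩ := ENat.ne_top_iff_exists.1 he
  rw [← hε] at h1 h2
  have h1' : ε + (N - j) = ν := by exact_mod_cast h1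
  have h2' : j = ν + ε := by exact_mod_cast h2
  exact ⟨ν, by omega, rfl, h'⟩

lemma arith_conj {m : ℕ} {n : ℕ∞} {e f : ℕ → ℕ∞}
    (h : ∀ j ≤ 2 * m, f (2 * m - j) + ((2 * m - j : ℕ) : ℕ∞) = n + e j)
    (hf : ∀ j ≤ 2 * m, f j + j = m + f (2 * m - j))
    (h0 : ∃ j ≤ 2 * m, e j = 0) (h1 : ∃ j ≤ 2 * m, f j = 0) : n = m := by
  have key : ∀ j ≤ 2 * m, n + e j = m + f j := by
    intro j hj
    rw [← h j hj]
    have := hf (2 * m - j) (by omega)
    rwa [show 2 * m - (2 * m - j) = j by omega] at this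
  obtain ⟨j, hj, hj0⟩ := h0
  obtain ⟨i, hi, hi0⟩ := h1
  have h2 := key j hj
  have h3 := key i hi
  rw [hj0, add_zero] at h2
  rw [hi0, add_zero] at h3
  apply le_antisymm
  · rw [← h3]; exact le_self_add
  · rw [h2]; exact le_self_add

end Arith

section

variable {k : Type*} [Field k]

/-- The order of vanishing at `x₀`. -/
noncomputable def em (x₀ : k) (a : k[X]) : ℕ∞ := emultiplicity (X - C x₀) a

lemma em_mul (x₀ : k) (a b : k[X]) : em x₀ (a * b) = em x₀ a + em x₀ b :=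
  emultiplicity_mul (prime_X_sub_C x₀)

lemma em_pow (x₀ : k) (a : k[X]) (n : ℕ) : em x₀ (a ^ n) = n * em x₀ a :=
  emultiplicity_pow (prime_X_sub_C x₀)

lemma le_em {x₀ : k} {a : k[X]} {n : ℕ} : (n : ℕ∞) ≤ em x₀ a ↔ (X - C x₀) ^ n ∣ a :=
  pow_dvd_iff_le_emultiplicity.symm

lemma em_eq_zero {x₀ : k} {a : k[X]} : em x₀ a = 0 ↔ a.eval x₀ ≠ 0 := by
  rw [em, emultiplicity_eq_zero, dvd_iff_isRoot, IsRoot.def]

lemma em_ne_top {x₀ : k} {a : k[X]} (ha : a ≠ 0) : em x₀ a ≠ ⊤ := by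
  rw [em, ne_eq, emultiplicity_eq_top, not_not]
  exact FiniteMultiplicity.of_prime_left (prime_X_sub_C x₀) ha

lemma em_map (g : k ≃+* k) (x₀ : k) (a : k[X]) :
    em (g x₀) (a.map (g : k →+* k)) = em x₀ a := by
  have := emultiplicity_map_eq (mapEquiv g) (a := X - C x₀) (b := a)
  simpa [em] using this

/-- The minimum of the orders of the `j`-th coefficients of the pair. -/
noncomputable def e2 (x₀ : k) (A : Fin 2 → k[X][X]) (j : ℕ) : ℕ∞ :=
  min (em x₀ ((A 0).coeff j)) (em x₀ ((A 1).coeff j))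

lemma le_e2 {x₀ : k} {A : Fin 2 → k[X][X]} {j : ℕ} {n : ℕ∞} :
    n ≤ e2 x₀ A j ↔ ∀ i, n ≤ em x₀ ((A i).coeff j) := by
  rw [e2, le_min_iff, Fin.forall_fin_two]

lemma e2_eq (x₀ : k) (A : Fin 2 → k[X][X]) (j : ℕ) : ∃ i, e2 x₀ A j = em x₀ ((A i).coeff j) := by
  rcases min_choice (em x₀ ((A 0).coeff j)) (em x₀ ((A 1).coeff j)) with h | h
  · exact ⟨0, h⟩
  · exact ⟨1, h⟩

lemma e2_content {A : Fin 2 → k[X][X]} {N : ℕ} (hN : ∀ i, (A i).natDegree ≤ N)
    (h : IsRelPrime (A 0) (A 1)) (x₀ : k) : ∃ j ≤ N, e2 x₀ A j = 0 := by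
  by_contra hcon
  push Not at hcon
  have hd : ∀ i, C (X - C x₀) ∣ A i := by
    intro i
    rw [C_dvd_iff_dvd_coeff]
    intro j
    by_cases hj : j ≤ N
    · have h1 : (1 : ℕ∞) ≤ e2 x₀ A j := Order.one_le_iff_ne_zero.2 (hcon j hj)
      have h2 := le_e2.1 h1 i
      have h3 : ((1 : ℕ) : ℕ∞) ≤ em x₀ ((A i).coeff j) := by exact_mod_cast h2
      simpa using le_em.1 h3
    · rw [coeff_eq_zero_of_natDegree_lt (lt_of_le_of_lt (hN i) (not_le.1 hj))]
      exact dvd_zero _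
  have hu := h (hd 0) (hd 1)
  rw [Polynomial.isUnit_C] at hu
  exact (prime_X_sub_C x₀).not_isUnit hu

lemma e2_flip {A : Fin 2 → k[X][X]} {N : ℕ} {g : k ≃+* k} {P ρ : k[X]}
    (h : ∀ i, ∀ j ≤ N, ((A i).coeff (N - j)).map (g : k →+* k) * P ^ (N - j) =
      ρ * (A i).coeff j) (x₀ : k) {j : ℕ} (hj : j ≤ N) :
    e2 x₀ A (N - j) + (N - j : ℕ) * em (g x₀) P = em (g x₀) ρ + e2 (g x₀) A j := by
  have h' : ∀ i, em x₀ ((A i).coeff (N - j)) + (N - j : ℕ) * em (g x₀) P =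
      em (g x₀) ρ + em (g x₀) ((A i).coeff j) := by
    intro i
    rw [← em_map g, ← em_pow, ← em_mul, ← em_mul, h i j hj]
  rw [e2, e2, ← min_add_add_right, ← min_add_add_left, h' 0, h' 1]

end

section Good

variable {k : Type*} [Field k]

lemma sh_coeff (x₀ : k) (B : k[X][X]) (j : ℕ) :
    (sh x₀ 0 B).coeff j = (B.coeff j).comp (X + C x₀) := by
  simp [sh, coeff_map]

lemma coeff_comp_of_dvd {x₀ : k} {a : k[X]} {n : ℕ} (h : (X - C x₀) ^ n ∣ a)
    (h' : ¬ (X - C x₀) ^ (n + 1) ∣ a) : (a.comp (X + C x₀)).coeff n ≠ 0 := by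
  obtain ⟨b, rfl⟩ := h
  have hb : b.eval x₀ ≠ 0 := by
    intro h0
    apply h'
    obtain ⟨c, hc⟩ := dvd_iff_isRoot.2 h0
    exact ⟨c, by rw [hc]; ring⟩
  have : ((X - C x₀) ^ n * b).comp (X + C x₀) = X ^ n * b.comp (X + C x₀) := by
    simp
  rw [this, coeff_X_pow_mul', if_pos le_rfl, Nat.sub_self, coeff_zero_eq_eval_zero, eval_comp]
  simpa using hb

lemma sh_coeff_zero (x₀ c : k) (B : k[X][X]) (b : ℕ) :
    ((sh x₀ c B).coeff b).coeff 0 = (taylor c (B.map (evalRingHom x₀))).coeff b := by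
  rw [coeff_zero_eq_eval_zero, ← coe_evalRingHom, ← coeff_map]
  congr 1
  rw [sh, Polynomial.map_comp, Polynomial.map_map, taylor_apply]
  congr 1
  · congr 1
    ext a <;> simp
  · simp

/-- A criterion for a good fibre. -/
lemma goodFibre_of {A : Fin 2 → k[X][X]} {m : ℕ} {x₀ : k} (hN : ∀ i, (A i).natDegree ≤ 2 * m)
    (h1 : ∀ i, ∀ j < m, (X - C x₀) ^ (m - j) ∣ (A i).coeff j)
    (h2 : ∃ i, ∃ j, m ≤ j ∧ j ≤ 2 * m ∧ ((A i).coeff j).eval x₀ ≠ 0)
    (h3 : ∃ i, ∃ j ≤ m, ¬ (X - C x₀) ^ (m - j + 1) ∣ (A i).coeff j) : GoodFibre A m x₀ := by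
  obtain ⟨i, j, hmj, hj2, hij⟩ := h2
  have hB : (A i).map (evalRingHom x₀) ≠ 0 := by
    intro h0
    apply hij
    have := congrArg (fun q => coeff q j) h0
    simpa [coeff_map] using this
  refine ⟨hN, ⟨i, hB⟩, fun c => ?_, ?_⟩
  · by_cases hc : c = 0
    · obtain ⟨i', j', hj', hd⟩ := h3
      refine ⟨i', m - j', j', by omega, ?_⟩
      rw [hc, sh_coeff]
      refine coeff_comp_of_dvd ?_ hd
      rcases Nat.lt_or_ge j' m with h | h
      · exact h1 i' j' h
      · rw [show m - j' = 0 by omega, pow_zero]; exact one_dvd _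
    · by_contra hcon
      push Not at hcon
      have hz : ∀ b ≤ m, (taylor c ((A i).map (evalRingHom x₀))).coeff b = 0 := by
        intro b hb
        rw [← sh_coeff_zero]
        exact hcon i 0 b (by omega)
      have hXm : X ^ m ∣ (A i).map (evalRingHom x₀) := by
        rw [X_pow_dvd_iff]
        intro d hd
        rw [coeff_map]
        have := h1 i d hd
        rw [coe_evalRingHom]
        have h4 : X - C x₀ ∣ (A i).coeff d := dvd_trans (dvd_pow_self _ (by omega)) this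
        exact dvd_iff_isRoot.1 h4
      have hcm : (X - C c) ^ (m + 1) ∣ (A i).map (evalRingHom x₀) := by
        have : X ^ (m + 1) ∣ taylor c ((A i).map (evalRingHom x₀)) := by
          rw [X_pow_dvd_iff]
          intro d hd
          exact hz d (by omega)
        obtain ⟨q, hq⟩ := this
        have h5 := congrArg (taylor (-c)) hq
        rw [taylor_taylor, neg_add_cancel, taylor_zero] at h5
        refine ⟨taylor (-c) q, ?_⟩
        rw [h5, taylor_mul]
        congr 1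
        simp [taylor_apply, sub_eq_add_neg]
      have hcop : IsCoprime (X ^ m : k[X]) ((X - C c) ^ (m + 1)) := by
        apply IsCoprime.pow
        have := isCoprime_X_sub_C_of_isUnit_sub (R := k) (a := 0) (b := c)
          (by rw [zero_sub]; exact (neg_ne_zero.2 hc).isUnit)
        simpa using this
      have hdvd := hcop.mul_dvd hXm hcm
      have hdeg := natDegree_le_of_dvd hdvd hB
      have h6 : ((A i).map (evalRingHom x₀)).natDegree ≤ 2 * m :=
        natDegree_map_le.trans (hN i)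
      rw [natDegree_mul (pow_ne_zero _ X_ne_zero) (pow_ne_zero _ (X_sub_C_ne_zero c)),
        natDegree_pow, natDegree_pow, natDegree_X, natDegree_X_sub_C] at hdeg
      omega
  · refine ⟨i, 0, 2 * m - j, by omega, ?_⟩
    rw [sh_coeff, coeff_reflect, revAt_le (by omega), show 2 * m - (2 * m - j) = j by omega,
      coeff_zero_eq_eval_zero, eval_comp]
    simpa using hij

end Good

end Pool.Agent.H48.SymDP
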