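import Pool.Agent.H48.SymDP.Irr.Hev

/-!
# Reduced representations and semilinear automorphisms
-/

open Polynomial

namespace Pool.Agent.H48.SymDP

section

variable {k : Type*} [Field k] {L : Type*} [Field L] [Algebra k L]

/-- The map on polynomials in two variables given by a ring homomorphism of the coefficients. -/
noncomputable def mg (g : k →+* k) : k[X][X] →+* k[X][X] := mapRingHom (mapRingHom g)

@[simp] lemma mg_coeff (g : k →+* k) (A : k[X][X]) (j : ℕ) :
    (mg g A).coeff j = (A.coeff j).map g := by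
  simp [mg, coeff_map]

@[simp] lemma mg_C (g : k →+* k) (a : k[X]) : mg g (C a) = C (a.map g) := by simp [mg]

@[simp] lemma mg_X (g : k →+* k) : mg g X = X := by simp [mg]

lemma mg_natDegree (g : k →+* k) (A : k[X][X]) : (mg g A).natDegree = A.natDegree := by
  apply natDegree_map_eq_of_injective
  exact Polynomial.map_injective g g.injective

lemma mg_ne_zero (g : k →+* k) {A : k[X][X]} (hA : A ≠ 0) : mg g A ≠ 0 := by
  intro h
  apply hA
  have : Function.Injective (mg g) :=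
    Polynomial.map_injective _ (Polynomial.map_injective g g.injective)
  exact this (by rw [h, map_zero])

lemma tau_aeval {g : k →+* k} {τ : L →+* L} (hτ : ∀ c, τ (algebraMap k L c) = algebraMap k L (g c))
    (x : L) (a : k[X]) : τ (aeval x a) = aeval (τ x) (a.map g) := by
  rw [aeval_def, aeval_def, eval₂_map, hom_eval₂]
  congr 1
  ext c; exact hτ c

lemma tau_ev {g : k →+* k} {τ : L →+* L} (hτ : ∀ c, τ (algebraMap k L c) = algebraMap k L (g c))
    (x w : L) (A : k[X][X]) : τ (ev x w A) = ev (τ x) (τ w) (mg g A) := by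
  have : (τ.comp (ev x w)) = (ev (τ x) (τ w)).comp (mg g) := by
    apply ringHom_ext'
    · apply RingHom.ext
      intro a
      simp [tau_aeval hτ]
    · simp
  exact RingHom.congr_fun this A

lemma ev_hevr (x w : L) (N : ℕ) (A : k[X][X]) (p q : k[X][X]) :
    ev x w (hevr C N A p q) = hevr (aeval x : k[X] →ₐ[k] L).toRingHom N A (ev x w p) (ev x w q) := by
  rw [map_hevr]
  congr 1
  ext a <;> simp

lemma hevr_aeval_eq (x : L) {N : ℕ} {A : k[X][X]} (hA : A.natDegree ≤ N) (p : L) {q : L}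
    (hq : q ≠ 0) :
    hevr (aeval x : k[X] →ₐ[k] L).toRingHom N A p q = q ^ N * ev x (p / q) A := by
  rw [hevr_eq_div _ hA p hq]; rfl

/-- `(A 0, A 1)` is a reduced representation of `f ∈ k(x)(w)` of degree `N`. -/
structure Red (x w f : L) (A : Fin 2 → k[X][X]) (N : ℕ) : Prop where
  ne : A 0 ≠ 0
  rel : ev x w (A 1) = f * ev x w (A 0)
  relPrime : IsRelPrime (A 0) (A 1)
  natDegree_le : ∀ i, (A i).natDegree ≤ N
  top : ∃ i, (A i).coeff N ≠ 0

lemma Red.unique {x w f : L} (hinj : Function.Injective (ev x w : k[X][X] →+* L))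
    {A : Fin 2 → k[X][X]} {N : ℕ} (h : Red x w f A N) (A' : Fin 2 → k[X][X])
    (hdeg : ∀ i, (A' i).natDegree ≤ N) (hrel : ev x w (A' 1) = f * ev x w (A' 0)) :
    ∃ ρ : k[X], ∀ i, A' i = C ρ * A i := by
  have h1 : A' 1 * A 0 = A 1 * A' 0 := by
    apply hinj
    rw [map_mul, map_mul, hrel, h.rel]; ring
  have h2 : A 0 ∣ A' 0 := h.relPrime.dvd_of_dvd_mul_left (h1 ▸ dvd_mul_left _ _)
  obtain ⟨ρ, hρ⟩ := h2
  have h3 : A' 1 = ρ * A 1 := by
    have : A 0 * (A' 1) = A 0 * (ρ * A 1) := by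
      rw [mul_comm, h1, hρ]; ring
    exact mul_left_cancel₀ h.ne this
  have h4 : ∀ i, A' i = ρ * A i := by
    intro i; fin_cases i
    · simpa [mul_comm] using hρ
    · exact h3
  have h5 : ρ.natDegree = 0 := by
    obtain ⟨i, hi⟩ := h.top
    by_cases hρ0 : ρ = 0
    · simp [hρ0]
    have hA : A i ≠ 0 := by rintro h0; simp [h0] at hi
    have hN : (A i).natDegree = N := le_antisymm (h.natDegree_le i) (le_natDegree_of_ne_zero hi)
    have := hdeg i
    rw [h4 i, natDegree_mul hρ0 hA, hN] at this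
    omega
  refine ⟨ρ.coeff 0, fun i => ?_⟩
  rw [h4 i]
  conv_lhs => rw [eq_C_of_natDegree_eq_zero h5]

/-- Automorphisms fixing `w`. -/
lemma Red.fix {x w f : L} (hinj : Function.Injective (ev x w : k[X][X] →+* L))
    {A : Fin 2 → k[X][X]} {N : ℕ} (h : Red x w f A N) {g : k →+* k} {τ : L →+* L}
    (hτ : ∀ c, τ (algebraMap k L c) = algebraMap k L (g c)) (hx : τ x = x) (hf : τ f = f)
    (hw : τ w = w) : ∃ c : k, c ≠ 0 ∧ ∀ i, mg g (A i) = C (C c) * A i := by
  obtain ⟨ρ, hρ⟩ := h.unique hinj (fun i => mg g (A i))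
    (fun i => by rw [mg_natDegree]; exact h.natDegree_le i) (by
      have := congrArg τ h.rel
      rw [map_mul, tau_ev hτ, tau_ev hτ, hx, hw, hf] at this
      exact this)
  obtain ⟨i, hi⟩ := h.top
  have h1 : ((A i).coeff N).map g = ρ * (A i).coeff N := by
    rw [← mg_coeff, hρ i, coeff_C_mul]
  have hρ0 : ρ ≠ 0 := by
    rintro rfl
    rw [zero_mul] at h1
    exact hi ((Polynomial.map_eq_zero g).1 h1)
  have h2 : ρ.natDegree = 0 := by
    have := congrArg natDegree h1
    rw [natDegree_map, natDegree_mul hρ0 hi] at this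
    omega
  refine ⟨ρ.coeff 0, ?_, fun i => ?_⟩
  · intro h0
    apply hρ0
    rw [eq_C_of_natDegree_eq_zero h2, h0, C_0]
  · rw [hρ i]
    conv_lhs => rw [eq_C_of_natDegree_eq_zero h2]

lemma coeff_hevr_C_X {R : Type*} [CommRing R] (N : ℕ) (B : R[X]) (P : R) {j : ℕ} (hj : j ≤ N) :
    (hevr C N B (C P) X).coeff j = B.coeff (N - j) * P ^ (N - j) := by
  rw [hevr, finsetSum_coeff, Finset.sum_eq_single (N - j)]
  · rw [← C_pow, ← C_mul, coeff_C_mul, coeff_X_pow, if_pos (by omega), mul_one]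
  · intro l hl hne
    have hl' : l ≤ N := Nat.lt_succ_iff.1 (Finset.mem_range.1 hl)
    rw [← C_pow, ← C_mul, coeff_C_mul, coeff_X_pow, if_neg (by omega), mul_zero]
  · intro h; exact absurd (Finset.mem_range.2 (by omega)) h

/-- Automorphisms exchanging `w` and `P / w`. -/
lemma Red.flip {x w f : L} (hinj : Function.Injective (ev x w : k[X][X] →+* L))
    {A : Fin 2 → k[X][X]} {N : ℕ} (h : Red x w f A N) {g : k →+* k} {τ : L →+* L}
    (hτ : ∀ c, τ (algebraMap k L c) = algebraMap k L (g c)) (hx : τ x = x) (hf : τ f = f)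
    {P : k[X]} (hP : P ≠ 0) (hw0 : w ≠ 0) (hw : τ w = aeval x P / w) :
    ∃ ρ : k[X], ρ ≠ 0 ∧ ∀ i, ∀ j ≤ N, ((A i).coeff (N - j)).map g * P ^ (N - j) =
      ρ * (A i).coeff j := by
  have key : ∀ i, ev x w (hevr C N (mg g (A i)) (C P) X) = w ^ N * τ (ev x w (A i)) := by
    intro i
    rw [ev_hevr, ev_C, ev_X, hevr_aeval_eq x _ _ hw0, tau_ev hτ, hx, hw]
    rw [mg_natDegree]; exact h.natDegree_le i
  obtain ⟨ρ, hρ⟩ := h.unique hinj (fun i => hevr C N (mg g (A i)) (C P) X)
    (fun i => by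
      have := natDegree_hevr_le N (mg g (A i)) 0 P 1 0
      simpa using this)
    (by rw [key, key, h.rel, map_mul, hf]; ring)
  have hcoeff : ∀ i, ∀ j ≤ N, ((A i).coeff (N - j)).map g * P ^ (N - j) =
      ρ * (A i).coeff j := by
    intro i j hj
    have := congrArg (fun q => coeff q j) (hρ i)
    simp only [coeff_C_mul] at this
    rwa [coeff_hevr_C_X N _ P hj, mg_coeff] at this
  refine ⟨ρ, ?_, hcoeff⟩
  rintro rfl
  obtain ⟨i, hi⟩ := h.top
  have := hcoeff i 0 (Nat.zero_le _)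
  rw [zero_mul, Nat.sub_zero, mul_eq_zero] at this
  rcases this with h1 | h1
  · exact hi ((Polynomial.map_eq_zero g).1 h1)
  · exact pow_ne_zero N hP h1

end

end Pool.Agent.H48.SymDP
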