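import Pool.Agent.H48.SymDP.Irr.Cubic

/-!
# The structure of the pair of forms coming from the Galois action
-/

open Polynomial

namespace Pool.Agent.H48.SymDP

/-- The geometric data: a field `L` over `ℚ̄` with a semilinear action of the Galois group,
`x ∈ L` fixed, and `w ∈ L` fixed by the automorphisms which fix `θ = √-3` and mapped to
`κ₁ (x ^ 3 + 2) / w` by the others. -/
structure Ctx {L : Type*} [Field L] [Algebra (AlgebraicClosure ℚ) L] (θ : AlgebraicClosure ℚ)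
    (τ : (AlgebraicClosure ℚ ≃ₐ[ℚ] AlgebraicClosure ℚ) → L →+* L) (κ₁ : ℚ) (x w : L) : Prop where
  theta : θ ^ 2 = -3
  kappa : κ₁ ≠ 0
  tau : ∀ g c, τ g (algebraMap (AlgebraicClosure ℚ) L c) =
    algebraMap (AlgebraicClosure ℚ) L (g c)
  x_fix : ∀ g, τ g x = x
  w_fix : ∀ g, g θ = θ → τ g w = w
  w_flip : ∀ g, g θ = - θ → τ g w = aeval x (PK (AlgebraicClosure ℚ) κ₁) / w
  inj : Function.Injective (ev x w : (AlgebraicClosure ℚ)[X][X] →+* L)

section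

variable {L : Type*} [Field L] [Algebra (AlgebraicClosure ℚ) L] {θ : AlgebraicClosure ℚ}
    {τ : (AlgebraicClosure ℚ ≃ₐ[ℚ] AlgebraicClosure ℚ) → L →+* L} {κ₁ : ℚ} {x w : L}

lemma Ctx.w_ne (h : Ctx θ τ κ₁ x w) : w ≠ 0 := by
  intro h0
  have : ev x w (X : (AlgebraicClosure ℚ)[X][X]) = ev x w (0 : (AlgebraicClosure ℚ)[X][X]) := by
    simp [h0]
  exact X_ne_zero (h.inj this)

lemma Ctx.x_ne (h : Ctx θ τ κ₁ x w) : x ≠ 0 := by
  intro h0
  have : ev x w (C X : (AlgebraicClosure ℚ)[X][X]) = ev x w (0 : (AlgebraicClosure ℚ)[X][X]) := by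
    simp [h0]
  exact (C_ne_zero.2 X_ne_zero) (h.inj this)

lemma PK_map (κ₁ : ℚ) (g : AlgebraicClosure ℚ ≃ₐ[ℚ] AlgebraicClosure ℚ) :
    (PK (AlgebraicClosure ℚ) κ₁).map (g : AlgebraicClosure ℚ →+* AlgebraicClosure ℚ) =
      PK (AlgebraicClosure ℚ) κ₁ := by
  rw [PK, Polynomial.map_map]
  congr 1
  ext r; simp

lemma eval_PK_map (κ₁ : ℚ) (g : AlgebraicClosure ℚ ≃ₐ[ℚ] AlgebraicClosure ℚ)
    (x₀ : AlgebraicClosure ℚ) :
    (PK (AlgebraicClosure ℚ) κ₁).eval (g x₀) = g ((PK (AlgebraicClosure ℚ) κ₁).eval x₀) := by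
  conv_lhs => rw [← PK_map κ₁ g]
  exact eval_map_apply (g : AlgebraicClosure ℚ →+* AlgebraicClosure ℚ) x₀

/-- The relation obtained from an automorphism changing the sign of `θ`. -/
lemma Ctx.flip (h : Ctx θ τ κ₁ x w) {f : L} (hf : ∀ g, τ g f = f)
    {A : Fin 2 → (AlgebraicClosure ℚ)[X][X]} {N : ℕ} (hA : Red x w f A N)
    (g : AlgebraicClosure ℚ ≃ₐ[ℚ] AlgebraicClosure ℚ) (hg : g θ = - θ) :
    ∃ ρ : (AlgebraicClosure ℚ)[X], ρ ≠ 0 ∧ ∀ i, ∀ j ≤ N,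
      ((A i).coeff (N - j)).map (g : AlgebraicClosure ℚ →+* AlgebraicClosure ℚ) *
        (PK (AlgebraicClosure ℚ) κ₁) ^ (N - j) = ρ * (A i).coeff j :=
  hA.flip h.inj (g := (g : AlgebraicClosure ℚ →+* AlgebraicClosure ℚ)) (h.tau g) (h.x_fix g)
    (hf g) (PK_ne h.kappa) h.w_ne (h.w_flip g hg)

lemma Ctx.order_root (h : Ctx θ τ κ₁ x w) {f : L} (hf : ∀ g, τ g f = f)
    {A : Fin 2 → (AlgebraicClosure ℚ)[X][X]} {N : ℕ} (hA : Red x w f A N)
    {x₀ : AlgebraicClosure ℚ} (hx₀ : (PK (AlgebraicClosure ℚ) κ₁).eval x₀ = 0) :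
    ∃ m : ℕ, N = 2 * m ∧ ∀ j ≤ N, e2 x₀ A j + j = m + e2 x₀ A (N - j) := by
  obtain ⟨g, hg, hgx⟩ := exists_flip h.theta ((eval_PK h.kappa x₀).1 hx₀)
  obtain ⟨ρ, -, hρ⟩ := h.flip hf hA g hg
  obtain ⟨m, hm, -, h1⟩ := arith_self (n := em x₀ ρ) (e := e2 x₀ A) (N := N) (by
    intro j hj
    have := e2_flip (g := (g : AlgebraicClosure ℚ ≃+* AlgebraicClosure ℚ)) hρ x₀ hj
    have hgx' : (g : AlgebraicClosure ℚ ≃+* AlgebraicClosure ℚ) x₀ = x₀ := hgx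
    rw [hgx', em_PK h.kappa hx₀, mul_one] at this
    exact this) (e2_content hA.natDegree_le hA.relPrime x₀)
  exact ⟨m, hm, h1⟩

lemma exists_root {κ₁ : ℚ} (h : κ₁ ≠ 0) :
    ∃ x₀ : AlgebraicClosure ℚ, (PK (AlgebraicClosure ℚ) κ₁).eval x₀ = 0 := by
  apply IsAlgClosed.exists_root
  rw [degree_eq_natDegree (PK_ne h), natDegree_PK h]
  norm_num

/-- The first part of the structure theorem. -/
lemma Ctx.even (h : Ctx θ τ κ₁ x w) {f : L} (hf : ∀ g, τ g f = f)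
    {A : Fin 2 → (AlgebraicClosure ℚ)[X][X]} {N : ℕ} (hA : Red x w f A N) :
    ∃ m : ℕ, N = 2 * m ∧ ∀ x₀, (PK (AlgebraicClosure ℚ) κ₁).eval x₀ = 0 →
      ∀ j ≤ N, e2 x₀ A j + j = m + e2 x₀ A (N - j) := by
  obtain ⟨x₀, hx₀⟩ := exists_root h.kappa
  obtain ⟨m, hm, -⟩ := h.order_root hf hA hx₀
  refine ⟨m, hm, fun x₁ hx₁ => ?_⟩
  obtain ⟨m', hm', h1⟩ := h.order_root hf hA hx₁
  have : m' = m := by omega
  rwa [this] at h1

variable {m : ℕ} {f : L} {A : Fin 2 → (AlgebraicClosure ℚ)[X][X]}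

lemma dvd_of_orders (hκ : κ₁ ≠ 0)
    (ho : ∀ x₀, (PK (AlgebraicClosure ℚ) κ₁).eval x₀ = 0 →
      ∀ j ≤ 2 * m, e2 x₀ A j + j = m + e2 x₀ A (2 * m - j)) (i : Fin 2) {j : ℕ} (hj : j ≤ m) :
    (PK (AlgebraicClosure ℚ) κ₁) ^ (m - j) ∣ (A i).coeff j := by
  apply pow_dvd_of_roots hκ
  intro x₀ hx₀
  rw [← le_em]
  refine le_e2.1 ?_ i
  have h1 := ho x₀ hx₀ j (by omega)
  have h2 : ((m - j : ℕ) : ℕ∞) + j ≤ e2 x₀ A j + j := by
    rw [h1, ← Nat.cast_add, Nat.sub_add_cancel hj]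
    exact le_self_add
  exact (ENat.add_le_add_iff_right (ENat.natCast_ne_top j)).1 h2

lemma good_root (hN : ∀ i, (A i).natDegree ≤ 2 * m) (hrel : IsRelPrime (A 0) (A 1))
    {x₀ : AlgebraicClosure ℚ}
    (ho : ∀ j ≤ 2 * m, e2 x₀ A j + j = m + e2 x₀ A (2 * m - j)) : GoodFibre A m x₀ := by
  obtain ⟨j₀, hj₀, hj0⟩ := e2_content hN hrel x₀
  have hm : m ≤ j₀ := by
    have h1 := ho j₀ hj₀
    rw [hj0, zero_add] at h1
    have h2 : ((m : ℕ) : ℕ∞) ≤ (j₀ : ℕ) := by rw [h1]; exact le_self_add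
    exact_mod_cast h2
  apply goodFibre_of hN
  · intro i j hj
    rw [← le_em]
    refine le_e2.1 ?_ i
    have h1 := ho j (by omega)
    have h2 : ((m - j : ℕ) : ℕ∞) + j ≤ e2 x₀ A j + j := by
      rw [h1, ← Nat.cast_add, Nat.sub_add_cancel hj.le]
      exact le_self_add
    exact (ENat.add_le_add_iff_right (ENat.natCast_ne_top j)).1 h2
  · obtain ⟨i, hi⟩ := e2_eq x₀ A j₀
    exact ⟨i, j₀, hm, hj₀, em_eq_zero.1 (by rw [← hi, hj0])⟩
  · obtain ⟨i, hi⟩ := e2_eq x₀ A (2 * m - j₀)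
    refine ⟨i, 2 * m - j₀, by omega, ?_⟩
    rw [← le_em, ← hi]
    have h1 := ho (2 * m - j₀) (by omega)
    rw [show 2 * m - (2 * m - j₀) = j₀ by omega, hj0, add_zero] at h1
    have hfin : e2 x₀ A (2 * m - j₀) ≠ ⊤ := by
      intro ht
      rw [ht, top_add] at h1
      exact absurd h1.symm (ENat.natCast_ne_top m)
    obtain ⟨ε, hε⟩ := ENat.ne_top_iff_exists.1 hfin
    rw [← hε] at h1 ⊢
    have h2 : ε + (2 * m - j₀) = m := by exact_mod_cast h1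
    intro h3
    have h4 : m - (2 * m - j₀) + 1 ≤ ε := by exact_mod_cast h3
    omega

/-- The second part of the structure theorem. -/
lemma Ctx.flip' (h : Ctx θ τ κ₁ x w) (hf : ∀ g, τ g f = f) (hA : Red x w f A (2 * m))
    (ho : ∀ x₀, (PK (AlgebraicClosure ℚ) κ₁).eval x₀ = 0 →
      ∀ j ≤ 2 * m, e2 x₀ A j + j = m + e2 x₀ A (2 * m - j))
    (g : AlgebraicClosure ℚ ≃ₐ[ℚ] AlgebraicClosure ℚ) (hg : g θ = - θ) :
    ∃ ρ : (AlgebraicClosure ℚ)[X], ρ ≠ 0 ∧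
      (∀ x₀, (PK (AlgebraicClosure ℚ) κ₁).eval x₀ ≠ 0 → ρ.eval x₀ ≠ 0) ∧
      (ρ.natDegree = 3 * m) ∧ ∀ i, ∀ j ≤ 2 * m,
      ((A i).coeff (2 * m - j)).map (g : AlgebraicClosure ℚ →+* AlgebraicClosure ℚ) *
        (PK (AlgebraicClosure ℚ) κ₁) ^ (2 * m - j) = ρ * (A i).coeff j := by
  obtain ⟨ρ, hρ0, hρ⟩ := h.flip hf hA g hg
  refine ⟨ρ, hρ0, ?_, ?_, hρ⟩
  · intro x₁ hx₁
    rw [← em_eq_zero]
    by_contra hne
    obtain ⟨x₀, rfl⟩ := g.surjective x₁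
    obtain ⟨j, hj, hj0⟩ := e2_content hA.natDegree_le hA.relPrime x₀
    have h1 := e2_flip (g := (g : AlgebraicClosure ℚ ≃+* AlgebraicClosure ℚ)) hρ x₀
      (j := 2 * m - j) (by omega)
    have hgx' : (g : AlgebraicClosure ℚ ≃+* AlgebraicClosure ℚ) x₀ = g x₀ := rfl
    rw [hgx', em_eq_zero.2 hx₁, mul_zero, add_zero, show 2 * m - (2 * m - j) = j by omega,
      hj0] at h1
    have h2 := h1.symm
    rw [add_eq_zero] at h2
    exact hne h2.1
  · obtain ⟨i, hi⟩ := hA.top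
    have h1 := congrArg natDegree (hρ i 0 (by omega))
    have h2 := congrArg natDegree (hρ i (2 * m) le_rfl)
    simp only [Nat.sub_zero, Nat.sub_self, pow_zero, mul_one] at h1 h2
    have hP := PK_ne (k := AlgebraicClosure ℚ) h.kappa
    have h3 : (A i).coeff 0 ≠ 0 := by
      intro h0
      have h4 := hρ i 0 (by omega)
      rw [h0, mul_zero, Nat.sub_zero, mul_eq_zero] at h4
      rcases h4 with h4 | h4
      · exact hi ((Polynomial.map_eq_zero _).1 h4)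
      · exact pow_ne_zero _ hP h4
    rw [natDegree_mul ((Polynomial.map_ne_zero_iff (RingHom.injective _)).2 hi)
      (pow_ne_zero _ hP), natDegree_map, natDegree_pow, natDegree_PK h.kappa,
      natDegree_mul hρ0 h3] at h1
    rw [natDegree_map, natDegree_mul hρ0 hi] at h2
    omega

lemma exists_flip_any {θ : AlgebraicClosure ℚ} (hθ : θ ^ 2 = -3) :
    ∃ g : AlgebraicClosure ℚ ≃ₐ[ℚ] AlgebraicClosure ℚ, g θ = - θ := by
  obtain ⟨x₀, hx₀⟩ := exists_root (κ₁ := 1) one_ne_zero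
  obtain ⟨g, hg, -⟩ := exists_flip hθ ((eval_PK one_ne_zero x₀).1 hx₀)
  exact ⟨g, hg⟩

/-- The behaviour at infinity. -/
lemma Ctx.degrees (h : Ctx θ τ κ₁ x w) (hf : ∀ g, τ g f = f) (hA : Red x w f A (2 * m))
    (ho : ∀ x₀, (PK (AlgebraicClosure ℚ) κ₁).eval x₀ = 0 →
      ∀ j ≤ 2 * m, e2 x₀ A j + j = m + e2 x₀ A (2 * m - j)) (i : Fin 2) {j : ℕ}
    (hj : j ≤ 2 * m) (hne : (A i).coeff j ≠ 0) : (A i).coeff (2 * m - j) ≠ 0 ∧
      ((A i).coeff (2 * m - j)).natDegree + 3 * m = ((A i).coeff j).natDegree + 3 * j := by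
  obtain ⟨g, hg⟩ := exists_flip_any h.theta
  obtain ⟨ρ, hρ0, -, hdeg, hρ⟩ := h.flip' hf hA ho g hg
  have hP := PK_ne (k := AlgebraicClosure ℚ) h.kappa
  have h1 := hρ i (2 * m - j) (by omega)
  rw [show 2 * m - (2 * m - j) = j by omega] at h1
  have hne' : (A i).coeff (2 * m - j) ≠ 0 := by
    intro h0
    rw [h0, mul_zero, mul_eq_zero] at h1
    rcases h1 with h4 | h4
    · exact hne ((Polynomial.map_eq_zero _).1 h4)
    · exact pow_ne_zero _ hP h4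
  refine ⟨hne', ?_⟩
  have h2 := congrArg natDegree h1
  rw [natDegree_mul ((Polynomial.map_ne_zero_iff (RingHom.injective _)).2 hne)
    (pow_ne_zero _ hP), natDegree_map, natDegree_pow, natDegree_PK h.kappa,
    natDegree_mul hρ0 hne', hdeg] at h2
  omega

/-- The pair of forms in the coordinates `1 / x, w / x ^ 2`. -/
noncomputable def atInf {k : Type*} [Field k] (m δ : ℕ) (A : Fin 2 → k[X][X]) :
    Fin 2 → k[X][X] := fun i =>
  ∑ j ∈ Finset.range (2 * m + 1), C (reflect (δ - 2 * j) ((A i).coeff j)) * X ^ j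

lemma atInf_coeff {k : Type*} [Field k] (m δ : ℕ) (A : Fin 2 → k[X][X]) (i : Fin 2) {j : ℕ}
    (hj : j ≤ 2 * m) : (atInf m δ A i).coeff j = reflect (δ - 2 * j) ((A i).coeff j) := by
  rw [atInf, finsetSum_coeff, Finset.sum_eq_single j]
  · simp
  · intro l _ hl
    rw [coeff_C_mul, coeff_X_pow, if_neg (fun h => hl h.symm), mul_zero]
  · intro h; exact absurd (Finset.mem_range.2 (by omega)) h

lemma atInf_natDegree {k : Type*} [Field k] (m δ : ℕ) (A : Fin 2 → k[X][X]) (i : Fin 2) :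
    (atInf m δ A i).natDegree ≤ 2 * m := by
  refine natDegree_sum_le_of_forall_le _ _ fun j hj => ?_
  exact (natDegree_C_mul_X_pow_le _ _).trans (Nat.lt_succ_iff.1 (Finset.mem_range.1 hj))

lemma ev_atInf {k L : Type*} [Field k] [Field L] [Algebra k L] {m δ : ℕ}
    {A : Fin 2 → k[X][X]} (hN : ∀ i, (A i).natDegree ≤ 2 * m)
    (hδ : ∀ i j, (A i).coeff j ≠ 0 → ((A i).coeff j).natDegree + 2 * j ≤ δ) {x : L} (w : L)
    (hx : x ≠ 0) (i : Fin 2) :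
    ev x w (A i) = x ^ δ * ev x⁻¹ (w / x ^ 2) (atInf m δ A i) := by
  have h1 : ev x w (A i) =
      ∑ j ∈ Finset.range (2 * m + 1), aeval x ((A i).coeff j) * w ^ j := by
    rw [ev, coe_eval₂RingHom, eval₂_eq_sum_range' _ (Nat.lt_succ_iff.2 (hN i))]
    rfl
  rw [h1, atInf, map_sum, Finset.mul_sum]
  refine Finset.sum_congr rfl fun j _ => ?_
  by_cases h0 : (A i).coeff j = 0
  · simp [h0]
  have h2 := hδ i j h0
  letI : Invertible x := invertibleOfNonzero hx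
  have h3 := eval₂_reflect_mul_pow (algebraMap k L) x (δ - 2 * j) ((A i).coeff j) (by omega)
  rw [invOf_eq_inv] at h3
  rw [map_mul, ev_C, map_pow, ev_X, aeval_def, aeval_def, ← h3]
  have h4 : x ^ δ = x ^ (δ - 2 * j) * (x ^ 2) ^ j := by
    rw [← pow_mul, ← pow_add]; congr 1; omega
  rw [h4, div_pow]
  have : (x ^ 2) ^ j ≠ 0 := pow_ne_zero _ (pow_ne_zero _ hx)
  field_simp

lemma Ctx.infinity (h : Ctx θ τ κ₁ x w) (hf : ∀ g, τ g f = f) (hA : Red x w f A (2 * m))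
    (ho : ∀ x₀, (PK (AlgebraicClosure ℚ) κ₁).eval x₀ = 0 →
      ∀ j ≤ 2 * m, e2 x₀ A j + j = m + e2 x₀ A (2 * m - j)) :
    ∃ δ, DegLE m A δ ∧ GoodFibre (atInf m δ A) m 0 ∧
      ∀ i, ev x w (A i) = x ^ δ * ev x⁻¹ (w / x ^ 2) (atInf m δ A i) := by
  classical
  set S : Finset (Fin 2 × ℕ) := (Finset.univ ×ˢ Finset.range (2 * m + 1)).filter
    (fun p => (A p.1).coeff p.2 ≠ 0) with hS
  have hmem : ∀ i j, (A i).coeff j ≠ 0 → (i, j) ∈ S := by
    intro i j hij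
    rw [hS, Finset.mem_filter, Finset.mem_product]
    refine ⟨⟨Finset.mem_univ _, Finset.mem_range.2 ?_⟩, hij⟩
    exact Nat.lt_succ_iff.2 ((le_natDegree_of_ne_zero hij).trans (hA.natDegree_le i))
  obtain ⟨i₀, hi₀⟩ := hA.top
  have hSne : S.Nonempty := ⟨_, hmem i₀ _ hi₀⟩
  obtain ⟨⟨i, j⟩, hij, hmax⟩ :=
    S.exists_max_image (fun p => ((A p.1).coeff p.2).natDegree + 2 * p.2) hSne
  have hij' : (A i).coeff j ≠ 0 := (Finset.mem_filter.1 hij).2
  have hj2 : j ≤ 2 * m := (le_natDegree_of_ne_zero hij').trans (hA.natDegree_le i)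
  set δ := ((A i).coeff j).natDegree + 2 * j with hδ
  have hd1 : ∀ i' j', (A i').coeff j' ≠ 0 → ((A i').coeff j').natDegree + 2 * j' ≤ δ :=
    fun i' j' h' => hmax (i', j') (hmem i' j' h')
  have hd2 : ∀ i' j', (A i').coeff j' ≠ 0 → ((A i').coeff j').natDegree + j' + m ≤ δ := by
    intro i' j' h'
    have hj' : j' ≤ 2 * m := (le_natDegree_of_ne_zero h').trans (hA.natDegree_le i')
    obtain ⟨h1, h2⟩ := h.degrees hf hA ho i' hj' h'
    have h3 := hd1 i' _ h1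
    omega
  obtain ⟨hpne, hpd⟩ := h.degrees hf hA ho i hj2 hij'
  have hmj : m ≤ j := by
    have h3 := hd1 i _ hpne
    by_contra hlt
    omega
  refine ⟨δ, fun i' j' h' => ⟨hd1 i' j' h', hd2 i' j' h'⟩, ?_,
    fun i' => ev_atInf hA.natDegree_le hd1 w h.x_ne i'⟩
  apply goodFibre_of (atInf_natDegree m δ A)
  · intro i' j' hj'
    rw [C_0, sub_zero, atInf_coeff m δ A i' (by omega)]
    by_cases h0 : (A i').coeff j' = 0
    · simp [h0]
    · have h3 := hd2 i' j' h0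
      rw [X_pow_dvd_iff]
      intro d hd
      rw [coeff_reflect, revAt_le (by omega)]
      apply coeff_eq_zero_of_natDegree_lt
      omega
  · refine ⟨i, j, hmj, hj2, ?_⟩
    rw [atInf_coeff m δ A i hj2, ← coeff_zero_eq_eval_zero, coeff_reflect, revAt_le (by omega),
      Nat.sub_zero, show δ - 2 * j = ((A i).coeff j).natDegree by omega]
    exact leadingCoeff_ne_zero.2 hij'
  · refine ⟨i, 2 * m - j, by omega, ?_⟩
    rw [C_0, sub_zero, atInf_coeff m δ A i (by omega), X_pow_dvd_iff]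
    intro hall
    have h4 := hall (m - (2 * m - j)) (by omega)
    have h3 := hd1 i _ hpne
    rw [coeff_reflect, revAt_le (by omega),
      show δ - 2 * (2 * m - j) - (m - (2 * m - j)) = ((A i).coeff (2 * m - j)).natDegree by
        omega] at h4
    exact hpne (leadingCoeff_eq_zero.1 h4)

end

end Pool.Agent.H48.SymDP
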