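import Pool.Agent.H48.SymDP.Irr.Loc
import Pool.Agent.H48.SymDP.Irr.Red

/-!
# Galois equivariance of the optimal elementary modifications
-/

open Polynomial

namespace Pool.Agent.H48.SymDP

section Transport

variable {k : Type*} [Field k]

lemma Loc.pos {m : ℕ} {A : Fin 2 → k[X][X]} {x₀ : k} {r n : ℕ} {s : k[X]}
    (h : Loc m A x₀ r s n) (hr : 0 < r) : m * r < n := by
  have := h.2 _ _ _ (VV_zero A x₀ 0 0)
  omega

lemma VV.n_eq_zero {m : ℕ} {A : Fin 2 → k[X][X]} {R : k[X]} (hA : WData m A R) {x₀ : k} {n : ℕ}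
    {s : k[X]} (h : VV A x₀ 0 s n) : n = 0 := by
  by_contra hn
  obtain ⟨i, hi⟩ := hA.top x₀
  apply hi
  have h1 := (C_dvd_iff_dvd_coeff _ _).1 (h i) (2 * m)
  rw [coeff_comp_lin (hA.natDegree_le i), pow_zero, one_pow, mul_one] at h1
  exact dvd_iff_isRoot.1 (dvd_trans (dvd_pow_self _ hn) h1)

lemma VV.eval {A : Fin 2 → k[X][X]} {x₀ : k} {r n : ℕ} {s : k[X]}
    (h : VV A x₀ r s n) (hn : n ≠ 0) (i : Fin 2) : ((A i).eval s).eval x₀ = 0 := by
  have h1 := (C_dvd_iff_dvd_coeff _ _).1 (h i) 0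
  rw [coeff_zero_eq_eval_zero, eval_comp] at h1
  simp only [eval_add, eval_mul, eval_C, eval_X, mul_zero, zero_add] at h1
  exact dvd_iff_isRoot.1 (dvd_trans (dvd_pow_self _ hn) h1)

lemma VV.map {A : Fin 2 → k[X][X]} {x₀ : k} {r n : ℕ} {s : k[X]} (g : k →+* k)
    (h : VV A x₀ r s n) : VV (fun i => mg g (A i)) (g x₀) r (s.map g) n := by
  intro i
  have := _root_.map_dvd (mg g) (h i)
  have h2 : mg g ((A i).comp (C ((X - C x₀) ^ r) * X + C s)) =
      (mg g (A i)).comp (C ((X - C (g x₀)) ^ r) * X + C (s.map g)) := by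
    rw [mg, coe_mapRingHom, Polynomial.map_comp]
    simp
  rw [h2, mg_C] at this
  simpa using this

lemma VV.of_C_mul {A A' : Fin 2 → k[X][X]} {x₀ : k} {r n : ℕ} {s : k[X]} {c : k[X]}
    (hc : c.eval x₀ ≠ 0) (h : VV A' x₀ r s n) (hA : ∀ i, A' i = C c * A i) : VV A x₀ r s n := by
  intro i
  have h1 := h i
  rw [hA i, mul_comp, C_comp] at h1
  have hco : IsCoprime ((X - C x₀) ^ n) c := by
    apply IsCoprime.pow_left
    rw [(irreducible_X_sub_C x₀).coprime_iff_not_dvd]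
    intro h; exact hc (dvd_iff_isRoot.1 h)
  have hco' : IsCoprime (C ((X - C x₀) ^ n) : k[X][X]) (C c) := hco.map C
  exact hco'.dvd_of_dvd_mul_left h1

/-- Transport of the optimal modification by an automorphism fixing the pair up to a constant. -/
lemma Loc.fix {m : ℕ} {A : Fin 2 → k[X][X]} {x₀ : k} {r n : ℕ} {s : k[X]} {g : k ≃+* k}
    {c : k} (hc : c ≠ 0) (hg : ∀ i, mg (g : k →+* k) (A i) = C (C c) * A i)
    (h : Loc m A x₀ r s n) : Loc m A (g x₀) r (s.map (g : k →+* k)) n := by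
  have hc' : (C c : k[X]).eval (g x₀) ≠ 0 := by simpa using hc
  have hg' : ∀ i, mg (g.symm : k →+* k) (A i) = C (C (g.symm c)⁻¹) * A i := by
    intro i
    have h1 := congrArg (mg (g.symm : k →+* k)) (hg i)
    rw [map_mul, mg_C, map_C] at h1
    have h2 : mg (g.symm : k →+* k) (mg (g : k →+* k) (A i)) = A i := by
      ext a b
      simp
    rw [h2] at h1
    have h3 : (C (C (g.symm c)⁻¹) : k[X][X]) * C (C (g.symm c)) = 1 := by
      rw [← C_mul, ← C_mul, inv_mul_cancel₀, C_1, C_1]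
      simpa using hc
    calc mg (g.symm : k →+* k) (A i)
        = (C (C (g.symm c)⁻¹) : k[X][X]) * C (C (g.symm c)) * mg (g.symm : k →+* k) (A i) := by
          rw [h3, one_mul]
      _ = C (C (g.symm c)⁻¹) * A i := by
          rw [mul_assoc]
          exact congrArg (fun q => (C (C (g.symm c)⁻¹) : k[X][X]) * q) h1.symm
  refine ⟨(VV.map (g : k →+* k) h.1).of_C_mul hc' hg, fun r' s' n' h' => ?_⟩
  refine h.2 r' (s'.map (g.symm : k →+* k)) n' ?_
  have h1 := VV.map (g.symm : k →+* k) h'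
  have h2 : (g.symm : k →+* k) (g x₀) = x₀ := by simp
  rw [h2] at h1
  have h3 : (C (g.symm c)⁻¹ : k[X]).eval x₀ ≠ 0 := by
    rw [eval_C]
    exact inv_ne_zero ((map_ne_zero g.symm).2 hc)
  exact h1.of_C_mul h3 hg'

/-- The pair of forms in the coordinate `W = 1 / (w - lam)`. -/
noncomputable def AW (m : ℕ) (lam : k) (A : Fin 2 → k[X][X]) (i : Fin 2) : k[X][X] :=
  hevr C (2 * m) (A i) (C (C lam) * X + C 1) (C 1 * X + C 0)

lemma coeff_hevr_top {R : Type*} [CommRing R] (N : ℕ) (A : R[X]) (a b c d : R) :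
    (hevr C N A (C a * X + C b) (C c * X + C d)).coeff N = hevr (RingHom.id R) N A a c := by
  rw [hevr, hevr, finsetSum_coeff]
  refine Finset.sum_congr rfl fun j hj => ?_
  have hj' : j ≤ N := Nat.lt_succ_iff.1 (Finset.mem_range.1 hj)
  rw [mul_assoc, coeff_C_mul, RingHom.id_apply, mul_assoc]
  congr 1
  have h1 : ∀ a b : R, (C a * X + C b).natDegree ≤ 1 := fun a b => natDegree_linear_le
  have h2 : ∀ (a b : R) (l : ℕ), ((C a * X + C b) ^ l).natDegree ≤ l := fun a b l =>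
    (natDegree_pow_le.trans (Nat.mul_le_mul_left _ (h1 a b))).trans (by simp)
  have h3 : ∀ (a b : R) (l : ℕ), ((C a * X + C b) ^ l).coeff l = a ^ l := by
    intro a b l
    have := coeff_pow_of_natDegree_le (m := l) (h1 a b)
    rw [mul_one] at this
    rw [this]
    simp
  have h4 := coeff_mul_add_eq_of_natDegree_le (h2 a b j) (h2 c d (N - j))
  rw [show j + (N - j) = N by omega] at h4
  rw [h4, h3, h3]

lemma AW_top {m : ℕ} {lam : k} {A : Fin 2 → k[X][X]} (hdeg : ∀ i, (A i).natDegree ≤ 2 * m)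
    (i : Fin 2) : (AW m lam A i).coeff (2 * m) = (A i).eval (C lam) := by
  rw [AW, coeff_hevr_top, hevr_one_right _ (hdeg i), eval₂_id]

lemma AW_comp {m : ℕ} {lam : k} {A : Fin 2 → k[X][X]} (i : Fin 2) (W : k[X][X]) :
    (AW m lam A i).comp W = hevr C (2 * m) (A i) (C (C lam) * W + 1) W := by
  have := map_hevr (compRingHom W) C (2 * m) (A i) (C (C lam) * X + C 1) (C 1 * X + C 0)
  rw [coe_compRingHom_apply] at this
  rw [AW, this]
  congr 1
  · ext <;> simp
  · simp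
  · simp

lemma pow_aux {S : Type*} [CommRing S] (I : Ideal S) {a r x v : S} (n : ℕ)
    (h1 : r * x ^ n ∈ I) (h2 : a - x * v ∈ I) : r * a ^ n ∈ I := by
  obtain ⟨q, hq⟩ := sub_dvd_pow_sub_pow a (x * v) n
  have : r * a ^ n = (r * q) * (a - x * v) + v ^ n * (r * x ^ n) := by
    rw [mul_pow] at hq
    linear_combination r * hq
  rw [this]
  exact I.add_mem (I.mul_mem_left _ h2) (I.mul_mem_left _ h1)

lemma AW_wdata {m : ℕ} {lam : k} {A : Fin 2 → k[X][X]} (hdeg : ∀ i, (A i).natDegree ≤ 2 * m)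
    (htop : ∃ i, (A i).coeff (2 * m) ≠ 0)
    (hbez : ∃ (C₀ C₁ : k[X][X]) (R : k[X]), R ≠ 0 ∧ C₀ * A 0 + C₁ * A 1 = C R)
    (hlam : ∀ x₀ : k, ∃ i, ((A i).eval (C lam)).eval x₀ ≠ 0) :
    ∃ R, WData m (AW m lam A) R := by
  obtain ⟨C₀, C₁, R, hR, hbez⟩ := hbez
  obtain ⟨i, hi⟩ := htop
  set M := max C₀.natDegree C₁.natDegree with hM
  have hC₀ : C₀.natDegree ≤ M := le_max_left _ _
  have hC₁ : C₁.natDegree ≤ M := le_max_right _ _
  have h1 : hevr C M C₀ (C (C lam) * X + C 1) (C 1 * X + C 0) * AW m lam A 0 +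
      hevr C M C₁ (C (C lam) * X + C 1) (C 1 * X + C 0) * AW m lam A 1 =
      C R * X ^ (M + 2 * m) := by
    have h2 := congrArg (fun q => hevr (C : k[X] →+* k[X][X]) (M + 2 * m) q
      (C (C lam) * X + C 1) (C 1 * X + C 0)) hbez
    rw [hevr_add, hevr_mul _ hC₀ (hdeg 0), hevr_mul _ hC₁ (hdeg 1), hevr_C] at h2
    rw [AW, AW, h2]
    simp
  -- `AW i` at `W = 0`
  have h3 : ∃ v, AW m lam A i = C ((A i).coeff (2 * m)) + X * v := by
    refine ⟨(AW m lam A i).divX, ?_⟩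
    conv_lhs => rw [← X_mul_divX_add (AW m lam A i)]
    rw [add_comm]
    congr 2
    have h4 := AW_comp (m := m) (lam := lam) (A := A) i 0
    rw [mul_zero, zero_add, comp_zero] at h4
    have h5 : hevr (C : k[X] →+* k[X][X]) (2 * m) (A i) 1 0 = C ((A i).coeff (2 * m)) := by
      rw [hevr, Finset.sum_eq_single (2 * m)]
      · simp
      · intro j hj hne
        have hj' : j ≤ 2 * m := Nat.lt_succ_iff.1 (Finset.mem_range.1 hj)
        rw [zero_pow (by omega), mul_zero]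
      · simp
    rw [h5] at h4
    rw [coeff_zero_eq_eval_zero]
    exact C_injective h4
  obtain ⟨v, hv⟩ := h3
  set I : Ideal k[X][X] := Ideal.span {AW m lam A 0, AW m lam A 1} with hI
  have h0I : ∀ j, AW m lam A j ∈ I := by
    intro j; fin_cases j
    · exact Ideal.subset_span (by simp)
    · exact Ideal.subset_span (by simp)
  have hmem : C (R * ((A i).coeff (2 * m)) ^ (M + 2 * m)) ∈ I := by
    rw [C_mul, C_pow]
    refine pow_aux I (x := X) (v := -v) _ ?_ ?_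
    · rw [← h1]
      exact I.add_mem (I.mul_mem_left _ (h0I 0)) (I.mul_mem_left _ (h0I 1))
    · have : C ((A i).coeff (2 * m)) - X * -v = AW m lam A i := by rw [hv]; ring
      rw [this]
      exact h0I i
  rw [hI, Ideal.mem_span_pair] at hmem
  obtain ⟨c₀, c₁, hc⟩ := hmem
  refine ⟨_, fun i => natDegree_hevr_le _ _ _ _ _ _, fun x₀ => ?_,
    mul_ne_zero hR (pow_ne_zero _ hi), c₀, c₁, hc⟩
  obtain ⟨i, hi⟩ := hlam x₀
  exact ⟨i, by rwa [AW_top hdeg]⟩

/-- The data of an automorphism exchanging `w` and `P / w`. -/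
structure Flip (P : k[X]) (lam : k) (m : ℕ) (A : Fin 2 → k[X][X]) (g : k ≃+* k) (ρ : k[X]) :
    Prop where
  map_lam : g lam = lam
  map_P : P.map (g : k →+* k) = P
  unit : ∀ x₀, P.eval x₀ ≠ 0 → ρ.eval x₀ ≠ 0
  coeff : ∀ i, ∀ j ≤ 2 * m, ((A i).coeff (2 * m - j)).map (g : k →+* k) * P ^ (2 * m - j) =
    ρ * (A i).coeff j

variable {P : k[X]} {lam : k} {m : ℕ} {A : Fin 2 → k[X][X]} {g : k ≃+* k} {ρ : k[X]}

lemma mg_AW (hg : g lam = lam) (i : Fin 2) :
    mg (g : k →+* k) (AW m lam A i) = hevr C (2 * m) (mg (g : k →+* k) (A i))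
      (C (C lam) * X + C 1) (C 1 * X + C 0) := by
  rw [AW, map_hevr, mg, coe_mapRingHom, hevr_map]
  congr 1
  · ext <;> simp
  · simp [hg]
  · simp

lemma mg_AW_of_fix (hg : g lam = lam) {c : k}
    (hA : ∀ i, mg (g : k →+* k) (A i) = C (C c) * A i) (i : Fin 2) :
    mg (g : k →+* k) (AW m lam A i) = C (C c) * AW m lam A i := by
  rw [mg_AW hg, hA, hevr_C_mul, AW]

lemma Flip.identity (h : Flip P lam m A g ρ) (i : Fin 2) :
    C ρ * AW m lam A i = hevr C (2 * m) (mg (g : k →+* k) (AW m lam A i))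
      (C (C lam) * X + C 1) (C (P - C lam ^ 2) * X + C (- C lam)) := by
  rw [mg_AW h.map_lam, hevr_hevr]
  have e1 : (C (C lam) * (C (C lam) * X + C 1) + C 1 * (C (P - C lam ^ 2) * X + C (-C lam)) :
      k[X][X]) = C P * X := by
    simp only [C_1, C_sub, C_neg, C_pow]; ring
  have e2 : (C 1 * (C (C lam) * X + C 1) + C 0 * (C (P - C lam ^ 2) * X + C (-C lam)) :
      k[X][X]) = C (C lam) * X + C 1 := by
    simp only [C_1, C_0, zero_mul, one_mul, add_zero]
  rw [e1, e2, AW, hevr, hevr, ← Finset.sum_range_reflect, Finset.mul_sum]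
  refine Finset.sum_congr rfl fun j hj => ?_
  have hj' : j ≤ 2 * m := Nat.lt_succ_iff.1 (Finset.mem_range.1 hj)
  have h2 := congrArg (C : k[X] → k[X][X]) (h.coeff i (2 * m - j) (by omega))
  rw [C_mul, C_mul, C_pow] at h2
  rw [show 2 * m - (2 * m - j) = j by omega] at h2
  rw [show 2 * m + 1 - 1 - j = 2 * m - j by omega, show 2 * m - (2 * m - j) = j by omega,
    mg_coeff, mul_pow]
  simp only [C_1, C_0, one_mul, add_zero]
  linear_combination (- (C (C lam) * X + 1) ^ (2 * m - j) * X ^ j) * h2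

lemma eval₂_mg (g : k ≃+* k) (x₀ : k) (s : k[X]) (B : k[X][X]) :
    (mg (g : k →+* k) B).eval₂ (evalRingHom (g x₀)) ((s.map (g : k →+* k)).eval (g x₀)) =
      g ((B.eval s).eval x₀) := by
  have h1 : ∀ a : k[X], (a.map (g : k →+* k)).eval (g x₀) = g (a.eval x₀) := by
    intro a
    have := eval₂_at_apply (p := a) (g : k →+* k) x₀
    rw [← eval_map] at this
    exact this
  have : (eval₂RingHom (evalRingHom (g x₀)) ((s.map (g : k →+* k)).eval (g x₀))).comp
      (mg (g : k →+* k)) = (g : k →+* k).comp ((evalRingHom x₀).comp (evalRingHom s)) := by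
    apply ringHom_ext'
    · apply RingHom.ext
      intro a
      simp [h1]
    · simp [h1]
  exact RingHom.congr_fun this B

lemma Flip.D_ne (h : Flip P lam m A g ρ) (hdeg : ∀ i, (A i).natDegree ≤ 2 * m)
    (hlamA : ∀ x₀ : k, ∃ i, ((A i).eval (C lam)).eval x₀ ≠ 0) {x₀ : k}
    (hPx : P.eval (g x₀) ≠ 0) {s : k[X]}
    (hs : ∀ i, ((AW m lam A i).eval s).eval x₀ = 0) :
    ((P - C lam ^ 2) * s.map (g : k →+* k) - C lam).eval (g x₀) ≠ 0 := by
  intro hD
  obtain ⟨i, hi⟩ := hlamA (g x₀)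
  have h1 := congrArg (fun q => (Polynomial.coeff q (2 * m)).eval (g x₀)) (h.identity i)
  simp only [coeff_C_mul, coeff_hevr_top] at h1
  rw [AW_top hdeg, eval_mul] at h1
  rw [← coe_evalRingHom, map_hevr, coe_evalRingHom] at h1
  have h2 : (C lam : k[X]).eval (g x₀) =
      (P - C lam ^ 2).eval (g x₀) * (s.map (g : k →+* k)).eval (g x₀) := by
    rw [eval_sub, eval_mul] at hD
    linear_combination -hD
  have h3 : ∀ (N : ℕ) (B : k[X][X]) (φ : k[X] →+* k) (μ σ : k), B.natDegree ≤ N →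
      hevr φ N B (μ * σ) μ = μ ^ N * B.eval₂ φ σ := by
    intro N B φ μ σ hB
    rw [eval₂_eq_sum_range' φ (Nat.lt_succ_iff.2 hB), hevr, Finset.mul_sum]
    refine Finset.sum_congr rfl fun j hj => ?_
    have hj' : j ≤ N := Nat.lt_succ_iff.1 (Finset.mem_range.1 hj)
    have : μ ^ N = μ ^ j * μ ^ (N - j) := by rw [← pow_add]; congr 1; omega
    rw [this, mul_pow]; ring
  have h4 : (mg (g : k →+* k) (AW m lam A i)).natDegree ≤ 2 * m := by
    rw [mg_natDegree]; exact natDegree_hevr_le _ _ _ _ _ _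
  rw [h2, h3 _ _ _ _ _ h4, RingHom.comp_id, eval₂_mg, hs i, map_zero, mul_zero] at h1
  exact mul_ne_zero (h.unit _ hPx) hi h1

lemma comp_hevr (N : ℕ) (B p q W : k[X][X]) :
    (hevr (C : k[X] →+* k[X][X]) N (B) p q).comp W =
      hevr (C : k[X] →+* k[X][X]) N B (p.comp W) (q.comp W) := by
  have := map_hevr (compRingHom W) C N B p q
  rw [coe_compRingHom_apply] at this
  rw [this]
  congr 1
  ext <;> simp

lemma Flip.vv (h : Flip P lam m A g ρ) {x₀ : k}
    (hPx : P.eval (g x₀) ≠ 0) {r n : ℕ} {s s' : k[X]} (hV : VV (AW m lam A) x₀ r s n)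
    (hs' : (X - C (g x₀)) ^ r ∣ ((P - C lam ^ 2) * s.map (g : k →+* k) - C lam) * s' -
      (C lam * s.map (g : k →+* k) + 1)) : VV (AW m lam A) (g x₀) r s' n := by
  refine VV.of_C_mul (A' := fun i => C ρ * AW m lam A i) (h.unit _ hPx) ?_ (fun i => rfl)
  intro i
  obtain ⟨t, ht⟩ := hs'
  have hdeg' : (mg (g : k →+* k) (AW m lam A i)).natDegree ≤ 2 * m := by
    rw [mg_natDegree]; exact natDegree_hevr_le _ _ _ _ _ _
  set W : k[X][X] := C ((X - C (g x₀)) ^ r) * X + C s' with hW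
  set q : k[X][X] := (C (P - C lam ^ 2) * X + C (- C lam) : k[X][X]).comp W with hq
  have hq' : q = C (P - C lam ^ 2) * W - C (C lam) := by
    rw [hq]; simp [sub_eq_add_neg]
  have hp : (C (C lam) * X + C 1 : k[X][X]).comp W = C ((X - C (g x₀)) ^ r) *
      (-(C ((P - C lam ^ 2) * s.map (g : k →+* k) - C lam) * X + C t)) +
      C (s.map (g : k →+* k)) * q := by
    have h1 := congrArg (C : k[X] → k[X][X]) ht
    have h0 : (C (C lam) * X + C 1 : k[X][X]).comp W = C (C lam) * W + 1 := by simp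
    rw [h0, hq', hW]
    simp only [C_mul, C_sub, C_add, C_1] at h1 ⊢
    linear_combination -h1
  have h2 := (VV.map (g : k →+* k) hV) i
  have hgx : (g : k →+* k) x₀ = g x₀ := rfl
  rw [hgx] at h2
  obtain ⟨E, hE⟩ := h2
  simp only
  rw [h.identity, comp_hevr, ← hq, hp, ← hevr_comp C hdeg', hE, hevr_C_mul]
  exact dvd_mul_right _ _

lemma exists_solve {x₁ : k} {D b : k[X]} (r : ℕ) (hD : D.eval x₁ ≠ 0) :
    ∃ s', (X - C x₁) ^ r ∣ D * s' - b := by
  have hco : IsCoprime ((X - C x₁) ^ r) D := by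
    apply IsCoprime.pow_left
    rw [(irreducible_X_sub_C x₁).coprime_iff_not_dvd]
    intro h; exact hD (dvd_iff_isRoot.1 h)
  obtain ⟨u, v, huv⟩ := hco
  exact ⟨v * b, -u * b, by linear_combination b * huv⟩

/-- Transport of the optimal modification by an automorphism exchanging `w` and `P / w`. -/
lemma Flip.loc {ρ' : k[X]} (h : Flip P lam m A g ρ) (h' : Flip P lam m A g.symm ρ')
    (hdeg : ∀ i, (A i).natDegree ≤ 2 * m)
    (hlamA : ∀ x₀ : k, ∃ i, ((A i).eval (C lam)).eval x₀ ≠ 0) {x₀ : k}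
    (hPx : P.eval x₀ ≠ 0) {r n : ℕ} {s : k[X]} (hL : Loc m (AW m lam A) x₀ r s n) (hr : 0 < r) :
    ∃ s', (X - C (g x₀)) ^ r ∣ ((P - C lam ^ 2) * s.map (g : k →+* k) - C lam) * s' -
      (C lam * s.map (g : k →+* k) + 1) ∧ Loc m (AW m lam A) (g x₀) r s' n := by
  have hPx' : P.eval (g x₀) ≠ 0 := by
    have := eval₂_at_apply (p := P) (g : k →+* k) x₀
    rw [← eval_map, h.map_P] at this
    have hgx : (g : k →+* k) x₀ = g x₀ := rfl
    rw [hgx] at this
    rw [this]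
    exact (map_ne_zero g).2 hPx
  have hn := hL.pos hr
  have hD := h.D_ne hdeg hlamA hPx' (hL.1.eval (by omega))
  obtain ⟨s', hs'⟩ := exists_solve (b := C lam * s.map (g : k →+* k) + 1) r hD
  refine ⟨s', hs', h.vv hPx' hL.1 hs', fun r' s'' n' hV' => ?_⟩
  by_cases hn' : n' = 0
  · left
    rw [hn']
    omega
  · have hgg : g.symm (g x₀) = x₀ := g.symm_apply_apply x₀
    have hD' := h'.D_ne (x₀ := g x₀) hdeg hlamA (by rw [hgg]; exact hPx) (hV'.eval hn')
    obtain ⟨s₃, hs₃⟩ := exists_solve (b := C lam * s''.map (g.symm : k →+* k) + 1) r' hD'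
    have hV₃ := h'.vv (x₀ := g x₀) (by rw [hgg]; exact hPx) hV' hs₃
    rw [hgg] at hV₃
    exact hL.2 _ _ _ hV₃

end Transport

end Pool.Agent.H48.SymDP
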